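import Pool.Agent.Lib.P332aa0.Defs

set_option autoImplicit false

open MeasureTheory Filter Topology
open scoped ENNReal NNReal

namespace Pool.Agent.Lib.P332aa0

instance : IsProbabilityMeasure μ := ⟨by
  have := Measure.addHaarMeasure_self (K₀ := (⊤ : TopologicalSpace.PositiveCompacts G))
  simpa [μ] using this⟩

instance : μ.IsAddHaarMeasure := by unfold μ; infer_instance

/-- unit vector -/
def e (k : ℕ) : G := Pi.single k 1

lemma e_self (k : ℕ) : e k k = 1 := by simp [e]

lemma e_ne {j k : ℕ} (h : j ≠ k) : e k j = 0 := by simp [e, h]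

lemma zmod_cases (a : ZMod 2) : a = 0 ∨ a = 1 := by revert a; decide

lemma add_self_G (x : G) : x + x = 0 := by
  ext j
  have : ∀ a : ZMod 2, a + a = 0 := by decide
  exact this (x j)

/-- dependence on the first `M` coordinates -/
def Dep {β : Type*} (M : ℕ) (g : G → β) : Prop := ∀ x y : G, (∀ j < M, x j = y j) → g x = g y

lemma Dep.mono {β : Type*} {M N : ℕ} {g : G → β} (h : Dep M g) (hMN : M ≤ N) : Dep N g :=
  fun x y hxy => h x y fun j hj => hxy j (hj.trans_le hMN)

lemma Dep.continuous {β : Type*} [TopologicalSpace β] {M : ℕ} {g : G → β} (h : Dep M g) :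
    Continuous g := by
  apply IsLocallyConstant.continuous
  rw [IsLocallyConstant.iff_exists_open]
  intro x
  exact ⟨I M x, isOpen_I M x, fun j _ => rfl, fun y hy => h y x hy⟩

lemma Dep.comp {β γ : Type*} {M : ℕ} {g : G → β} (h : Dep M g) (F : β → γ) :
    Dep M fun x => F (g x) := fun x y hxy => by simp only [h x y hxy]

lemma Dep.comp₂ {β γ δ : Type*} {M : ℕ} {g : G → β} {g' : G → γ} (h : Dep M g) (h' : Dep M g')
    (F : β → γ → δ) : Dep M fun x => F (g x) (g' x) := fun x y hxy => by simp only [h x y hxy, h' x y hxy]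

lemma Continuous.integrable_G {β : Type*} [NormedAddCommGroup β] {g : G → β}
    (h : Continuous g) : Integrable g μ := by
  exact h.integrable_of_hasCompactSupport (HasCompactSupport.of_compactSpace g)

lemma Dep.integrable {β : Type*} [NormedAddCommGroup β] {M : ℕ} {g : G → β} (h : Dep M g) :
    Integrable g μ := Continuous.integrable_G h.continuous

lemma integral_shift {β : Type*} [NormedAddCommGroup β] [NormedSpace ℝ β] (g : G → β) (t : G) :
    ∫ x, g (x + t) ∂μ = ∫ x, g x ∂μ := integral_add_right_eq_self g t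

lemma measurable_I (n : ℕ) (x : G) : MeasurableSet (I n x) := (isOpen_I n x).measurableSet

lemma measure_I_shift (n : ℕ) (x t : G) : μ (I n (x + t)) = μ (I n x) := by
  have h : (fun y : G => y + t) ⁻¹' (I n (x + t)) = I n x := by
    ext y
    simp only [I, Set.mem_preimage, Set.mem_ofPred_eq, Pi.add_apply, add_left_inj]
  rw [← h]
  exact (measure_preimage_add_right μ t _).symm

lemma measure_I (n : ℕ) (x : G) : μ (I n x) = (2 ^ n)⁻¹ := by
  induction n generalizing x with
  | zero =>
    have : I 0 x = Set.univ := by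
      ext y; simp [I]
    rw [this, measure_univ]; simp
  | succ n ih =>
    have h1 := ih x
    rw [I_succ, measure_union _ (measurable_I _ _)] at h1
    · have h2 := measure_I_shift (n + 1) x (Pi.single n 1)
      rw [h2, ← two_mul] at h1
      have h3 : (2 : ℝ≥0∞)⁻¹ * (2 * μ (I (n + 1) x)) = (2:ℝ≥0∞)⁻¹ * (2 ^ n)⁻¹ := by rw [h1]
      rw [← mul_assoc, ENNReal.inv_mul_cancel (by norm_num) (by norm_num), one_mul] at h3
      rw [h3, pow_succ, ENNReal.mul_inv (by simp) (by simp), mul_comm]
    · rw [Set.disjoint_left]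
      intro y hy1 hy2
      have a1 := hy1 n (by omega)
      have a2 := hy2 n (by omega)
      rw [a1, Pi.add_apply, Pi.single_eq_same] at a2
      have : ∀ a : ZMod 2, a ≠ a + 1 := by decide
      exact this _ a2

lemma measureReal_I (n : ℕ) (x : G) : μ.real (I n x) = (2 ^ n)⁻¹ := by
  rw [Measure.real, measure_I, ENNReal.toReal_inv, ENNReal.toReal_pow]; simp

/-- factor of the Walsh function -/
noncomputable def sg (n : ℕ) (x : G) (k : ℕ) : ℝ := if n.testBit k = true ∧ x k = 1 then -1 else 1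

lemma w_eq (n : ℕ) (x : G) : w n x = ∏ k ∈ Finset.range n, sg n x k := rfl

lemma sg_of_ge {n k : ℕ} (h : n < 2 ^ k) (x : G) : sg n x k = 1 := by
  unfold sg
  rw [Nat.testBit_lt_two_pow h]
  simp

lemma w_eq_prod {n N : ℕ} (h : n < 2 ^ N) (x : G) : w n x = ∏ k ∈ Finset.range N, sg n x k := by
  rw [w_eq]
  rcases le_total n N with h1 | h1
  · refine (Finset.prod_subset (Finset.range_subset_range.2 h1) fun k _ hk => ?_)
    apply sg_of_ge
    rw [Finset.mem_range, not_lt] at hk
    exact lt_of_lt_of_le Nat.lt_two_pow_self (Nat.pow_le_pow_right (by norm_num) hk)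
  · refine (Finset.prod_subset (Finset.range_subset_range.2 h1) fun k _ hk => ?_).symm
    apply sg_of_ge
    rw [Finset.mem_range, not_lt] at hk
    exact lt_of_lt_of_le h (Nat.pow_le_pow_right (by norm_num) hk)

lemma sg_add (n : ℕ) (x y : G) (k : ℕ) : sg n (x + y) k = sg n x k * sg n y k := by
  unfold sg
  rw [Pi.add_apply]
  by_cases hb : n.testBit k = true
  · rcases zmod_cases (x k) with hx | hx <;> rcases zmod_cases (y k) with hy | hy <;>
      simp [hb, hx, hy]
  · simp [hb]

lemma w_add (n : ℕ) (x y : G) : w n (x + y) = w n x * w n y := by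
  rw [w_eq, w_eq, w_eq, ← Finset.prod_mul_distrib]
  exact Finset.prod_congr rfl fun k _ => sg_add n x y k

lemma sg_abs (n : ℕ) (x : G) (k : ℕ) : |sg n x k| = 1 := by
  unfold sg; split_ifs <;> simp

lemma w_abs (n : ℕ) (x : G) : |w n x| = 1 := by
  rw [w_eq, Finset.abs_prod]
  exact Finset.prod_eq_one fun k _ => sg_abs n x k

lemma w_sq (n : ℕ) (x : G) : w n x * w n x = 1 := by
  rw [← abs_mul_abs_self, w_abs]; norm_num

lemma w_zero (x : G) : w 0 x = 1 := by simp [w]

lemma w_dep {n N : ℕ} (h : n < 2 ^ N) : Dep N (w n) := by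
  intro x y hxy
  rw [w_eq_prod h, w_eq_prod h]
  refine Finset.prod_congr rfl fun k hk => ?_
  unfold sg
  rw [hxy k (Finset.mem_range.1 hk)]

lemma sg_mul_add {a q m : ℕ} (ha : a < 2 ^ m) (x : G) (k : ℕ) :
    sg (q * 2 ^ m + a) x k = sg (q * 2 ^ m) x k * sg a x k := by
  have h1 := Nat.testBit_two_pow_mul_add q ha k
  have h2 := Nat.testBit_two_pow_mul_add q (Nat.two_pow_pos m) k
  rw [add_zero] at h2
  rw [mul_comm] at h1 h2
  unfold sg
  rw [h1, h2]
  by_cases hk : k < m
  · simp [hk]
  · have : a.testBit k = false := Nat.testBit_lt_two_pow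
      (lt_of_lt_of_le ha (Nat.pow_le_pow_right (by norm_num) (not_lt.1 hk)))
    simp [hk, this]

lemma w_mul_add {a q m : ℕ} (ha : a < 2 ^ m) (x : G) :
    w (q * 2 ^ m + a) x = w (q * 2 ^ m) x * w a x := by
  obtain ⟨N, hN⟩ : ∃ N, q * 2 ^ m + a < 2 ^ N := ⟨q * 2 ^ m + a, Nat.lt_two_pow_self⟩
  rw [w_eq_prod hN, w_eq_prod (lt_of_le_of_lt (by omega) hN : q * 2 ^ m < 2 ^ N),
    w_eq_prod (lt_of_le_of_lt (by omega) hN : a < 2 ^ N), ← Finset.prod_mul_distrib]
  exact Finset.prod_congr rfl fun k _ => sg_mul_add ha x k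

lemma w_of_mem {a m : ℕ} (ha : a < 2 ^ m) {x : G} (hx : ∀ j < m, x j = 0) : w a x = 1 := by
  rw [w_eq_prod ha]
  refine Finset.prod_eq_one fun k hk => ?_
  unfold sg
  rw [hx k (Finset.mem_range.1 hk)]
  simp

lemma w_of_J {a m : ℕ} (ha : 2 ^ m ≤ a) (ha' : a < 2 ^ (m + 1)) {x : G} (hx : ∀ j < m, x j = 0)
    (hxm : x m = 1) : w a x = -1 := by
  rw [w_eq_prod ha', Finset.prod_range_succ]
  have h1 : ∏ k ∈ Finset.range m, sg a x k = 1 := by
    refine Finset.prod_eq_one fun k hk => ?_
    unfold sg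
    rw [hx k (Finset.mem_range.1 hk)]
    simp
  rw [h1, one_mul]
  unfold sg
  have h2 : a.testBit m = true := by
    have := Nat.testBit_two_pow_mul_add 1 (b := a - 2 ^ m) (i := m)
      (by rw [pow_succ] at ha'; omega) m
    rw [mul_one, Nat.add_sub_cancel' ha] at this
    simpa using this
  rw [if_pos ⟨h2, hxm⟩]

/-- Dirichlet kernel -/
noncomputable def D (n : ℕ) (x : G) : ℝ := ∑ i ∈ Finset.range n, w i x

lemma D_zero (x : G) : D 0 x = 0 := by simp [D]

lemma D_succ (n : ℕ) (x : G) : D (n + 1) x = D n x + w n x := by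
  unfold D; rw [Finset.sum_range_succ]

lemma D_dep {n N : ℕ} (h : n ≤ 2 ^ N) : Dep N (D n) := by
  intro x y hxy
  unfold D
  refine Finset.sum_congr rfl fun i hi => ?_
  exact w_dep (lt_of_lt_of_le (Finset.mem_range.1 hi) h) x y hxy

lemma D_add {a q m : ℕ} (ha : a ≤ 2 ^ m) (x : G) :
    D (q * 2 ^ m + a) x = D (q * 2 ^ m) x + w (q * 2 ^ m) x * D a x := by
  induction a with
  | zero => simp [D_zero]
  | succ a ih =>
    rw [← add_assoc, D_succ, ih (by omega), w_mul_add (by omega), D_succ]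
    ring

lemma D_two_pow_succ (m : ℕ) (x : G) : D (2 ^ (m + 1)) x = D (2 ^ m) x * (1 + w (2 ^ m) x) := by
  have := D_add (q := 1) (le_refl (2 ^ m)) x
  rw [one_mul, ← two_mul, ← pow_succ'] at this
  rw [this]; ring

lemma D_of_mem {a m : ℕ} (ha : a ≤ 2 ^ m) {x : G} (hx : ∀ j < m, x j = 0) : D a x = a := by
  induction a with
  | zero => simp [D_zero]
  | succ a ih =>
    rw [D_succ, ih (by omega), w_of_mem (by omega) hx]
    push_cast; ring

lemma D_two_pow_of_not_mem {m : ℕ} {x : G} (hx : ¬ ∀ j < m, x j = 0) : D (2 ^ m) x = 0 := by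
  induction m with
  | zero => exact absurd (fun j hj => absurd hj (by omega)) hx
  | succ m ih =>
    rw [D_two_pow_succ]
    by_cases h : ∀ j < m, x j = 0
    · have hm : x m = 1 := by
        rcases zmod_cases (x m) with h1 | h1
        · exfalso
          apply hx
          intro j hj
          rcases Nat.lt_succ_iff_lt_or_eq.1 hj with h2 | h2
          · exact h j h2
          · rw [h2, h1]
        · exact h1
      rw [w_of_J (le_refl _) (by rw [pow_succ]; have := Nat.two_pow_pos m; omega) h hm]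
      ring
    · rw [ih h, zero_mul]

lemma D_mul_two_pow {q m : ℕ} {x : G} (hx : ¬ ∀ j < m, x j = 0) : D (q * 2 ^ m) x = 0 := by
  induction q with
  | zero => simp [D_zero]
  | succ q ih =>
    rw [Nat.add_mul, one_mul, D_add (le_refl _), ih, D_two_pow_of_not_mem hx]
    ring

/-- tent function -/
noncomputable def tent (m a : ℕ) : ℝ := min (a : ℝ) (2 ^ (m + 1) - a)

/-- the set `J_m = I_m \ I_{m+1}` -/
def J (m : ℕ) : Set G := {x | (∀ j < m, x j = 0) ∧ x m = 1}

lemma D_of_J_small {a m : ℕ} (ha : a ≤ 2 ^ (m + 1)) {x : G} (hx : x ∈ J m) : D a x = tent m a := by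
  have key : ∀ b : ℕ, 2 ^ m + b ≤ 2 ^ (m + 1) → D (2 ^ m + b) x = 2 ^ m - b := by
    intro b hb
    induction b with
    | zero =>
      rw [add_zero, D_of_mem (le_refl _) hx.1]; push_cast; ring
    | succ b ih =>
      rw [← add_assoc, D_succ, ih (by omega), w_of_J (by omega) (by omega) hx.1 hx.2]
      push_cast; ring
  unfold tent
  rcases le_total a (2 ^ m) with h | h
  · rw [D_of_mem h hx.1, min_eq_left]
    have : (a : ℝ) ≤ 2 ^ m := by exact_mod_cast h
    rw [pow_succ]; linarith
  · obtain ⟨b, rfl⟩ := Nat.exists_eq_add_of_le h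
    rw [key b ha, min_eq_right]
    · push_cast; rw [pow_succ]; ring
    · push_cast
      rw [pow_succ]
      have : (0:ℝ) ≤ b := Nat.cast_nonneg b
      linarith

lemma D_of_J {a q m : ℕ} (ha : a ≤ 2 ^ (m + 1)) {x : G} (hx : x ∈ J m) :
    D (q * 2 ^ (m + 1) + a) x = w (q * 2 ^ (m + 1)) x * tent m a := by
  rw [D_add ha, D_mul_two_pow, D_of_J_small ha hx, zero_add]
  intro h
  have := h m (by omega)
  rw [hx.2] at this
  exact absurd this (by decide)

end Pool.Agent.Lib.P332aa0
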