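import Pool.Agent.Lib.P332aa0.PLess

set_option autoImplicit false

open MeasureTheory Filter Topology
open scoped ENNReal NNReal

namespace Pool.Agent.Lib.P332aa0

/-- Burkholder's function -/
noncomputable def U (a b : ℂ) : ℝ := if ‖a‖ + ‖b‖ ≤ 1 then ‖b‖ ^ 2 - ‖a‖ ^ 2 else 1 - 2 * ‖a‖

lemma U_le (a b : ℂ) : U a b ≤ 1 - 2 * ‖a‖ := by
  unfold U
  split_ifs with h
  · have h1 : ‖b‖ ≤ 1 - ‖a‖ := by linarith
    have h2 := norm_nonneg b
    nlinarith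
  · exact le_rfl

lemma U_le_of {a b : ℂ} (h : ‖a‖ ≤ 1 + ‖b‖) : U a b ≤ ‖b‖ ^ 2 - ‖a‖ ^ 2 := by
  unfold U
  split_ifs with h1
  · exact le_rfl
  · push Not at h1
    have h2 := norm_nonneg b
    have h3 := norm_nonneg a
    have h4 : (‖a‖ - 1) ^ 2 ≤ ‖b‖ ^ 2 := by
      rw [← sq_abs]
      apply pow_le_pow_left₀ (abs_nonneg _)
      rw [abs_le]
      constructor <;> linarith
    nlinarith

lemma norm_sq_add (x h : ℂ) : ‖x + h‖ ^ 2 = ‖x‖ ^ 2 + 2 * inner ℝ x h + ‖h‖ ^ 2 :=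
  norm_add_sq_real x h

/-- tangent inequality -/
lemma U_tangent {x y h k : ℂ} (hxy : ‖x‖ + ‖y‖ ≤ 1) (hkh : ‖k‖ ≤ ‖h‖) :
    U (x + h) (y + k) ≤ ‖y‖ ^ 2 - ‖x‖ ^ 2 + 2 * (inner ℝ y k - inner ℝ x h) := by
  rcases le_or_gt ‖x + h‖ (1 + ‖y + k‖) with hc | hc
  · refine (U_le_of hc).trans ?_
    rw [norm_sq_add, norm_sq_add]
    have : ‖k‖ ^ 2 ≤ ‖h‖ ^ 2 := pow_le_pow_left₀ (norm_nonneg _) hkh 2
    linarith
  · refine (U_le _ _).trans ?_
    -- use Cauchy-Schwarz with the new points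
    have h1 : inner ℝ x h = inner ℝ x (x + h) - ‖x‖ ^ 2 := by
      rw [inner_add_right, real_inner_self_eq_norm_sq]; ring
    have h2 : inner ℝ y k = inner ℝ y (y + k) - ‖y‖ ^ 2 := by
      rw [inner_add_right, real_inner_self_eq_norm_sq]; ring
    have h3 : inner ℝ x (x + h) ≤ ‖x‖ * ‖x + h‖ := real_inner_le_norm _ _
    have h4 : -(‖y‖ * ‖y + k‖) ≤ inner ℝ y (y + k) := by
      have := (abs_le.1 (abs_real_inner_le_norm y (y + k))).1
      linarith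
    rw [h1, h2]
    obtain ⟨a, ha⟩ : ∃ a, a = ‖x‖ := ⟨_, rfl⟩
    obtain ⟨b, hb⟩ : ∃ b, b = ‖y‖ := ⟨_, rfl⟩
    obtain ⟨X, hX⟩ : ∃ X, X = ‖x + h‖ := ⟨_, rfl⟩
    obtain ⟨Y, hY⟩ : ∃ Y, Y = ‖y + k‖ := ⟨_, rfl⟩
    rw [← ha] at h3 hxy ⊢
    rw [← hb] at h4 hxy ⊢
    rw [← hX] at h3 hc ⊢
    rw [← hY] at h4 hc
    have ha0 : 0 ≤ a := by rw [ha]; exact norm_nonneg _
    have hb0 : 0 ≤ b := by rw [hb]; exact norm_nonneg _
    have hY0 : 0 ≤ Y := by rw [hY]; exact norm_nonneg _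
    have h5 : b * Y ≤ b * (X - 1) := by apply mul_le_mul_of_nonneg_left _ hb0; linarith
    have h6 : 0 ≤ (1 - a - b) * (X - 1) := mul_nonneg (by linarith) (by linarith)
    nlinarith [mul_nonneg (by linarith : 0 ≤ 1 - a - b) (by linarith : 0 ≤ 1 - a + b)]

/-- zigzag concavity of Burkholder's function -/
lemma U_mid (x y h k : ℂ) (hkh : ‖k‖ ≤ ‖h‖) :
    U (x + h) (y + k) + U (x - h) (y - k) ≤ 2 * U x y := by
  rcases le_or_gt (‖x‖ + ‖y‖) 1 with hxy | hxy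
  · have h1 := U_tangent hxy hkh
    have h2 := U_tangent (x := x) (y := y) (h := -h) (k := -k) hxy (by rwa [norm_neg, norm_neg])
    rw [inner_neg_right, inner_neg_right] at h2
    have h3 : U x y = ‖y‖ ^ 2 - ‖x‖ ^ 2 := by unfold U; rw [if_pos hxy]
    rw [h3, sub_eq_add_neg x h, sub_eq_add_neg y k]
    linarith
  · have h1 := U_le (x + h) (y + k)
    have h2 := U_le (x - h) (y - k)
    have h3 : U x y = 1 - 2 * ‖x‖ := by unfold U; rw [if_neg (not_le.2 hxy)]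
    have h4 : 2 * ‖x‖ ≤ ‖x + h‖ + ‖x - h‖ := by
      have : (2:ℂ) * x = (x + h) + (x - h) := by ring
      calc 2 * ‖x‖ = ‖(2:ℂ) * x‖ := by rw [norm_mul]; simp
        _ ≤ ‖x + h‖ + ‖x - h‖ := by rw [this]; exact norm_add_le _ _
    rw [h3]
    linarith

lemma U_zero_right (a : ℂ) : U a 0 ≤ 0 := by
  unfold U
  rw [norm_zero]
  split_ifs with h
  · have := norm_nonneg a; nlinarith
  · push Not at h; linarith

lemma U_lower (a b : ℂ) : (if 1 ≤ ‖b‖ then (1:ℝ) else 0) - 2 * ‖a‖ ≤ U a b := by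
  unfold U
  have ha := norm_nonneg a
  have hb := norm_nonneg b
  split_ifs with h1 h2 h2
  · have : ‖a‖ = 0 := by linarith
    rw [this]; nlinarith
  · linarith
  · nlinarith
  · linarith

/-- martingale transform -/
noncomputable def Y (f : ℕ → G → ℂ) (θ : ℕ → ℝ) (n : ℕ) (x : G) : ℂ :=
  ∑ k ∈ Finset.range n, (θ k : ℂ) * (f (k + 1) x - f k x)

lemma Y_dep {f : ℕ → G → ℂ} (hf : Mart f) (θ : ℕ → ℝ) (n : ℕ) : Dep n (Y f θ n) := by
  intro x y hxy
  unfold Y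
  refine Finset.sum_congr rfl fun k hk => ?_
  have hk' := Finset.mem_range.1 hk
  rw [(hf.1 (k + 1)).mono (by omega : k + 1 ≤ n) x y hxy, (hf.1 k).mono (by omega : k ≤ n) x y hxy]

lemma dep_flip {β : Type*} {n : ℕ} {g : G → β} (hg : Dep n g) (x : G) : g (x + e n) = g x := by
  apply hg
  intro j hj
  rw [Pi.add_apply, e_ne (by omega), add_zero]

lemma add_e_add_e (x : G) (n : ℕ) : x + e n + e n = x := by
  rw [add_assoc, add_self_G, add_zero]

lemma U_step {f : ℕ → G → ℂ} (hf : Mart f) {θ : ℕ → ℝ} (hθ : ∀ k, |θ k| ≤ 1) (n : ℕ) :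
    ∫ x, U (f (n + 1) x) (Y f θ (n + 1) x) ∂μ ≤ ∫ x, U (f n x) (Y f θ n x) ∂μ := by
  have hi1 : Integrable (fun x => U (f (n + 1) x) (Y f θ (n + 1) x)) μ :=
    ((hf.1 (n + 1)).comp₂ (Y_dep hf θ (n + 1)) U).integrable
  have hi0 : Integrable (fun x => U (f n x) (Y f θ n x)) μ :=
    ((hf.1 n).comp₂ (Y_dep hf θ n) U).integrable
  have hsh := integral_shift (fun x => U (f (n + 1) x) (Y f θ (n + 1) x)) (e n)
  have hi2 : Integrable (fun x => U (f (n + 1) (x + e n)) (Y f θ (n + 1) (x + e n))) μ :=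
    hi1.comp_add_right _
  have hpt : ∀ x, U (f (n + 1) x) (Y f θ (n + 1) x) +
      U (f (n + 1) (x + e n)) (Y f θ (n + 1) (x + e n)) ≤ 2 * U (f n x) (Y f θ n x) := by
    intro x
    obtain ⟨h, hh⟩ : ∃ h, h = f (n + 1) x - f n x := ⟨_, rfl⟩
    have e1 : f (n + 1) x = f n x + h := by rw [hh]; ring
    have e2 : f (n + 1) (x + e n) = f n x - h := by
      have := hf.2 n x
      rw [hh]; linear_combination -2 * this
    have e3 : Y f θ (n + 1) x = Y f θ n x + (θ n : ℂ) * h := by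
      unfold Y; rw [Finset.sum_range_succ, hh]
    have e4 : Y f θ (n + 1) (x + e n) = Y f θ n x - (θ n : ℂ) * h := by
      have h1 : Y f θ (n + 1) (x + e n) = Y f θ n (x + e n) +
          (θ n : ℂ) * (f (n + 1) (x + e n) - f n (x + e n)) := by
        unfold Y; rw [Finset.sum_range_succ]
      rw [h1, dep_flip (Y_dep hf θ n), dep_flip (hf.1 n), e2]; ring
    rw [e2, e3, e4, e1]
    apply U_mid
    rw [norm_mul, Complex.norm_real, Real.norm_eq_abs]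
    have := hθ n
    have := norm_nonneg h
    nlinarith
  have h2 : ∫ x, (U (f (n + 1) x) (Y f θ (n + 1) x) +
      U (f (n + 1) (x + e n)) (Y f θ (n + 1) (x + e n))) ∂μ ≤ ∫ x, 2 * U (f n x) (Y f θ n x) ∂μ :=
    integral_mono (hi1.add hi2) (hi0.const_mul 2) hpt
  rw [integral_add hi1 hi2, hsh, integral_const_mul] at h2
  linarith

lemma weak_one {f : ℕ → G → ℂ} (hf : Mart f) {θ : ℕ → ℝ} (hθ : ∀ k, |θ k| ≤ 1) (n : ℕ) :
    μ.real {x | 1 ≤ ‖Y f θ n x‖} ≤ 2 * ∫ x, ‖f n x‖ ∂μ := by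
  have h1 : ∀ n, ∫ x, U (f n x) (Y f θ n x) ∂μ ≤ 0 := by
    intro n
    induction n with
    | zero =>
      apply integral_nonpos
      intro x
      have : Y f θ 0 x = 0 := by simp [Y]
      simp only [this]
      exact U_zero_right _
    | succ n ih => exact (U_step hf hθ n).trans ih
  have hY := Y_dep hf θ n
  have hmeas : MeasurableSet {x | 1 ≤ ‖Y f θ n x‖} :=
    (isClosed_le continuous_const hY.continuous.norm).measurableSet
  have hi : Integrable ({x | 1 ≤ ‖Y f θ n x‖}.indicator (fun _ => (1:ℝ))) μ :=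
    (integrable_const 1).indicator hmeas
  have hfi : Integrable (fun x => 2 * ‖f n x‖) μ := ((hf.1 n).comp (fun a => 2 * ‖a‖)).integrable
  have h2 : ∫ x, ({x | 1 ≤ ‖Y f θ n x‖}.indicator (fun _ => (1:ℝ)) x - 2 * ‖f n x‖) ∂μ ≤
      ∫ x, U (f n x) (Y f θ n x) ∂μ := by
    apply integral_mono (hi.sub hfi) ((hf.1 n).comp₂ hY U).integrable
    intro x
    refine le_trans (le_of_eq ?_) (U_lower (f n x) (Y f θ n x))
    by_cases hx : 1 ≤ ‖Y f θ n x‖
    · simp [Set.indicator, hx]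
    · simp [Set.indicator, hx]
  rw [integral_sub hi hfi, integral_indicator hmeas, setIntegral_const, smul_eq_mul, mul_one,
    integral_const_mul] at h2
  linarith [h1 n]

/-- weak type (1,1) for dyadic martingale transforms -/
theorem weak_transform {f : ℕ → G → ℂ} (hf : Mart f) {θ : ℕ → ℝ} (hθ : ∀ k, |θ k| ≤ 1) (n : ℕ)
    {t : ℝ} (ht : 0 < t) : t * μ.real {x | t ≤ ‖Y f θ n x‖} ≤ 2 * ∫ x, ‖f n x‖ ∂μ := by
  obtain ⟨c, hc⟩ : ∃ c : ℂ, c = ((1 / t : ℝ) : ℂ) := ⟨_, rfl⟩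
  have hcn : ‖c‖ = 1 / t := by
    rw [hc, Complex.norm_real, Real.norm_eq_abs, abs_of_pos (by positivity)]
  have hg : Mart (fun n x => c * f n x) := by
    refine ⟨fun n => (hf.1 n).comp (fun a => c * a), fun n x => ?_⟩
    simp only
    rw [hf.2 n x]; ring
  have h1 := weak_one hg hθ n
  have h2 : ∀ x, Y (fun n x => c * f n x) θ n x = c * Y f θ n x := by
    intro x
    unfold Y
    rw [Finset.mul_sum]
    refine Finset.sum_congr rfl fun k _ => ?_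
    ring
  have h3 : {x | 1 ≤ ‖Y (fun n x => c * f n x) θ n x‖} = {x | t ≤ ‖Y f θ n x‖} := by
    ext x
    simp only [Set.mem_ofPred_eq]
    rw [h2, norm_mul, hcn, one_div, inv_mul_eq_div, le_div_iff₀ ht, one_mul]
  rw [h3] at h1
  have h4 : ∫ x, ‖c * f n x‖ ∂μ = 1 / t * ∫ x, ‖f n x‖ ∂μ := by
    simp_rw [norm_mul, hcn]
    rw [integral_const_mul]
  rw [h4] at h1
  calc t * μ.real {x | t ≤ ‖Y f θ n x‖} ≤ t * (2 * (1 / t * ∫ x, ‖f n x‖ ∂μ)) := by gcongr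
    _ = 2 * ∫ x, ‖f n x‖ ∂μ := by field_simp

end Pool.Agent.Lib.P332aa0
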