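import Pool.Agent.Lib.P332aa0.Kp

set_option autoImplicit false

open MeasureTheory Filter Topology
open scoped ENNReal NNReal

namespace Pool.Agent.Lib.P332aa0

/-- convolution with a real kernel -/
noncomputable def conv (g : G → ℂ) (k : G → ℝ) (x : G) : ℂ := ∫ t, g t * ((k (x + t) : ℝ) : ℂ) ∂μ

lemma dep_shift {β : Type*} {M : ℕ} {k : G → β} (hk : Dep M k) (x : G) :
    Dep M (fun t => k (x + t)) := by
  intro t s hts
  apply hk
  intro j hj
  rw [Pi.add_apply, Pi.add_apply, hts j hj]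

lemma conv_dep {g : G → ℂ} {k : G → ℝ} {M : ℕ} (hk : Dep M k) : Dep M (conv g k) := by
  intro x y hxy
  unfold conv
  congr 1
  ext t
  congr 2
  apply hk
  intro j hj
  rw [Pi.add_apply, Pi.add_apply, hxy j hj]

lemma conv_integrand {g : G → ℂ} {k : G → ℝ} {M : ℕ} (hg : Dep M g) (hk : Dep M k) (x : G) :
    Integrable (fun t => g t * ((k (x + t) : ℝ) : ℂ)) μ :=
  (hg.comp₂ (dep_shift hk x) (fun a b => a * (b : ℂ))).integrable

/-- concavity inequality for step functions -/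
lemma integral_rpow_le {p : ℝ} (hp : 0 < p) (hp1 : p ≤ 1) {M : ℕ} {h : G → ℝ} (hh : Dep M h)
    (h0 : ∀ x, 0 ≤ h x) : (∫ x, h x ∂μ) ^ p ≤ (2 ^ M : ℝ) ^ (1 - p) * ∫ x, h x ^ p ∂μ := by
  obtain ⟨T, hT⟩ : ∃ T, T = ∫ x, h x ^ p ∂μ := ⟨_, rfl⟩
  have hi : Integrable (fun x => h x ^ p) μ := (hh.comp (fun y => y ^ p)).integrable
  have hT0 : 0 ≤ T := by rw [hT]; exact integral_nonneg fun x => Real.rpow_nonneg (h0 x) p
  have hpt : ∀ x, h x ^ p ≤ 2 ^ M * T := by
    intro x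
    have h1 : ∫ y in I M x, h y ^ p ∂μ = (2 ^ M)⁻¹ * h x ^ p := by
      have : ∫ y in I M x, h y ^ p ∂μ = ∫ y in I M x, h x ^ p ∂μ := by
        apply setIntegral_congr_fun (measurable_I M x)
        intro y hy
        simp only
        rw [hh y x hy]
      rw [this, setIntegral_const, measureReal_I, smul_eq_mul]
    have h2 : ∫ y in I M x, h y ^ p ∂μ ≤ T := by
      rw [hT]
      exact setIntegral_le_integral hi (Filter.Eventually.of_forall fun y => Real.rpow_nonneg (h0 y) p)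
    rw [h1] at h2
    have h3 : (0:ℝ) < 2 ^ M := by positivity
    calc h x ^ p = 2 ^ M * ((2 ^ M)⁻¹ * h x ^ p) := by field_simp
      _ ≤ 2 ^ M * T := by gcongr
  have hle : ∀ x, h x ≤ h x ^ p * ((2 ^ M * T) ^ (1 / p)) ^ (1 - p) := by
    intro x
    have h1 : h x ≤ (2 ^ M * T) ^ (1 / p) := by
      have := Real.rpow_le_rpow (Real.rpow_nonneg (h0 x) p) (hpt x) (by positivity : 0 ≤ 1 / p)
      rwa [← Real.rpow_mul (h0 x), mul_one_div_cancel hp.ne', Real.rpow_one] at this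
    rcases (h0 x).eq_or_lt with h2 | h2
    · rw [← h2]; rw [Real.zero_rpow hp.ne', zero_mul]
    · have h3 : h x = h x ^ p * h x ^ (1 - p) := by
        rw [← Real.rpow_add h2]; simp
      nth_rewrite 1 [h3]
      gcongr
  have hint : ∫ x, h x ∂μ ≤ T * ((2 ^ M * T) ^ (1 / p)) ^ (1 - p) := by
    calc ∫ x, h x ∂μ ≤ ∫ x, h x ^ p * ((2 ^ M * T) ^ (1 / p)) ^ (1 - p) ∂μ :=
          integral_mono hh.integrable (hi.mul_const _) hle
      _ = T * ((2 ^ M * T) ^ (1 / p)) ^ (1 - p) := by rw [integral_mul_const, hT]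
  have h0' : 0 ≤ ∫ x, h x ∂μ := integral_nonneg h0
  refine (Real.rpow_le_rpow h0' hint hp.le).trans (le_of_eq ?_)
  have hMT : 0 ≤ 2 ^ M * T := by positivity
  rw [Real.mul_rpow hT0 (by positivity), ← Real.rpow_mul (by positivity), ← Real.rpow_mul hMT]
  have e1 : 1 / p * ((1 - p) * p) = 1 - p := by field_simp
  rw [e1, Real.mul_rpow (by positivity) hT0, ← hT]
  rcases hT0.eq_or_lt with h2 | h2
  · rw [← h2, Real.zero_rpow hp.ne']; ring
  · have : T = T ^ p * T ^ (1 - p) := by rw [← Real.rpow_add h2]; simp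
    nth_rewrite 3 [this]
    ring

/-- `L_p` bound for convolutions of step functions -/
theorem conv_rpow_le {p : ℝ} (hp : 0 < p) (hp1 : p ≤ 1) {M : ℕ} {g : G → ℂ} {k : G → ℝ}
    (hg : Dep M g) (hk : Dep M k) :
    ∫ x, ‖conv g k x‖ ^ p ∂μ ≤
      (2 ^ M : ℝ) ^ (1 - p) * ((∫ x, ‖g x‖ ^ p ∂μ) * ∫ x, |k x| ^ p ∂μ) := by
  have hpt : ∀ x, ‖conv g k x‖ ^ p ≤
      (2 ^ M : ℝ) ^ (1 - p) * ∫ t, ‖g t‖ ^ p * |k (x + t)| ^ p ∂μ := by
    intro x
    have h1 : ‖conv g k x‖ ≤ ∫ t, ‖g t‖ * |k (x + t)| ∂μ := by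
      unfold conv
      refine (norm_integral_le_integral_norm _).trans (le_of_eq ?_)
      congr 1
      ext t
      rw [norm_mul, Complex.norm_real, Real.norm_eq_abs]
    refine (Real.rpow_le_rpow (norm_nonneg _) h1 hp.le).trans ?_
    have h2 := integral_rpow_le hp hp1 (h := fun t => ‖g t‖ * |k (x + t)|)
      (hg.comp₂ (dep_shift hk x) (fun a b => ‖a‖ * |b|)) (fun t => by positivity)
    refine h2.trans (le_of_eq ?_)
    congr 2
    ext t
    rw [Real.mul_rpow (norm_nonneg _) (abs_nonneg _)]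
  have hcont : Continuous (fun z : G × G => ‖g z.2‖ ^ p * |k (z.1 + z.2)| ^ p) := by
    have h1 : Continuous (fun t : G => ‖g t‖ ^ p) := (hg.comp (fun a => ‖a‖ ^ p)).continuous
    have h2 : Continuous (fun t : G => |k t| ^ p) := (hk.comp (fun a => |a| ^ p)).continuous
    exact (h1.comp continuous_snd).mul (h2.comp (continuous_fst.add continuous_snd))
  have hprod : Integrable (fun z : G × G => ‖g z.2‖ ^ p * |k (z.1 + z.2)| ^ p) (μ.prod μ) :=
    hcont.integrable_of_hasCompactSupport (HasCompactSupport.of_compactSpace _)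
  have hF : Integrable (fun x => ∫ t, ‖g t‖ ^ p * |k (x + t)| ^ p ∂μ) μ := hprod.integral_prod_left
  calc ∫ x, ‖conv g k x‖ ^ p ∂μ
      ≤ ∫ x, (2 ^ M : ℝ) ^ (1 - p) * ∫ t, ‖g t‖ ^ p * |k (x + t)| ^ p ∂μ ∂μ := by
        apply integral_mono _ (hF.const_mul _) hpt
        exact ((conv_dep (g := g) hk).comp (fun a => ‖a‖ ^ p)).integrable
    _ = (2 ^ M : ℝ) ^ (1 - p) * ∫ x, ∫ t, ‖g t‖ ^ p * |k (x + t)| ^ p ∂μ ∂μ :=
        integral_const_mul _ _
    _ = (2 ^ M : ℝ) ^ (1 - p) * ((∫ x, ‖g x‖ ^ p ∂μ) * ∫ x, |k x| ^ p ∂μ) := by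
        congr 1
        rw [integral_integral_swap hprod]
        have h3 : ∀ t, ∫ x, ‖g t‖ ^ p * |k (x + t)| ^ p ∂μ = ‖g t‖ ^ p * ∫ x, |k x| ^ p ∂μ := by
          intro t
          rw [integral_const_mul]
          congr 1
          exact integral_shift (fun x => |k x| ^ p) t
        simp_rw [h3]
        rw [integral_mul_const]

/-- dyadic martingale, pointwise form -/
def Mart (f : ℕ → G → ℂ) : Prop :=
  (∀ n, Dep n (f n)) ∧ ∀ n x, f n x = (f (n + 1) x + f (n + 1) (x + e n)) / 2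

lemma mem_of_measurableSet_Fil {n : ℕ} {s : Set G} (hs : MeasurableSet[Fil n] s) :
    ∀ x y : G, (∀ j < n, x j = y j) → (x ∈ s ↔ y ∈ s) := by
  change MeasurableSpace.GenerateMeasurable (Set.range (I n)) s at hs
  induction hs with
  | basic u hu =>
    obtain ⟨z, rfl⟩ := hu
    intro x y hxy
    constructor
    · intro h j hj; rw [← hxy j hj]; exact h j hj
    · intro h j hj; rw [hxy j hj]; exact h j hj
  | empty => intro x y _; rfl
  | compl u _ ih => intro x y hxy; exact not_congr (ih x y hxy)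
  | iUnion u _ ih =>
    intro x y hxy
    simp only [Set.mem_iUnion]
    exact exists_congr fun i => ih i x y hxy

lemma dep_of_stronglyMeasurable {n : ℕ} {g : G → ℂ} (hg : StronglyMeasurable[Fil n] g) :
    Dep n g := by
  intro x y hxy
  have h1 : MeasurableSet[Fil n] (g ⁻¹' {g x}) := hg.measurable (measurableSet_singleton _)
  have h2 := (mem_of_measurableSet_Fil h1 x y hxy).1 rfl
  exact h2.symm

lemma setIntegral_I {n : ℕ} {g : G → ℂ} (hg : Dep n g) (x : G) :
    ∫ y in I n x, g y ∂μ = (2 ^ n)⁻¹ * g x := by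
  have : ∫ y in I n x, g y ∂μ = ∫ y in I n x, g x ∂μ := by
    apply setIntegral_congr_fun (measurable_I n x)
    intro y hy
    exact hg y x hy
  rw [this, setIntegral_const, measureReal_I, Complex.real_smul]
  push_cast; rfl

lemma I_succ_disj (n : ℕ) (x : G) : Disjoint (I (n + 1) x) (I (n + 1) (x + e n)) := by
  rw [Set.disjoint_left]
  intro y hy1 hy2
  have a1 : y n = x n := hy1 n (by omega)
  have a2 : y n = (x + e n) n := hy2 n (by omega)
  rw [a1, Pi.add_apply, e_self] at a2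
  have : ∀ a : ZMod 2, a ≠ a + 1 := by decide
  exact this _ a2

theorem mart_of_martingale {f : ℕ → G → ℂ} (hf : Martingale f Fil μ) : Mart f := by
  have hdep : ∀ n, Dep n (f n) := fun n => dep_of_stronglyMeasurable (hf.stronglyMeasurable n)
  refine ⟨hdep, fun n x => ?_⟩
  have hs : MeasurableSet[Fil n] (I n x) :=
    MeasurableSpace.measurableSet_generateFrom (Set.mem_range_self _)
  have h1 := hf.setIntegral_eq (Nat.le_succ n) hs
  rw [setIntegral_I (hdep n) x] at h1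
  have h2 : ∫ y in I n x, f (n + 1) y ∂μ = (2 ^ (n + 1))⁻¹ * f (n + 1) x +
      (2 ^ (n + 1))⁻¹ * f (n + 1) (x + e n) := by
    have hI : I n x = I (n + 1) x ∪ I (n + 1) (x + e n) := I_succ n x
    rw [hI, setIntegral_union (I_succ_disj n x) (measurable_I _ _)
      (hdep (n + 1)).integrable.integrableOn (hdep (n + 1)).integrable.integrableOn]
    rw [setIntegral_I (hdep (n + 1)) x]
    congr 1
    exact setIntegral_I (hdep (n + 1)) (x + e n)
  rw [show n.succ = n + 1 from rfl, h2] at h1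
  have h3 : ((2:ℂ) ^ n) ≠ 0 := pow_ne_zero _ two_ne_zero
  have h4 : ((2:ℂ) ^ (n + 1))⁻¹ = (2 ^ n)⁻¹ / 2 := by rw [pow_succ, mul_inv]; rfl
  rw [h4] at h1
  have h5 : (2 ^ n : ℂ)⁻¹ * f n x = (2 ^ n : ℂ)⁻¹ * ((f (n + 1) x + f (n + 1) (x + e n)) / 2) := by
    rw [h1]; ring
  exact mul_left_cancel₀ (inv_ne_zero h3) h5

lemma testBit_of_lt_flip {i n : ℕ} (h : i < 2 ^ n) (x : G) : w i (x + e n) = w i x := by
  rw [w_add, w_e, Nat.testBit_lt_two_pow h]; simp

lemma Mart.coef_step {f : ℕ → G → ℂ} (hf : Mart f) {i n : ℕ} (h : i < 2 ^ n) :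
    ∫ x, f (n + 1) x * (w i x : ℂ) ∂μ = ∫ x, f n x * (w i x : ℂ) ∂μ := by
  have hw : Dep (n + 1) (w i) := (w_dep h).mono (by omega)
  have hi : Integrable (fun x => f (n + 1) x * (w i x : ℂ)) μ :=
    ((hf.1 (n + 1)).comp₂ hw (fun a b => a * (b : ℂ))).integrable
  have h1 : ∀ x, f n x * (w i x : ℂ) = 2⁻¹ * (f (n + 1) x * (w i x : ℂ)) +
      2⁻¹ * (f (n + 1) (x + e n) * (w i (x + e n) : ℂ)) := by
    intro x
    rw [hf.2 n x, testBit_of_lt_flip h]; ring
  have hi2 : Integrable (fun x => f (n + 1) (x + e n) * (w i (x + e n) : ℂ)) μ := hi.comp_add_right _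
  simp_rw [h1]
  rw [integral_add (hi.const_mul _) (hi2.const_mul _), integral_const_mul, integral_const_mul,
    integral_shift (fun x => f (n + 1) x * (w i x : ℂ)) (e n)]
  ring

lemma Mart.coef_const {f : ℕ → G → ℂ} (hf : Mart f) {i M N : ℕ} (h : i < 2 ^ M) (hMN : M ≤ N) :
    ∫ x, f N x * (w i x : ℂ) ∂μ = ∫ x, f M x * (w i x : ℂ) ∂μ := by
  induction N, hMN using Nat.le_induction with
  | base => rfl
  | succ N hMN ih =>
    rw [hf.coef_step (lt_of_lt_of_le h (Nat.pow_le_pow_right (by norm_num) hMN)), ih]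

lemma Mart.coef_eq {f : ℕ → G → ℂ} (hf : Mart f) {i M : ℕ} (h : i < 2 ^ M) :
    coef f i = ∫ x, f M x * (w i x : ℂ) ∂μ := by
  unfold coef
  apply Tendsto.limUnder_eq
  apply tendsto_const_nhds.congr'
  filter_upwards [eventually_ge_atTop M] with N hN
  exact (hf.coef_const h hN).symm

lemma conv_D {g : G → ℂ} {M : ℕ} (hg : Dep M g) {n : ℕ} (x : G) :
    conv g (D n) x = ∑ i ∈ Finset.range n, (∫ t, g t * (w i t : ℂ) ∂μ) * (w i x : ℂ) := by
  unfold conv D
  have h1 : ∀ t, g t * ((∑ i ∈ Finset.range n, w i (x + t) : ℝ) : ℂ) =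
      ∑ i ∈ Finset.range n, g t * (w i t : ℂ) * (w i x : ℂ) := by
    intro t
    push_cast
    rw [Finset.mul_sum]
    refine Finset.sum_congr rfl fun i _ => ?_
    rw [w_add]; push_cast; ring
  simp_rw [h1]
  rw [integral_finsetSum]
  · refine Finset.sum_congr rfl fun i _ => ?_
    rw [integral_mul_const]
  · intro i _
    apply Integrable.mul_const
    have h2 : Dep (M + i) g := hg.mono (by omega)
    have h3 : Dep (M + i) (w i) := w_dep (lt_of_lt_of_le Nat.lt_two_pow_self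
      (Nat.pow_le_pow_right (by norm_num) (by omega)))
    exact (h2.comp₂ h3 (fun a b => a * (b : ℂ))).integrable

lemma Mart.S_eq {f : ℕ → G → ℂ} (hf : Mart f) {n M : ℕ} (h : n ≤ 2 ^ M) (x : G) :
    S n f x = conv (f M) (D n) x := by
  rw [conv_D (hf.1 M)]
  unfold S
  refine Finset.sum_congr rfl fun i hi => ?_
  rw [hf.coef_eq (lt_of_lt_of_le (Finset.mem_range.1 hi) h)]

lemma conv_K {g : G → ℂ} {M : ℕ} (hg : Dep M g) {n : ℕ} (x : G) :
    conv g (K n) x = ∑ j ∈ Finset.range n, conv g (D j) x / ((n : ℂ) - j) := by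
  unfold conv K
  have h1 : ∀ t, g t * ((∑ j ∈ Finset.range n, D j (x + t) / ((n : ℝ) - j) : ℝ) : ℂ) =
      ∑ j ∈ Finset.range n, g t * (D j (x + t) : ℂ) / ((n : ℂ) - j) := by
    intro t
    push_cast
    rw [Finset.mul_sum]
    refine Finset.sum_congr rfl fun i _ => ?_
    ring
  simp_rw [h1]
  rw [integral_finsetSum]
  · refine Finset.sum_congr rfl fun i _ => ?_
    rw [integral_div]
  · intro j _
    apply Integrable.div_const
    have h2 : Dep (M + j) g := hg.mono (by omega)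
    have h3 : Dep (M + j) (D j) := D_dep (Nat.lt_two_pow_self.le.trans
      (Nat.pow_le_pow_right (by norm_num) (by omega)))
    exact conv_integrand h2 h3 x

lemma Mart.L_eq {f : ℕ → G → ℂ} (hf : Mart f) {n M : ℕ} (h : n ≤ 2 ^ M) (x : G) :
    L n f x = 1 / (l n : ℂ) * conv (f M) (K n) x := by
  unfold L
  rw [conv_K (hf.1 M)]
  congr 1
  refine Finset.sum_congr rfl fun j hj => ?_
  rw [hf.S_eq ((Finset.mem_range.1 hj).le.trans h)]

end Pool.Agent.Lib.P332aa0
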