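import Mathlib

set_option autoImplicit false

open MeasureTheory Filter Topology
open scoped ENNReal NNReal

namespace Pool.Agent.Lib.P332aa0

/-- The Walsh group `G = ∏_{k ≥ 0} ℤ/2`. -/
abbrev G := ℕ → ZMod 2

/-- The (product) Haar probability measure on `G`. -/
noncomputable def μ : Measure G := Measure.addHaarMeasure ⊤

/-- `I_n(x) = {y : y_j = x_j, j < n}`. -/
def I (n : ℕ) (x : G) : Set G := {y | ∀ j < n, y j = x j}

/-- The Walsh function `w_n(x) = ∏_k (-1)^{n_k x_k}`, `n_k` the binary digits of `n`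
(digits `n_k` with `k ≥ n` are zero). -/
noncomputable def w (n : ℕ) (x : G) : ℝ :=
  ∏ k ∈ Finset.range n, if n.testBit k = true ∧ x k = 1 then -1 else 1

lemma isOpen_I (n : ℕ) (x : G) : IsOpen (I n x) := by
  have : I n x = ⋂ j ∈ Finset.range n, (fun y : G => y j) ⁻¹' {x j} := by
    ext y
    simp [I]
  rw [this]
  exact isOpen_biInter_finset fun j _ => (isOpen_discrete _).preimage (continuous_apply j)

lemma I_succ (n : ℕ) (x : G) : I n x = I (n + 1) x ∪ I (n + 1) (x + Pi.single n 1) := by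
  have hz : ∀ a b : ZMod 2, a = b ∨ a = b + 1 := by decide
  ext y
  constructor
  · intro hy
    rcases hz (y n) (x n) with h | h
    · left
      intro j hj
      rcases Nat.lt_succ_iff_lt_or_eq.1 hj with h1 | h1
      · exact hy j h1
      · rw [h1, h]
    · right
      intro j hj
      rcases Nat.lt_succ_iff_lt_or_eq.1 hj with h1 | h1
      · rw [hy j h1, Pi.add_apply, Pi.single_eq_of_ne h1.ne, add_zero]
      · rw [h1, h, Pi.add_apply, Pi.single_eq_same]
  · rintro (hy | hy) j hj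
    · exact hy j (by omega)
    · rw [hy j (by omega), Pi.add_apply, Pi.single_eq_of_ne (by omega), add_zero]

/-- The filtration `(F_n)`, `F_n` being generated by the sets `I_n(x)`. -/
def Fil : Filtration ℕ (inferInstance : MeasurableSpace G) where
  seq n := MeasurableSpace.generateFrom (Set.range (I n))
  mono' := by
    apply monotone_nat_of_le_succ
    intro n
    apply MeasurableSpace.generateFrom_le
    rintro _ ⟨x, rfl⟩
    rw [I_succ]
    exact (MeasurableSpace.measurableSet_generateFrom (Set.mem_range_self _)).union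
      (MeasurableSpace.measurableSet_generateFrom (Set.mem_range_self _))
  le' := by
    intro n
    apply MeasurableSpace.generateFrom_le
    rintro _ ⟨x, rfl⟩
    exact (isOpen_I n x).measurableSet

/-- Fourier coefficient `lim_k ∫ f^{(k)} w_i` of a martingale. -/
noncomputable def coef (f : ℕ → G → ℂ) (i : ℕ) : ℂ :=
  limUnder atTop fun k => ∫ x, f k x * (w i x : ℂ) ∂μ

/-- Partial sums `S_n f = ∑_{i<n} f^(i) w_i`. -/
noncomputable def S (n : ℕ) (f : ℕ → G → ℂ) (x : G) : ℂ :=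
  ∑ i ∈ Finset.range n, coef f i * (w i x : ℂ)

/-- `l_n = ∑_{k=1}^n 1/k`. -/
noncomputable def l (n : ℕ) : ℝ := ∑ k ∈ Finset.Icc 1 n, 1 / (k : ℝ)

/-- Nörlund logarithmic means. -/
noncomputable def L (n : ℕ) (f : ℕ → G → ℂ) (x : G) : ℂ :=
  1 / (l n : ℂ) * ∑ k ∈ Finset.range n, S k f x / ((n : ℂ) - k)

/-- `‖f‖_{H_p} = ‖sup_n |f^{(n)}|‖_p`, valued in `[0, ∞]`. -/
noncomputable def HpNorm (p : ℝ) (f : ℕ → G → ℂ) : ℝ≥0∞ :=
  (∫⁻ x, (⨆ n, ‖f n x‖ₑ) ^ p ∂μ) ^ (1 / p)

/-- `f - S_{2^n} f`, the martingale `(f^{(k)} - f^{(min(k,n))})_k`. -/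
noncomputable def tail (f : ℕ → G → ℂ) (n : ℕ) : ℕ → G → ℂ := fun k x => f k x - f (min k n) x

/-- The modulus of continuity `ω_{H_p}(1/2^n, f)`. -/
noncomputable def omega (p : ℝ) (n : ℕ) (f : ℕ → G → ℂ) : ℝ≥0∞ := HpNorm p (tail f n)

/-- The weak-`L_p` quasi-norm, `‖g‖^p = sup_{λ>0} λ^p μ(|g| > λ)`. -/
noncomputable def weakNorm (p : ℝ) (g : G → ℂ) : ℝ≥0∞ :=
  (⨆ t : ℝ≥0, (t : ℝ≥0∞) ^ p * μ {x | (t : ℝ≥0∞) < ‖g x‖ₑ}) ^ (1 / p)

end Pool.Agent.Lib.P332aa0
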