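import Pool.Agent.Lib.P332aa0.Hyp

set_option autoImplicit false

open MeasureTheory Filter Topology
open scoped ENNReal NNReal

namespace Pool.Agent.Lib.P332aa0

/-- extension by zero of a finite string -/
def ext0 (n : ℕ) (b : Fin n → ZMod 2) : G := fun j => if h : j < n then b ⟨j, h⟩ else 0

lemma stronglyMeasurable_of_dep {n : ℕ} {g : G → ℂ} (hg : Dep n g) : StronglyMeasurable[Fil n] g := by
  have h : Measurable[Fil n] g := by
    intro t _
    have h1 : g ⁻¹' t = ⋃ b ∈ {b : Fin n → ZMod 2 | g (ext0 n b) ∈ t}, I n (ext0 n b) := by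
      ext x
      simp only [Set.mem_preimage, Set.mem_iUnion, Set.mem_ofPred_eq, exists_prop]
      constructor
      · intro hx
        refine ⟨fun j => x j, ?_, ?_⟩
        · rw [← hg x _ fun j hj => ?_]
          · exact hx
          · simp [ext0, hj]
        · intro j hj
          simp [ext0, hj]
      · rintro ⟨b, hb, hx⟩
        rw [hg x (ext0 n b) hx]
        exact hb
    rw [h1]
    apply MeasurableSet.biUnion (Set.to_countable _)
    intro b _
    exact MeasurableSpace.measurableSet_generateFrom (Set.mem_range_self _)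
  exact h.stronglyMeasurable

lemma martingale_of_mart {f : ℕ → G → ℂ} (hf : Mart f) : Martingale f Fil μ := by
  apply martingale_of_setIntegral_eq_succ
  · exact fun n => stronglyMeasurable_of_dep (hf.1 n)
  · exact fun n => (hf.1 n).integrable
  · intro i s hs
    have hs' : MeasurableSet s := Fil.le i s hs
    have hinv : ∀ x, x + e i ∈ s ↔ x ∈ s := by
      intro x
      apply mem_of_measurableSet_Fil hs
      intro j hj
      rw [Pi.add_apply, e_ne (by omega), add_zero]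
    have hi : Integrable (f (i + 1)) μ := (hf.1 (i + 1)).integrable
    have h1 : ∫ x in s, f (i + 1) (x + e i) ∂μ = ∫ x in s, f (i + 1) x ∂μ := by
      rw [← integral_indicator hs', ← integral_indicator hs',
        ← integral_shift (s.indicator (f (i + 1))) (e i)]
      congr 1
      ext x
      by_cases hx : x ∈ s
      · rw [Set.indicator_of_mem hx, Set.indicator_of_mem ((hinv x).2 hx)]
      · rw [Set.indicator_of_notMem hx, Set.indicator_of_notMem (fun h => hx ((hinv x).1 h))]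
    have hi' : Integrable (fun x => f (i + 1) (x + e i)) μ := by
      have : Dep (i + 1) (fun x => f (i + 1) (x + e i)) := by
        intro x y hxy
        apply hf.1 (i + 1)
        intro j hj
        rw [Pi.add_apply, Pi.add_apply, hxy j hj]
      exact this.integrable
    have h2 : ∀ x, f i x = (f (i + 1) x + f (i + 1) (x + e i)) / 2 := hf.2 i
    simp_rw [h2]
    rw [integral_div, integral_add hi.integrableOn hi'.integrableOn, h1]
    ring

open Classical in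
/-- coefficients of the lacunary example -/
noncomputable def cc (n : ℕ) : ℝ := if ∃ k, n = 4 ^ k then (n : ℝ) else 0

lemma cc_nonneg (n : ℕ) : 0 ≤ cc n := by unfold cc; split_ifs <;> positivity

lemma cc_le (n : ℕ) : cc n ≤ n := by unfold cc; split_ifs <;> simp

lemma cc_pow (k : ℕ) : cc (4 ^ k) = 4 ^ k := by
  unfold cc; rw [if_pos ⟨k, rfl⟩]; push_cast; rfl

lemma cc_gap {k n : ℕ} (h1 : 4 ^ k < n) (h2 : n < 4 ^ (k + 1)) : cc n = 0 := by
  unfold cc
  rw [if_neg]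
  rintro ⟨j, rfl⟩
  have a := (Nat.pow_lt_pow_iff_right (by norm_num : 1 < 4)).1 h1
  have b := (Nat.pow_lt_pow_iff_right (by norm_num : 1 < 4)).1 h2
  omega

/-- the example, real-valued -/
noncomputable def ex (N : ℕ) (x : G) : ℝ :=
  ∑ n ∈ Finset.range N, cc n * (D (2 ^ (n + 1)) x - D (2 ^ n) x)

/-- the example, complex-valued -/
noncomputable def exC (N : ℕ) (x : G) : ℂ := (ex N x : ℂ)

lemma ex_succ (N : ℕ) (x : G) :
    ex (N + 1) x = ex N x + cc N * (D (2 ^ (N + 1)) x - D (2 ^ N) x) := by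
  unfold ex; rw [Finset.sum_range_succ]

lemma ex_zero (x : G) : ex 0 x = 0 := by simp [ex]

lemma ex_dep (N : ℕ) : Dep N (ex N) := by
  intro x y hxy
  unfold ex
  refine Finset.sum_congr rfl fun n hn => ?_
  have hn' := Finset.mem_range.1 hn
  rw [D_dep (Nat.pow_le_pow_right (by norm_num) (by omega : n + 1 ≤ N)) x y hxy,
    D_dep (Nat.pow_le_pow_right (by norm_num) (by omega : n ≤ N)) x y hxy]

lemma diff_D (n : ℕ) (x : G) : D (2 ^ (n + 1)) x - D (2 ^ n) x = D (2 ^ n) x * w (2 ^ n) x := by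
  rw [D_two_pow_succ]; ring

lemma mart_exC : Mart exC := by
  refine ⟨fun n => (ex_dep n).comp (fun a => (a : ℂ)), fun n x => ?_⟩
  unfold exC
  rw [ex_succ, ex_succ, diff_D, diff_D, dep_flip (ex_dep n) x, dep_flip (D_dep (le_refl (2 ^ n))) x,
    w_add, w_e, Nat.testBit_two_pow_self, if_pos rfl]
  push_cast
  ring

lemma D_two_pow_nonneg (n : ℕ) (x : G) : 0 ≤ D (2 ^ n) x := by
  rw [D_two_pow_apply]
  exact Set.indicator_nonneg (fun _ _ => by positivity) x

lemma abs_diff_D (n : ℕ) (x : G) : |D (2 ^ (n + 1)) x - D (2 ^ n) x| = D (2 ^ n) x := by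
  rw [diff_D, abs_mul, w_abs, mul_one, abs_of_nonneg (D_two_pow_nonneg n x)]

/-- outside `I_M(0)` the example stops at time `M` -/
lemma ex_const {M N : ℕ} (h : M ≤ N) {x : G} (hx : x ∉ I M 0) : ex N x = ex M x := by
  induction N, h using Nat.le_induction with
  | base => rfl
  | succ N hN ih =>
    rw [ex_succ, ih, diff_D, D_two_pow_of_not_mem, zero_mul, mul_zero, add_zero]
    intro h1
    exact hx fun j hj => h1 j (by omega)

lemma ex_gap {k n : ℕ} (h1 : 4 ^ k + 1 ≤ n) (h2 : n ≤ 4 ^ (k + 1)) (x : G) :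
    ex n x = ex (4 ^ k + 1) x := by
  induction n, h1 using Nat.le_induction with
  | base => rfl
  | succ n hn ih =>
    rw [ex_succ, ih (by omega), cc_gap (k := k) (by omega) (by omega), zero_mul, add_zero]

lemma limit_eq {F : G → ℂ} (hF : ∀ᵐ x ∂μ, Tendsto (fun n => exC n x) atTop (𝓝 (F x))) :
    ∀ᵐ x ∂μ, ∀ M, x ∉ I M 0 → F x = exC M x := by
  filter_upwards [hF] with x hx M hM
  refine tendsto_nhds_unique hx ?_
  apply tendsto_const_nhds.congr'
  filter_upwards [eventually_ge_atTop M] with n hn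
  unfold exC
  rw [ex_const hn hM]

lemma lintegral_D_rpow {p : ℝ} (hp : 0 < p) (n : ℕ) :
    ∫⁻ x, ENNReal.ofReal (D (2 ^ n) x) ^ p ∂μ = ENNReal.ofReal (((2:ℝ) ^ (p - 1)) ^ n) := by
  have h1 : ∀ x, ENNReal.ofReal (D (2 ^ n) x) ^ p =
      (I n 0).indicator (fun _ => ENNReal.ofReal (((2:ℝ) ^ n) ^ p)) x := by
    intro x
    rw [D_two_pow_apply]
    by_cases h : x ∈ I n 0
    · rw [Set.indicator_of_mem h, Set.indicator_of_mem h,
        ENNReal.ofReal_rpow_of_nonneg (by positivity) hp.le]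
    · rw [Set.indicator_of_notMem h, Set.indicator_of_notMem h, ENNReal.ofReal_zero,
        ENNReal.zero_rpow_of_pos hp]
  simp_rw [h1]
  rw [lintegral_indicator (measurable_I n 0), lintegral_const, Measure.restrict_apply_univ,
    measure_I, ← two_pow_rpow, Real.rpow_sub_one (by positivity), div_eq_mul_inv,
    ENNReal.ofReal_mul (by positivity), ENNReal.ofReal_inv_of_pos (by positivity)]
  congr 2
  rw [ENNReal.ofReal_pow (by norm_num)]
  norm_num

lemma enorm_tail_le {p : ℝ} (hp : 0 < p) (hp1 : p < 1) (n k : ℕ) (x : G) :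
    ‖tail exC n k x‖ₑ ^ p ≤ ∑' i, ENNReal.ofReal (cc (n + i) * D (2 ^ (n + i)) x) ^ p := by
  rcases le_total k n with h | h
  · unfold tail
    rw [min_eq_left h, sub_self, enorm_zero, ENNReal.zero_rpow_of_pos hp]
    exact zero_le
  · obtain ⟨d, rfl⟩ := Nat.exists_eq_add_of_le h
    have key : ∀ d, ‖exC (n + d) x - exC n x‖ₑ ^ p ≤
        ∑ i ∈ Finset.range d, ENNReal.ofReal (cc (n + i) * D (2 ^ (n + i)) x) ^ p := by
      intro d
      induction d with
      | zero => simp [ENNReal.zero_rpow_of_pos hp]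
      | succ d ih =>
        rw [Finset.sum_range_succ]
        have h1 : exC (n + (d + 1)) x - exC n x = (exC (n + d) x - exC n x) +
            ((cc (n + d) * (D (2 ^ (n + d + 1)) x - D (2 ^ (n + d)) x) : ℝ) : ℂ) := by
          unfold exC
          rw [← add_assoc, ex_succ]
          push_cast
          ring
        have h2 : ‖((cc (n + d) * (D (2 ^ (n + d + 1)) x - D (2 ^ (n + d)) x) : ℝ) : ℂ)‖ₑ =
            ENNReal.ofReal (cc (n + d) * D (2 ^ (n + d)) x) := by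
          rw [← ofReal_norm, Complex.norm_real, Real.norm_eq_abs, abs_mul, abs_diff_D,
            abs_of_nonneg (cc_nonneg _)]
        rw [h1]
        refine (ENNReal.rpow_le_rpow (enorm_add_le _ _) hp.le).trans ?_
        refine (ENNReal.rpow_add_le_add_rpow _ _ hp.le hp1.le).trans ?_
        rw [h2]
        gcongr
    unfold tail
    rw [min_eq_right h]
    exact (key d).trans (ENNReal.sum_le_tsum _)

lemma W_exC_le {p : ℝ} (hp : 0 < p) (hp1 : p < 1) (n : ℕ) (x : G) :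
    W exC n x ^ p ≤ ∑' i, ENNReal.ofReal (cc (n + i) * D (2 ^ (n + i)) x) ^ p := by
  have h1 : W exC n x ≤ (∑' i, ENNReal.ofReal (cc (n + i) * D (2 ^ (n + i)) x) ^ p) ^ (1 / p) := by
    unfold W
    apply iSup_le
    intro k
    have := ENNReal.rpow_le_rpow (enorm_tail_le hp hp1 n k x) (by positivity : 0 ≤ 1 / p)
    rwa [← ENNReal.rpow_mul, mul_one_div_cancel hp.ne', ENNReal.rpow_one] at this
  have h2 := ENNReal.rpow_le_rpow h1 hp.le
  rwa [← ENNReal.rpow_mul, one_div_mul_cancel hp.ne', ENNReal.rpow_one] at h2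

lemma omega_exC {p : ℝ} (hp : 0 < p) (hp1 : p < 1) (n : ℕ) :
    omega p n exC ^ p ≤ ENNReal.ofReal (((n : ℝ) + 1) ^ p * ((2:ℝ) ^ (p - 1)) ^ n *
      ∑' m, maj p m) := by
  rw [← lintegral_W hp]
  refine (lintegral_mono fun x => W_exC_le hp hp1 n x).trans ?_
  have hm : ∀ i, Measurable fun x : G => ENNReal.ofReal (cc (n + i) * D (2 ^ (n + i)) x) ^ p := by
    intro i
    exact ((D_dep (le_refl (2 ^ (n + i)))).comp
      (fun a => ENNReal.ofReal (cc (n + i) * a) ^ p)).continuous.measurable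
  rw [lintegral_tsum fun i => (hm i).aemeasurable]
  have h1 : ∀ i, ∫⁻ x, ENNReal.ofReal (cc (n + i) * D (2 ^ (n + i)) x) ^ p ∂μ ≤
      ENNReal.ofReal (((n : ℝ) + 1) ^ p * ((2:ℝ) ^ (p - 1)) ^ n) * ENNReal.ofReal (maj p i) := by
    intro i
    have h2 : ∀ x, ENNReal.ofReal (cc (n + i) * D (2 ^ (n + i)) x) ^ p =
        ENNReal.ofReal (cc (n + i)) ^ p * ENNReal.ofReal (D (2 ^ (n + i)) x) ^ p := by
      intro x
      rw [ENNReal.ofReal_mul (cc_nonneg _), ENNReal.mul_rpow_of_nonneg _ _ hp.le]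
    simp_rw [h2]
    rw [lintegral_const_mul _ ((D_dep (le_refl (2 ^ (n + i)))).comp
      (fun a => ENNReal.ofReal a ^ p)).continuous.measurable, lintegral_D_rpow hp,
      ENNReal.ofReal_rpow_of_nonneg (cc_nonneg _) hp.le,
      ← ENNReal.ofReal_mul (Real.rpow_nonneg (cc_nonneg _) p),
      ← ENNReal.ofReal_mul (by positivity)]
    apply ENNReal.ofReal_le_ofReal
    have h3 : cc (n + i) ^ p ≤ ((n : ℝ) + 1) ^ p * ((i : ℝ) + 8) := by
      calc cc (n + i) ^ p ≤ (((n : ℝ) + 1) * (i + 1)) ^ p := by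
            apply Real.rpow_le_rpow (cc_nonneg _) _ hp.le
            refine (cc_le _).trans ?_
            push_cast
            have : (0:ℝ) ≤ (n : ℝ) * i := by positivity
            nlinarith
        _ = ((n : ℝ) + 1) ^ p * ((i : ℝ) + 1) ^ p := Real.mul_rpow (by positivity) (by positivity)
        _ ≤ ((n : ℝ) + 1) ^ p * ((i : ℝ) + 8) := by
            gcongr
            have h4 : (1:ℝ) ≤ (i : ℝ) + 1 := by
              have : (0:ℝ) ≤ i := Nat.cast_nonneg i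
              linarith
            refine (rpow_le_self_of_one_le hp1.le h4).trans ?_
            linarith
    unfold maj
    rw [pow_add]
    calc cc (n + i) ^ p * (((2:ℝ) ^ (p - 1)) ^ n * ((2:ℝ) ^ (p - 1)) ^ i)
        ≤ (((n : ℝ) + 1) ^ p * ((i : ℝ) + 8)) * (((2:ℝ) ^ (p - 1)) ^ n * ((2:ℝ) ^ (p - 1)) ^ i) := by
          gcongr
      _ = _ := by ring
  refine (ENNReal.tsum_le_tsum h1).trans ?_
  rw [ENNReal.tsum_mul_left, ← ENNReal.ofReal_tsum_of_nonneg (maj_nonneg p) (summable_maj hp1),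
    ← ENNReal.ofReal_mul (by positivity)]

lemma omega_exC_bigO {p : ℝ} (hp : 0 < p) (hp1 : p < 1) :
    ∃ C : ℝ, ∀ n : ℕ, 1 ≤ n → omega p n exC ≤ ENNReal.ofReal (C * n / 2 ^ ((n : ℝ) * (1 / p - 1))) := by
  have hT : 0 ≤ ∑' m, maj p m := tsum_nonneg (maj_nonneg p)
  refine ⟨2 * (∑' m, maj p m) ^ (1 / p), fun n hn => ?_⟩
  rw [← ENNReal.rpow_le_rpow_iff hp]
  refine (omega_exC hp hp1 n).trans ?_
  rw [ENNReal.ofReal_rpow_of_nonneg (by positivity) hp.le, pow_identity hp (by positivity),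
    two_pow_rpow]
  apply ENNReal.ofReal_le_ofReal
  rw [Real.mul_rpow (by norm_num) (by positivity), ← Real.rpow_mul hT, one_div_mul_cancel hp.ne',
    Real.rpow_one]
  have h1 : ((n : ℝ) + 1) ^ p ≤ 2 ^ p * (n : ℝ) ^ p := by
    rw [← Real.mul_rpow (by norm_num) (Nat.cast_nonneg n)]
    apply Real.rpow_le_rpow (by positivity) _ hp.le
    have : (1:ℝ) ≤ n := by exact_mod_cast hn
    linarith
  calc ((n : ℝ) + 1) ^ p * ((2:ℝ) ^ (p - 1)) ^ n * ∑' m, maj p m
      ≤ (2 ^ p * (n : ℝ) ^ p) * ((2:ℝ) ^ (p - 1)) ^ n * ∑' m, maj p m := by gcongr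
    _ = _ := by ring

lemma HpNorm_exC {p : ℝ} (hp : 0 < p) (hp1 : p < 1) : HpNorm p exC < ⊤ := by
  have h1 : HpNorm p exC = omega p 0 exC := by
    unfold omega
    congr 1
    ext k x
    unfold tail exC
    simp [ex_zero]
  rw [h1]
  have h2 := (omega_exC hp hp1 0).trans_lt ENNReal.ofReal_lt_top
  exact (ENNReal.rpow_lt_top_iff_of_pos hp).1 h2

/-! ### lower bound -/

lemma integral_D_two_pow (n : ℕ) : ∫ x, D (2 ^ n) x ∂μ = 1 := by
  simp_rw [D_two_pow_apply]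
  rw [integral_indicator (measurable_I n 0), setIntegral_const, measureReal_I, smul_eq_mul]
  exact inv_mul_cancel₀ (by positivity)

/-- the high frequency block -/
noncomputable def blk (n : ℕ) (x : G) : ℂ := ((D (2 ^ (n + 1)) x - D (2 ^ n) x : ℝ) : ℂ)

lemma blk_dep (n : ℕ) : Dep (n + 1) (blk n) :=
  (D_dep (le_refl (2 ^ (n + 1)))).comp₂ ((D_dep (le_refl (2 ^ n))).mono (by omega))
    (fun a b => ((a - b : ℝ) : ℂ))

lemma blk_coef_small {n i : ℕ} (h : i < 2 ^ n) : ∫ t, blk n t * (w i t : ℂ) ∂μ = 0 := by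
  obtain ⟨H, hH⟩ : ∃ H : G → ℂ, H = fun t => blk n t * (w i t : ℂ) := ⟨_, rfl⟩
  rw [← hH]
  have h1 : ∀ x, H (x + e n) = -H x := by
    intro x
    rw [hH]
    simp only
    unfold blk
    rw [diff_D, diff_D, testBit_of_lt_flip h, w_add, w_e, Nat.testBit_two_pow_self, if_pos rfl,
      dep_flip (D_dep (le_refl (2 ^ n))) x]
    push_cast
    ring
  have h2 := integral_shift H (e n)
  simp_rw [h1] at h2
  rw [integral_neg] at h2
  have h3 : (2:ℂ) * ∫ x, H x ∂μ = 0 := by linear_combination -h2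
  exact (mul_eq_zero.1 h3).resolve_left two_ne_zero

lemma blk_coef_top (n : ℕ) : ∫ t, blk n t * (w (2 ^ n) t : ℂ) ∂μ = 1 := by
  have h1 : ∀ t, blk n t * (w (2 ^ n) t : ℂ) = ((D (2 ^ n) t : ℝ) : ℂ) := by
    intro t
    unfold blk
    rw [diff_D, ← Complex.ofReal_mul, mul_assoc, w_sq, mul_one]
  simp_rw [h1]
  rw [integral_complex_ofReal, integral_D_two_pow]
  simp

lemma conv_blk_small {n j : ℕ} (h : j ≤ 2 ^ n) (x : G) : conv (blk n) (D j) x = 0 := by
  rw [conv_D (blk_dep n)]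
  apply Finset.sum_eq_zero
  intro i hi
  have := Finset.mem_range.1 hi
  rw [blk_coef_small (by omega), zero_mul]

lemma conv_blk_top (n : ℕ) (x : G) : conv (blk n) (D (2 ^ n + 1)) x = (w (2 ^ n) x : ℂ) := by
  rw [conv_D (blk_dep n), Finset.sum_range_succ, ← conv_D (blk_dep n), conv_blk_small le_rfl,
    blk_coef_top]
  ring

lemma conv_blk_K (n : ℕ) (x : G) : conv (blk n) (K (2 ^ n + 2)) x = (w (2 ^ n) x : ℂ) := by
  rw [conv_K (blk_dep n), Finset.sum_range_succ, conv_blk_top, Finset.sum_eq_zero]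
  · push_cast
    have : (2 ^ n + 2 - (2 ^ n + 1) : ℂ) = 1 := by ring
    rw [this]
    ring
  · intro j hj
    rw [conv_blk_small (by have := Finset.mem_range.1 hj; omega), zero_div]

lemma exC_top (k : ℕ) (t : G) :
    exC (4 ^ (k + 1) + 1) t = exC (4 ^ k + 1) t + (4 ^ (k + 1) : ℂ) * blk (4 ^ (k + 1)) t := by
  unfold exC blk
  rw [ex_succ, ex_gap (k := k) _ le_rfl, cc_pow]
  · push_cast
    ring
  · have : 4 ^ (k + 1) = 4 * 4 ^ k := by rw [pow_succ]; ring
    have h2 : 1 ≤ 4 ^ k := Nat.one_le_pow _ _ (by norm_num)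
    omega

lemma L_exC (k : ℕ) (x : G) : L (2 ^ 4 ^ (k + 1) + 2) exC x =
    1 / (l (2 ^ 4 ^ (k + 1) + 2) : ℂ) * conv (exC (4 ^ k + 1)) (K (2 ^ 4 ^ (k + 1) + 2)) x +
      1 / (l (2 ^ 4 ^ (k + 1) + 2) : ℂ) * (4 ^ (k + 1) : ℂ) * (w (2 ^ 4 ^ (k + 1)) x : ℂ) := by
  obtain ⟨α, hα⟩ : ∃ α, α = 4 ^ (k + 1) := ⟨_, rfl⟩
  have hα4 : 4 ^ (k + 1) = 4 * 4 ^ k := by rw [pow_succ]; ring
  have h1 : 1 ≤ 4 ^ k := Nat.one_le_pow _ _ (by norm_num)
  have hle : 2 ^ α + 2 ≤ 2 ^ (α + 1) := by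
    have : 2 ^ 1 ≤ 2 ^ α := Nat.pow_le_pow_right (by norm_num) (by omega)
    rw [pow_succ]; omega
  have htop := exC_top k
  rw [← hα] at htop ⊢
  rw [mart_exC.L_eq hle, mul_assoc, ← mul_add]
  congr 1
  have hg : Dep (α + 1) (exC (4 ^ k + 1)) := (mart_exC.1 _).mono (by omega)
  have hK : Dep (α + 1) (K (2 ^ α + 2)) := K_dep hle
  have e1 := conv_integrand hg hK x
  have e2 := conv_integrand (blk_dep α) hK x
  rw [← conv_blk_K]
  unfold conv
  rw [← integral_const_mul, ← integral_add e1 (e2.const_mul _)]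
  congr 1
  ext t
  rw [htop t, hα]
  ring

lemma int_norm_exC (M : ℕ) : ∫ t, ‖exC M t‖ ∂μ ≤ (M : ℝ) ^ 2 := by
  have h1 : ∀ t, ‖exC M t‖ ≤ ∑ i ∈ Finset.range M, cc i * D (2 ^ i) t := by
    intro t
    unfold exC ex
    rw [Complex.norm_real, Real.norm_eq_abs]
    refine (Finset.abs_sum_le_sum_abs _ _).trans (Finset.sum_le_sum fun i _ => ?_)
    rw [abs_mul, abs_diff_D, abs_of_nonneg (cc_nonneg i)]
  have hi : ∀ i ∈ Finset.range M, Integrable (fun t => cc i * D (2 ^ i) t) μ := fun i _ =>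
    ((D_dep (le_refl (2 ^ i))).comp (fun a => cc i * a)).integrable
  calc ∫ t, ‖exC M t‖ ∂μ ≤ ∫ t, ∑ i ∈ Finset.range M, cc i * D (2 ^ i) t ∂μ := by
        apply integral_mono ((mart_exC.1 M).comp (fun a => ‖a‖)).integrable
          (integrable_finsetSum _ hi) h1
    _ = ∑ i ∈ Finset.range M, cc i := by
        rw [integral_finsetSum _ hi]
        refine Finset.sum_congr rfl fun i _ => ?_
        rw [integral_const_mul, integral_D_two_pow, mul_one]
    _ ≤ ∑ i ∈ Finset.range M, (M : ℝ) := by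
        apply Finset.sum_le_sum
        intro i hi
        refine (cc_le i).trans ?_
        exact_mod_cast (Finset.mem_range.1 hi).le
    _ = (M : ℝ) ^ 2 := by rw [Finset.sum_const, Finset.card_range, nsmul_eq_mul]; ring

lemma growth (s : ℕ) (hs : 8 ≤ s) : 96 * (s + 1) ^ 2 ≤ 4 ^ s := by
  induction s, hs using Nat.le_induction with
  | base => norm_num
  | succ s hs ih =>
    have h1 : 4 ^ (s + 1) = 4 * 4 ^ s := by rw [pow_succ]; ring
    rw [h1]
    nlinarith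

lemma L_exC_lower {k : ℕ} (hk : 2 ≤ k) (x : G) :
    1 / 2 ≤ ‖L (2 ^ 4 ^ (k + 1) + 2) exC x - exC (4 ^ k + 1) x‖ := by
  obtain ⟨s, hs⟩ : ∃ s, s = 4 ^ k := ⟨_, rfl⟩
  have hs16 : 16 ≤ s := by
    rw [hs]
    calc 16 = 4 ^ 2 := by norm_num
      _ ≤ 4 ^ k := Nat.pow_le_pow_right (by norm_num) hk
  have hα : 4 ^ (k + 1) = 4 * s := by rw [pow_succ, hs]; ring
  have hαC : (4 ^ (k + 1) : ℂ) = 4 * (s : ℂ) := by exact_mod_cast congrArg (Nat.cast : ℕ → ℂ) hα
  rw [L_exC, ← hs, hαC, hα]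
  obtain ⟨m, hm⟩ : ∃ m, m = 2 ^ (4 * s) + 2 := ⟨_, rfl⟩
  rw [← hm]
  have hm2 : 2 ^ (s + 1 + 1) ≤ m := by
    rw [hm]
    have : 2 ^ (s + 1 + 1) ≤ 2 ^ (4 * s) := Nat.pow_le_pow_right (by norm_num) (by omega)
    omega
  have hmle : m ≤ 2 ^ (4 * s + 1) := by
    have : 2 ^ 1 ≤ 2 ^ (4 * s) := Nat.pow_le_pow_right (by norm_num) (by omega)
    rw [hm, pow_succ]; omega
  have hl : l m ≤ 4 * s + 2 := by
    refine (l_mono hmle).trans ((l_two_pow_le _).trans ?_)
    push_cast; linarith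
  have hl1 : 1 ≤ l m := l_one_le (by rw [hm]; omega)
  have h1 := low_sup (mart_exC.1 (s + 1)) hm2 x
  have h2 := int_norm_exC (s + 1)
  have hmpos : (0:ℝ) < m := by
    have : 0 < m := by rw [hm]; positivity
    exact_mod_cast this
  have h3 : (4 * ((2:ℝ) ^ (s + 1) / m) * 2 ^ (s + 1)) * ∫ t, ‖exC (s + 1) t‖ ∂μ ≤ 1 / 6 := by
    have h4 : (96 : ℝ) * ((s : ℝ) + 1) ^ 2 ≤ 4 ^ s := by exact_mod_cast growth s (by omega)
    have h5 : (4:ℝ) ^ s * 4 ^ s ≤ m := by
      have : 4 ^ s * 4 ^ s ≤ m := by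
        have h51 : 4 ^ s * 4 ^ s = 2 ^ (4 * s) := by
          rw [← pow_add, show 4 = 2 ^ 2 by norm_num, ← pow_mul]
          congr 1; ring
        rw [h51, hm]; omega
      exact_mod_cast this
    have h6 : (2:ℝ) ^ (s + 1) * 2 ^ (s + 1) = 4 * 4 ^ s := by
      rw [← mul_pow, pow_succ]; norm_num; ring
    have h7 : (0:ℝ) < 4 ^ s := by positivity
    calc (4 * ((2:ℝ) ^ (s + 1) / m) * 2 ^ (s + 1)) * ∫ t, ‖exC (s + 1) t‖ ∂μ
        ≤ (4 * ((2:ℝ) ^ (s + 1) / m) * 2 ^ (s + 1)) * ((s + 1 : ℕ) : ℝ) ^ 2 := by gcongr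
      _ = 16 * 4 ^ s * ((s : ℝ) + 1) ^ 2 / m := by
          push_cast
          calc _ = 4 * ((2:ℝ) ^ (s + 1) * 2 ^ (s + 1)) * ((s : ℝ) + 1) ^ 2 / m := by ring
            _ = _ := by rw [h6]; ring
      _ ≤ 1 / 6 := by
          rw [div_le_iff₀ hmpos]
          nlinarith
  have h8 : 2 / 3 ≤ ‖1 / (l m : ℂ) * (4 * (s : ℂ)) * (w (2 ^ (4 * s)) x : ℂ)‖ := by
    rw [norm_mul, norm_mul, norm_one_div_l, Complex.norm_real, Real.norm_eq_abs, w_abs, mul_one,
      norm_mul, Complex.norm_natCast]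
    norm_num
    have hs' : (16:ℝ) ≤ s := by exact_mod_cast hs16
    rw [← div_eq_inv_mul, le_div_iff₀ (by linarith)]
    linarith
  have h9 := norm_sub_norm_le (1 / (l m : ℂ) * (4 * (s : ℂ)) * (w (2 ^ (4 * s)) x : ℂ))
    (-(1 / (l m : ℂ) * conv (exC (s + 1)) (K m) x - exC (s + 1) x))
  rw [norm_neg] at h9
  have h10 : 1 / (l m : ℂ) * (4 * (s : ℂ)) * (w (2 ^ (4 * s)) x : ℂ) -
      -(1 / (l m : ℂ) * conv (exC (s + 1)) (K m) x - exC (s + 1) x) =
      1 / (l m : ℂ) * conv (exC (s + 1)) (K m) x +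
        1 / (l m : ℂ) * (4 * (s : ℂ)) * (w (2 ^ (4 * s)) x : ℂ) - exC (s + 1) x := by ring
  rw [h10] at h9
  linarith

lemma weak_exC {p : ℝ} (hp : 0 < p) {F : G → ℂ}
    (hF : ∀ᵐ x ∂μ, Tendsto (fun n => exC n x) atTop (𝓝 (F x))) {k : ℕ} (hk : 2 ≤ k) :
    ((ENNReal.ofReal (1 / 4)) ^ p * ENNReal.ofReal (1 / 2)) ^ (1 / p) ≤
      weakNorm p (fun x => L (2 ^ 4 ^ (k + 1) + 2) exC x - F x) := by
  unfold weakNorm
  apply ENNReal.rpow_le_rpow _ (by positivity)
  refine le_trans ?_ (le_iSup (fun t : ℝ≥0 => (t : ℝ≥0∞) ^ p *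
    μ {x | (t : ℝ≥0∞) < ‖L (2 ^ 4 ^ (k + 1) + 2) exC x - F x‖ₑ}) (Real.toNNReal (1 / 4)))
  have h1 : ((Real.toNNReal (1 / 4) : ℝ≥0) : ℝ≥0∞) = ENNReal.ofReal (1 / 4) := rfl
  simp only [h1]
  gcongr
  have h2 : ENNReal.ofReal (1 / 2) ≤ μ (I (4 ^ k + 1) 0)ᶜ := by
    rw [prob_compl_eq_one_sub (measurable_I _ _), measure_I]
    have h3 : ((2:ℝ≥0∞) ^ (4 ^ k + 1))⁻¹ ≤ 2⁻¹ := by
      apply ENNReal.inv_le_inv.2
      calc (2:ℝ≥0∞) = 2 ^ 1 := (pow_one _).symm
        _ ≤ 2 ^ (4 ^ k + 1) := pow_le_pow_right₀ (by norm_num) (Nat.le_add_left 1 _)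
    calc ENNReal.ofReal (1 / 2) = 2⁻¹ := by
          rw [one_div, ENNReal.ofReal_inv_of_pos (by norm_num)]; norm_num
      _ = 1 - 2⁻¹ := ENNReal.one_sub_inv_two.symm
      _ ≤ 1 - (2 ^ (4 ^ k + 1))⁻¹ := tsub_le_tsub_left h3 1
  refine h2.trans (measure_mono_ae ?_)
  filter_upwards [limit_eq hF] with x hx hxI
  have h4 := L_exC_lower hk x
  rw [← hx (4 ^ k + 1) hxI] at h4
  show ENNReal.ofReal (1 / 4) < ‖L (2 ^ 4 ^ (k + 1) + 2) exC x - F x‖ₑ
  rw [← ofReal_norm, ENNReal.ofReal_lt_ofReal_iff (by linarith)]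
  linarith

lemma not_tendsto_exC {p : ℝ} (hp : 0 < p) {F : G → ℂ}
    (hF : ∀ᵐ x ∂μ, Tendsto (fun n => exC n x) atTop (𝓝 (F x))) :
    ¬ Tendsto (fun k => weakNorm p (fun x => L k exC x - F x)) atTop (𝓝 0) := by
  intro h
  have hpos : 0 < ((ENNReal.ofReal (1 / 4)) ^ p * ENNReal.ofReal (1 / 2)) ^ (1 / p) := by
    apply ENNReal.rpow_pos
    · apply ENNReal.mul_pos
      · exact (ENNReal.rpow_pos (by norm_num) ENNReal.ofReal_ne_top).ne'
      · norm_num
    · exact ENNReal.mul_ne_top (ENNReal.rpow_ne_top_of_nonneg hp.le ENNReal.ofReal_ne_top)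
        ENNReal.ofReal_ne_top
  obtain ⟨N, hN⟩ := eventually_atTop.1 (h.eventually (gt_mem_nhds hpos))
  have h1 := hN (2 ^ 4 ^ (N + 2 + 1) + 2) (by
    have a1 : N + 2 + 1 < 4 ^ (N + 2 + 1) := Nat.lt_pow_self (by norm_num)
    have a2 : 4 ^ (N + 2 + 1) < 2 ^ 4 ^ (N + 2 + 1) := Nat.lt_two_pow_self
    omega)
  exact absurd (weak_exC hp hF (by omega : 2 ≤ N + 2)) (not_le.2 h1)

end Pool.Agent.Lib.P332aa0
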