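import Pool.Agent.Lib.P332aa0.Limit

set_option autoImplicit false

open MeasureTheory Filter Topology
open scoped ENNReal NNReal

namespace Pool.Agent.Lib.P332aa0

/-- maximal function of the tail -/
noncomputable def W (f : ℕ → G → ℂ) (n : ℕ) (x : G) : ℝ≥0∞ := ⨆ k, ‖tail f n k x‖ₑ

lemma measurable_f {f : ℕ → G → ℂ} (hf : Mart f) (n : ℕ) : Measurable (f n) :=
  (hf.1 n).continuous.measurable

lemma measurable_W {f : ℕ → G → ℂ} (hf : Mart f) (n : ℕ) : Measurable (W f n) := by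
  unfold W
  apply Measurable.iSup
  intro k
  unfold tail
  exact ((measurable_f hf k).sub (measurable_f hf (min k n))).enorm

lemma omega_eq (p : ℝ) (f : ℕ → G → ℂ) (n : ℕ) :
    omega p n f = (∫⁻ x, (W f n x) ^ p ∂μ) ^ (1 / p) := rfl

lemma lintegral_W {p : ℝ} (hp : 0 < p) (f : ℕ → G → ℂ) (n : ℕ) :
    ∫⁻ x, (W f n x) ^ p ∂μ = (omega p n f) ^ p := by
  rw [omega_eq, ← ENNReal.rpow_mul, one_div_mul_cancel hp.ne', ENNReal.rpow_one]

lemma le_W {f : ℕ → G → ℂ} {n k : ℕ} (h : n ≤ k) (x : G) : ‖f k x - f n x‖ₑ ≤ W f n x := by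
  have h1 : ‖tail f n k x‖ₑ ≤ W f n x := le_iSup (fun k => ‖tail f n k x‖ₑ) k
  unfold tail at h1
  rwa [min_eq_right h] at h1

lemma exists_limit {p : ℝ} (hp : 0 < p) {f : ℕ → G → ℂ} (hf : Mart f)
    (hω : Tendsto (fun n => omega p n f) atTop (𝓝 0)) :
    ∃ F : G → ℂ, Measurable F ∧ ∀ᵐ x ∂μ, Tendsto (fun n => f n x) atTop (𝓝 (F x)) := by
  have h1 : Tendsto (fun n => ∫⁻ x, (W f n x) ^ p ∂μ) atTop (𝓝 0) := by
    simp_rw [lintegral_W hp]
    have := hω.ennrpow_const p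
    rwa [ENNReal.zero_rpow_of_pos hp] at this
  have h2 : ∫⁻ x, liminf (fun n => (W f n x) ^ p) atTop ∂μ = 0 := by
    refine le_antisymm ?_ (zero_le)
    refine (lintegral_liminf_le fun n => (measurable_W hf n).pow_const p).trans ?_
    rw [h1.liminf_eq]
  have h3 : ∀ᵐ x ∂μ, liminf (fun n => (W f n x) ^ p) atTop = 0 := by
    rw [lintegral_eq_zero_iff] at h2
    · exact h2
    · exact Measurable.liminf fun n => (measurable_W hf n).pow_const p
  have h4 : ∀ᵐ x ∂μ, ∃ a, Tendsto (fun n => f n x) atTop (𝓝 a) := by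
    filter_upwards [h3] with x hx
    apply cauchySeq_tendsto_of_complete
    rw [Metric.cauchySeq_iff]
    intro ε hε
    have h5 : ∃ᶠ n in atTop, (W f n x) ^ p < (ENNReal.ofReal (ε / 3)) ^ p := by
      apply frequently_lt_of_liminf_lt
      · isBoundedDefault
      · rw [hx]
        exact ENNReal.rpow_pos (by rw [ENNReal.ofReal_pos]; positivity) ENNReal.ofReal_ne_top
    obtain ⟨n, hn⟩ := h5.exists
    have h6 : W f n x < ENNReal.ofReal (ε / 3) := (ENNReal.rpow_lt_rpow_iff hp).1 hn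
    have h7 : ∀ k ≥ n, ‖f k x - f n x‖ < ε / 3 := by
      intro k hk
      have := (le_W hk x).trans_lt h6
      rwa [← ofReal_norm, ENNReal.ofReal_lt_ofReal_iff (by positivity)] at this
    refine ⟨n, fun a ha b hb => ?_⟩
    rw [dist_eq_norm]
    have : f a x - f b x = (f a x - f n x) - (f b x - f n x) := by ring
    rw [this]
    refine (norm_sub_le _ _).trans_lt ?_
    linarith [h7 a ha, h7 b hb]
  obtain ⟨F, hF⟩ : ∃ F : G → ℂ, ∀ᵐ x ∂μ, Tendsto (fun n => f n x) atTop (𝓝 (F x)) := by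
    refine ⟨fun x => limUnder atTop fun n => f n x, ?_⟩
    filter_upwards [h4] with x hx
    exact tendsto_nhds_limUnder hx
  have hFm : AEMeasurable F μ :=
    aemeasurable_of_tendsto_metrizable_ae atTop (fun n => (measurable_f hf n).aemeasurable) hF
  refine ⟨hFm.mk F, hFm.measurable_mk, ?_⟩
  filter_upwards [hF, hFm.ae_eq_mk] with x hx hx2
  rwa [← hx2]

lemma lim_le_W {f : ℕ → G → ℂ} {F : G → ℂ}
    (hF : ∀ᵐ x ∂μ, Tendsto (fun n => f n x) atTop (𝓝 (F x))) (n : ℕ) :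
    ∀ᵐ x ∂μ, ‖f n x - F x‖ₑ ≤ W f n x := by
  filter_upwards [hF] with x hx
  have h1 : Tendsto (fun k => ‖f n x - f k x‖ₑ) atTop (𝓝 ‖f n x - F x‖ₑ) :=
    (tendsto_const_nhds.sub hx).enorm
  apply le_of_tendsto h1
  filter_upwards [eventually_ge_atTop n] with k hk
  rw [enorm_sub_rev]
  exact le_W hk x

lemma weak_le {p : ℝ} (hp : 0 < p) {g : G → ℂ} (hg : Measurable g) :
    weakNorm p g ≤ (∫⁻ x, ‖g x‖ₑ ^ p ∂μ) ^ (1 / p) := by
  unfold weakNorm
  apply ENNReal.rpow_le_rpow _ (by positivity)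
  apply iSup_le
  intro t
  have h1 : {x | (t : ℝ≥0∞) < ‖g x‖ₑ} ⊆ {x | (t : ℝ≥0∞) ^ p ≤ ‖g x‖ₑ ^ p} := by
    intro x hx
    exact ENNReal.rpow_le_rpow (le_of_lt hx) hp.le
  calc (t : ℝ≥0∞) ^ p * μ {x | (t : ℝ≥0∞) < ‖g x‖ₑ}
      ≤ (t : ℝ≥0∞) ^ p * μ {x | (t : ℝ≥0∞) ^ p ≤ ‖g x‖ₑ ^ p} := by gcongr
    _ ≤ ∫⁻ x, ‖g x‖ₑ ^ p ∂μ := mul_meas_ge_le_lintegral₀ (hg.enorm.pow_const p).aemeasurable _

lemma ofReal_Np {p : ℝ} (hp : 0 < p) {g : G → ℂ} {M : ℕ} (hg : Dep M g) :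
    ENNReal.ofReal (Np p g) = ∫⁻ x, ‖g x‖ₑ ^ p ∂μ := by
  unfold Np
  rw [ofReal_integral_eq_lintegral_ofReal (hg.comp (fun a => ‖a‖ ^ p)).integrable
    (Filter.Eventually.of_forall fun x => Real.rpow_nonneg (norm_nonneg _) p)]
  congr 1
  ext x
  rw [← ENNReal.ofReal_rpow_of_nonneg (norm_nonneg _) hp.le, ofReal_norm]

lemma L_dep {f : ℕ → G → ℂ} (hf : Mart f) {k M : ℕ} (h : k ≤ 2 ^ M) : Dep M (L k f) := by
  have e1 : L k f = fun x => 1 / (l k : ℂ) * conv (f M) (K k) x := by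
    ext x; exact hf.L_eq h x
  rw [e1]
  exact (conv_dep (g := f M) (K_dep h)).comp (fun z => 1 / (l k : ℂ) * z)

lemma Np_diff_omega {p : ℝ} (hp : 0 < p) {f : ℕ → G → ℂ} (hf : Mart f) (i : ℕ) :
    ENNReal.ofReal (Np p (diff f (i + 1))) ≤ (omega p i f) ^ p := by
  rw [ofReal_Np hp (diff_dep hf (i + 1)), ← lintegral_W hp]
  apply lintegral_mono
  intro x
  apply ENNReal.rpow_le_rpow _ hp.le
  exact le_W (Nat.le_succ i) x

/-- convergence in `L_p` for `p < 1` from convergence along dyadic blocks -/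
theorem final_less {p : ℝ} (hp : 0 < p) (hp1 : p < 1) {f : ℕ → G → ℂ} (hf : Mart f)
    (hb : Tendsto (bb p f) atTop (𝓝 0)) (hω : Tendsto (fun n => omega p n f) atTop (𝓝 0))
    {F : G → ℂ} (hF : ∀ᵐ x ∂μ, Tendsto (fun n => f n x) atTop (𝓝 (F x))) :
    Tendsto (fun k => ∫⁻ x, ‖L k f x - F x‖ₑ ^ p ∂μ) atTop (𝓝 0) := by
  have h1 := ENNReal.tendsto_ofReal (tendsto_less hp hp1 hf hb)
  rw [ENNReal.ofReal_zero] at h1
  have h2 : Tendsto (fun k => (omega p (Nat.log 2 k + 1) f) ^ p) atTop (𝓝 0) := by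
    have h3 := (hω.comp ((tendsto_add_atTop_nat 1).comp tendsto_log_two)).ennrpow_const p
    rw [ENNReal.zero_rpow_of_pos hp] at h3
    exact h3
  have h4 := h1.add h2
  rw [add_zero] at h4
  refine tendsto_of_tendsto_of_tendsto_of_le_of_le' tendsto_const_nhds h4
    (Filter.Eventually.of_forall fun k => zero_le) ?_
  filter_upwards [eventually_ge_atTop 1] with k hk
  have hk2 : k ≤ 2 ^ (Nat.log 2 k + 1) := (Nat.lt_pow_succ_log_self (by norm_num) k).le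
  have hd : Dep (Nat.log 2 k + 1) (fun x => L k f x - f (Nat.log 2 k + 1) x) :=
    (L_dep hf hk2).comp₂ (hf.1 _) (fun a b => a - b)
  rw [ofReal_Np hp hd, ← lintegral_W hp, ← lintegral_add_left]
  · apply lintegral_mono_ae
    filter_upwards [lim_le_W hF (Nat.log 2 k + 1)] with x hx
    have h5 : L k f x - F x = (L k f x - f (Nat.log 2 k + 1) x) + (f (Nat.log 2 k + 1) x - F x) := by
      ring
    rw [h5]
    calc ‖(L k f x - f (Nat.log 2 k + 1) x) + (f (Nat.log 2 k + 1) x - F x)‖ₑ ^ p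
        ≤ (‖L k f x - f (Nat.log 2 k + 1) x‖ₑ + ‖f (Nat.log 2 k + 1) x - F x‖ₑ) ^ p :=
          ENNReal.rpow_le_rpow (enorm_add_le _ _) hp.le
      _ ≤ ‖L k f x - f (Nat.log 2 k + 1) x‖ₑ ^ p + ‖f (Nat.log 2 k + 1) x - F x‖ₑ ^ p :=
          ENNReal.rpow_add_le_add_rpow _ _ hp.le hp1.le
      _ ≤ ‖L k f x - f (Nat.log 2 k + 1) x‖ₑ ^ p + (W f (Nat.log 2 k + 1) x) ^ p := by
          gcongr
  · exact (hd.continuous.measurable.enorm).pow_const p

/-! ### the case `p = 1` -/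

lemma mart_tail {f : ℕ → G → ℂ} (hf : Mart f) (m : ℕ) : Mart (tail f m) := by
  refine ⟨fun n => (hf.1 n).comp₂ ((hf.1 (min n m)).mono (min_le_left _ _)) (fun a b => a - b), ?_⟩
  intro n x
  unfold tail
  rcases Nat.lt_or_ge n m with h | h
  · rw [min_eq_left h.le, min_eq_left (by omega : n + 1 ≤ m)]; ring
  · rw [min_eq_right h, min_eq_right (by omega : m ≤ n + 1), hf.2 n x,
      dep_flip ((hf.1 m).mono h) x]
    ring

lemma abs_D_le_card (j : ℕ) (x : G) : |D j x| ≤ j := by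
  unfold D
  refine (Finset.abs_sum_le_sum_abs _ _).trans ?_
  simp_rw [w_abs]
  simp

/-- uniform convergence on step functions -/
lemma low_sup {g : G → ℂ} {M k : ℕ} (hg : Dep M g) (hk : 2 ^ (M + 1) ≤ k) (x : G) :
    ‖1 / (l k : ℂ) * conv g (K k) x - g x‖ ≤ (4 * (2 ^ M / k) * 2 ^ M) * ∫ t, ‖g t‖ ∂μ := by
  rw [low_identity hg hk, norm_mul, norm_neg, norm_one_div_l]
  have hk1 : 1 ≤ k := Nat.one_le_two_pow.trans hk
  have h1 : 1 / l k ≤ 1 := by
    rw [div_le_one (by linarith [l_one_le hk1])]; exact l_one_le hk1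
  have h2 : ‖conv g (R M k) x‖ ≤ (4 * (2 ^ M / k) * 2 ^ M) * ∫ t, ‖g t‖ ∂μ := by
    unfold conv
    refine (norm_integral_le_integral_norm _).trans ?_
    rw [← integral_const_mul]
    apply integral_mono
    · exact (hg.comp₂ (dep_shift (R_dep M k) x) (fun a b => ‖a * (b : ℂ)‖)).integrable
    · exact (hg.comp (fun a => (4 * (2 ^ M / (k : ℝ)) * 2 ^ M) * ‖a‖)).integrable
    · intro t
      simp only
      rw [norm_mul, Complex.norm_real, Real.norm_eq_abs, mul_comm]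
      apply mul_le_mul_of_nonneg_right _ (norm_nonneg _)
      apply abs_R_le hk
      intro j hj
      refine (abs_D_le_card j _).trans ?_
      exact_mod_cast hj
  have h3 : 0 ≤ 1 / l k := div_nonneg zero_le_one (l_nonneg k)
  calc 1 / l k * ‖conv g (R M k) x‖ ≤ 1 * ‖conv g (R M k) x‖ := by gcongr
    _ ≤ _ := by rw [one_mul]; exact h2

theorem final_one {f : ℕ → G → ℂ} (hf : Mart f)
    (hω : Tendsto (fun n => omega 1 n f) atTop (𝓝 0))
    {F : G → ℂ} (hFm : Measurable F) (hF : ∀ᵐ x ∂μ, Tendsto (fun n => f n x) atTop (𝓝 (F x))) :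
    Tendsto (fun k => weakNorm 1 (fun x => L k f x - F x)) atTop (𝓝 0) := by
  rw [ENNReal.tendsto_nhds_zero]
  intro ε hε
  -- choose m
  have h87 : Tendsto (fun m => 87 * omega 1 m f) atTop (𝓝 0) := by
    have := ENNReal.Tendsto.const_mul (a := 87) hω (Or.inr (by norm_num))
    rwa [mul_zero] at this
  have hε2 : 0 < ε / 2 := ENNReal.half_pos hε.ne'
  obtain ⟨m, hm⟩ := ((ENNReal.tendsto_nhds_zero.1 h87) (ε / 2) hε2).exists
  -- error sequence
  obtain ⟨δ, hδ⟩ : ∃ δ : ℕ → ℝ, δ = fun k : ℕ => (4 * (2 ^ m / (k : ℝ)) * 2 ^ m) * ∫ t, ‖f m t‖ ∂μ :=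
    ⟨_, rfl⟩
  have hδlim : Tendsto (fun k => ENNReal.ofReal (3 * δ k)) atTop (𝓝 0) := by
    have h1 : Tendsto (fun k => 3 * δ k) atTop (𝓝 0) := by
      have h2 : Tendsto (fun k : ℕ => (2:ℝ) ^ m / (k : ℝ)) atTop (𝓝 0) :=
        tendsto_const_div_atTop_nhds_zero_nat _
      have h3 := (((h2.const_mul 4).mul_const ((2:ℝ) ^ m)).mul_const (∫ t, ‖f m t‖ ∂μ)).const_mul 3
      rw [hδ]
      simpa using h3
    have := ENNReal.tendsto_ofReal h1
    rwa [ENNReal.ofReal_zero] at this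
  filter_upwards [eventually_ge_atTop (2 ^ (m + 1)), (ENNReal.tendsto_nhds_zero.1 hδlim) (ε / 2) hε2]
    with k hk hkε
  have hk1 : 1 ≤ k := Nat.one_le_two_pow.trans hk
  obtain ⟨M, hMd⟩ : ∃ M, M = Nat.log 2 k + 1 := ⟨_, rfl⟩
  have hk2 : k < 2 ^ M := by rw [hMd]; exact Nat.lt_pow_succ_log_self (by norm_num) k
  have hk3 : 2 ^ (M - 1) ≤ k := by
    rw [hMd, Nat.add_sub_cancel]; exact Nat.pow_log_le_self 2 (by omega)
  have hmM : m ≤ M := by
    have : m + 1 ≤ Nat.log 2 k := Nat.le_log_of_pow_le (by norm_num) hk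
    omega
  obtain ⟨a, ha⟩ : ∃ a : G → ℂ, a = fun x => 1 / (l k : ℂ) * conv (tail f m M) (K k) x := ⟨_, rfl⟩
  have hδ0 : 0 ≤ δ k := by
    rw [hδ]
    exact mul_nonneg (by positivity) (integral_nonneg fun x => norm_nonneg _)
  have hdec : ∀ x, ‖L k f x - F x‖ ≤ ‖a x‖ + δ k + ‖f m x - F x‖ := by
    intro x
    have h1 : L k f x = a x + 1 / (l k : ℂ) * conv (f m) (K k) x := by
      rw [hf.L_eq hk2.le, ha, ← mul_add]
      congr 1
      unfold conv
      rw [← integral_add (conv_integrand ((mart_tail hf m).1 M) (K_dep hk2.le) x)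
        (conv_integrand ((hf.1 m).mono hmM) (K_dep hk2.le) x)]
      congr 1
      ext t
      unfold tail
      rw [min_eq_right hmM]
      ring
    have h2 := low_sup (hf.1 m) hk x
    have h3 : L k f x - F x = a x + (1 / (l k : ℂ) * conv (f m) (K k) x - f m x) + (f m x - F x) := by
      rw [h1]; ring
    rw [h3]
    refine (norm_add_le _ _).trans (add_le_add ((norm_add_le _ _).trans (add_le_add le_rfl ?_)) le_rfl)
    rw [hδ]
    exact h2
  have hatail : ENNReal.ofReal (∫ x, ‖tail f m M x‖ ∂μ) ≤ omega 1 m f := by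
    have h1 := ofReal_Np (p := 1) one_pos ((mart_tail hf m).1 M)
    unfold Np at h1
    simp only [Real.rpow_one, ENNReal.rpow_one] at h1
    have h2 := lintegral_W (p := 1) one_pos f m
    simp only [ENNReal.rpow_one] at h2
    rw [h1, ← h2]
    apply lintegral_mono
    intro x
    exact le_iSup (fun k => ‖tail f m k x‖ₑ) M
  have hlast : ∫⁻ x, ‖f m x - F x‖ₑ ∂μ ≤ omega 1 m f := by
    have h2 := lintegral_W (p := 1) one_pos f m
    simp only [ENNReal.rpow_one] at h2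
    rw [← h2]
    exact lintegral_mono_ae (lim_le_W hF m)
  unfold weakNorm
  simp only [ENNReal.rpow_one, div_one]
  apply iSup_le
  intro t
  rcases eq_or_ne t 0 with ht0 | ht0
  · rw [ht0]; simp
  have ht : (0:ℝ) < t := by exact_mod_cast pos_iff_ne_zero.2 ht0
  have hsub : {x | (t : ℝ≥0∞) < ‖L k f x - F x‖ₑ} ⊆
      ({x | (t : ℝ) / 3 ≤ ‖a x‖} ∪ {_x | (t : ℝ) / 3 ≤ δ k}) ∪ {x | (t : ℝ) / 3 ≤ ‖f m x - F x‖} := by
    intro x hx
    have hx' : (t : ℝ) < ‖L k f x - F x‖ := by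
      have h1 : (t : ℝ≥0∞) < ‖L k f x - F x‖ₑ := hx
      rw [← ofReal_norm] at h1
      have h2 : ENNReal.ofReal (t : ℝ) < ENNReal.ofReal ‖L k f x - F x‖ := by
        rwa [ENNReal.ofReal_coe_nnreal]
      exact (ENNReal.ofReal_lt_ofReal_iff'.1 h2).1
    by_contra hcon
    rw [Set.mem_union, Set.mem_union, not_or, not_or] at hcon
    obtain ⟨⟨h2, h3⟩, h4⟩ := hcon
    have h2' : ‖a x‖ < t / 3 := lt_of_not_ge h2
    have h3' : δ k < t / 3 := lt_of_not_ge h3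
    have h4' : ‖f m x - F x‖ < t / 3 := lt_of_not_ge h4
    linarith [hdec x]
  have hA : (t : ℝ≥0∞) * μ {x | (t : ℝ) / 3 ≤ ‖a x‖} ≤ 84 * omega 1 m f := by
    have h1 : (t : ℝ) / 3 * μ.real {x | (t : ℝ) / 3 ≤ ‖a x‖} ≤ 28 * ∫ x, ‖tail f m M x‖ ∂μ := by
      rw [ha]
      exact weak_L ((mart_tail hf m).1 M) (by omega : 1 ≤ M) hk3 hk2 (t := t / 3) (by positivity)
    have h2 : (t : ℝ≥0∞) * μ {x | (t : ℝ) / 3 ≤ ‖a x‖} =
        ENNReal.ofReal (t * μ.real {x | (t : ℝ) / 3 ≤ ‖a x‖}) := by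
      rw [ENNReal.ofReal_mul (NNReal.coe_nonneg t), ENNReal.ofReal_coe_nnreal, ofReal_measureReal]
    rw [h2]
    calc ENNReal.ofReal (t * μ.real {x | (t : ℝ) / 3 ≤ ‖a x‖})
        ≤ ENNReal.ofReal (84 * ∫ x, ‖tail f m M x‖ ∂μ) := by
          apply ENNReal.ofReal_le_ofReal; linarith
      _ = 84 * ENNReal.ofReal (∫ x, ‖tail f m M x‖ ∂μ) := by
          rw [ENNReal.ofReal_mul (by norm_num)]; norm_num
      _ ≤ 84 * omega 1 m f := by gcongr
  have hB : (t : ℝ≥0∞) * μ {_x : G | (t : ℝ) / 3 ≤ δ k} ≤ ENNReal.ofReal (3 * δ k) := by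
    by_cases h1 : (t : ℝ) / 3 ≤ δ k
    · calc (t : ℝ≥0∞) * μ {_x : G | (t : ℝ) / 3 ≤ δ k} ≤ (t : ℝ≥0∞) * 1 := by
            gcongr
            exact prob_le_one
        _ = ENNReal.ofReal t := by rw [mul_one, ENNReal.ofReal_coe_nnreal]
        _ ≤ ENNReal.ofReal (3 * δ k) := ENNReal.ofReal_le_ofReal (by linarith)
    · have : {_x : G | (t : ℝ) / 3 ≤ δ k} = ∅ := by ext x; simp [h1]
      rw [this]; simp
  have hC : (t : ℝ≥0∞) * μ {x | (t : ℝ) / 3 ≤ ‖f m x - F x‖} ≤ 3 * omega 1 m f := by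
    have hset : {x | (t : ℝ) / 3 ≤ ‖f m x - F x‖} = {x | ENNReal.ofReal (t / 3) ≤ ‖f m x - F x‖ₑ} := by
      ext x
      simp only [Set.mem_ofPred_eq]
      rw [← ofReal_norm, ENNReal.ofReal_le_ofReal_iff (norm_nonneg _)]
    have h1 := mul_meas_ge_le_lintegral₀ (μ := μ) (f := fun x => ‖f m x - F x‖ₑ)
      (((measurable_f hf m).sub hFm).enorm.aemeasurable) (ENNReal.ofReal (t / 3))
    rw [← hset] at h1
    have h2 : (t : ℝ≥0∞) = 3 * ENNReal.ofReal (t / 3) := by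
      have h3 : (3 : ℝ≥0∞) = ENNReal.ofReal 3 := by norm_num
      rw [h3, ← ENNReal.ofReal_mul (by norm_num), ← ENNReal.ofReal_coe_nnreal]
      congr 1; ring
    rw [h2, mul_assoc]
    gcongr
    exact h1.trans hlast
  calc (t : ℝ≥0∞) * μ {x | (t : ℝ≥0∞) < ‖L k f x - F x‖ₑ}
      ≤ (t : ℝ≥0∞) * (μ {x | (t : ℝ) / 3 ≤ ‖a x‖} + μ {_x : G | (t : ℝ) / 3 ≤ δ k} +
          μ {x | (t : ℝ) / 3 ≤ ‖f m x - F x‖}) := by
        gcongr
        refine (measure_mono hsub).trans ((measure_union_le _ _).trans ?_)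
        gcongr
        exact measure_union_le _ _
    _ = (t : ℝ≥0∞) * μ {x | (t : ℝ) / 3 ≤ ‖a x‖} + (t : ℝ≥0∞) * μ {_x : G | (t : ℝ) / 3 ≤ δ k} +
          (t : ℝ≥0∞) * μ {x | (t : ℝ) / 3 ≤ ‖f m x - F x‖} := by rw [mul_add, mul_add]
    _ ≤ 84 * omega 1 m f + ENNReal.ofReal (3 * δ k) + 3 * omega 1 m f := by gcongr
    _ = 87 * omega 1 m f + ENNReal.ofReal (3 * δ k) := by ring
    _ ≤ ε / 2 + ε / 2 := add_le_add hm hkε
    _ = ε := ENNReal.add_halves ε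

end Pool.Agent.Lib.P332aa0
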