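import Pool.Agent.Lib.P332aa0.Example

set_option autoImplicit false

open MeasureTheory Filter Topology
open scoped ENNReal NNReal

namespace Pool.Agent.Lib.P332aa0

lemma martingale_re {f : ℕ → G → ℂ} (hf : Martingale f Fil μ) :
    Martingale (fun n x => (f n x).re) Fil μ := by
  apply martingale_of_setIntegral_eq_succ
  · intro n
    exact Complex.continuous_re.comp_stronglyMeasurable (hf.stronglyMeasurable n)
  · exact fun n => (hf.integrable n).re
  · intro i s hs
    have h1 := hf.setIntegral_eq (Nat.le_succ i) hs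
    have e1 := integral_re (μ := μ.restrict s) (hf.integrable i).integrableOn
    have e2 := integral_re (μ := μ.restrict s) (hf.integrable (i + 1)).integrableOn
    rw [Nat.succ_eq_add_one] at h1
    exact e1.trans ((congrArg _ h1).trans e2.symm)

lemma martingale_im {f : ℕ → G → ℂ} (hf : Martingale f Fil μ) :
    Martingale (fun n x => (f n x).im) Fil μ := by
  apply martingale_of_setIntegral_eq_succ
  · intro n
    exact Complex.continuous_im.comp_stronglyMeasurable (hf.stronglyMeasurable n)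
  · exact fun n => (hf.integrable n).im
  · intro i s hs
    have h1 := hf.setIntegral_eq (Nat.le_succ i) hs
    have e1 := integral_im (μ := μ.restrict s) (hf.integrable i).integrableOn
    have e2 := integral_im (μ := μ.restrict s) (hf.integrable (i + 1)).integrableOn
    rw [Nat.succ_eq_add_one] at h1
    exact e1.trans ((congrArg _ h1).trans e2.symm)

lemma HpNorm_one (f : ℕ → G → ℂ) : HpNorm 1 f = ∫⁻ x, ⨆ n, ‖f n x‖ₑ ∂μ := by
  unfold HpNorm; simp

lemma ae_limit_of_H1 {f : ℕ → G → ℂ} (hf : Martingale f Fil μ) (h : HpNorm 1 f < ⊤) :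
    ∃ F : G → ℂ, Measurable F ∧ ∀ᵐ x ∂μ, Tendsto (fun n => f n x) atTop (𝓝 (F x)) := by
  have hb : ∀ n, ∫⁻ x, ‖f n x‖ₑ ∂μ ≤ HpNorm 1 f := by
    intro n
    rw [HpNorm_one]
    exact lintegral_mono fun x => le_iSup (fun n => ‖f n x‖ₑ) n
  obtain ⟨R, hR⟩ : ∃ R : ℝ≥0, HpNorm 1 f = R := ⟨(HpNorm 1 f).toNNReal, (ENNReal.coe_toNNReal h.ne).symm⟩
  have h1 : ∀ n, eLpNorm (fun x => (f n x).re) 1 μ ≤ R := by
    intro n
    rw [eLpNorm_one_eq_lintegral_enorm, ← hR]
    refine (lintegral_mono fun x => ?_).trans (hb n)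
    rw [← ofReal_norm, ← ofReal_norm]
    exact ENNReal.ofReal_le_ofReal (Complex.abs_re_le_norm _)
  have h2 : ∀ n, eLpNorm (fun x => (f n x).im) 1 μ ≤ R := by
    intro n
    rw [eLpNorm_one_eq_lintegral_enorm, ← hR]
    refine (lintegral_mono fun x => ?_).trans (hb n)
    rw [← ofReal_norm, ← ofReal_norm]
    exact ENNReal.ofReal_le_ofReal (Complex.abs_im_le_norm _)
  have c1 := (martingale_re hf).submartingale.ae_tendsto_limitProcess h1
  have c2 := (martingale_im hf).submartingale.ae_tendsto_limitProcess h2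
  refine ⟨fun x => ((Fil.limitProcess (fun n x => (f n x).re) μ x : ℝ) : ℂ) +
    ((Fil.limitProcess (fun n x => (f n x).im) μ x : ℝ) : ℂ) * Complex.I, ?_, ?_⟩
  · have m1 := (Filtration.stronglyMeasurable_limit_process' (f := fun n x => (f n x).re)
      (ℱ := Fil) (μ := μ)).measurable
    have m2 := (Filtration.stronglyMeasurable_limit_process' (f := fun n x => (f n x).im)
      (ℱ := Fil) (μ := μ)).measurable
    exact (Complex.measurable_ofReal.comp m1).add
      ((Complex.measurable_ofReal.comp m2).mul_const _)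
  · filter_upwards [c1, c2] with x hx1 hx2
    have := (Complex.continuous_ofReal.tendsto _).comp hx1
    have h4 := ((Complex.continuous_ofReal.tendsto _).comp hx2).mul_const Complex.I
    refine (this.add h4).congr fun n => ?_
    simp [Complex.re_add_im]

lemma omega_one_tendsto {f : ℕ → G → ℂ} (hf : Mart f) (h : HpNorm 1 f < ⊤) {F : G → ℂ}
    (hF : ∀ᵐ x ∂μ, Tendsto (fun n => f n x) atTop (𝓝 (F x))) :
    Tendsto (fun n => omega 1 n f) atTop (𝓝 0) := by
  have h0 : ∀ n, omega 1 n f = ∫⁻ x, W f n x ∂μ := by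
    intro n
    have := lintegral_W (p := 1) one_pos f n
    simp only [ENNReal.rpow_one] at this
    exact this.symm
  simp_rw [h0]
  have hbound : ∫⁻ x, 2 * ⨆ n, ‖f n x‖ₑ ∂μ ≠ ⊤ := by
    rw [lintegral_const_mul']
    · rw [← HpNorm_one]
      exact ENNReal.mul_ne_top (by norm_num) h.ne
    · norm_num
  have h1 : ∀ n, ∀ᵐ x ∂μ, W f n x ≤ 2 * ⨆ n, ‖f n x‖ₑ := by
    intro n
    filter_upwards with x
    unfold W
    apply iSup_le
    intro k
    unfold tail
    refine enorm_sub_le.trans ?_
    rw [two_mul]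
    exact add_le_add (le_iSup (fun n => ‖f n x‖ₑ) k) (le_iSup (fun n => ‖f n x‖ₑ) (min k n))
  have h2 : ∀ᵐ x ∂μ, Tendsto (fun n => W f n x) atTop (𝓝 0) := by
    filter_upwards [hF] with x hx
    rw [ENNReal.tendsto_atTop_zero]
    intro ε hε
    obtain ⟨δ, hδ, hδε⟩ : ∃ δ > 0, δ + δ ≤ ε := by
      refine ⟨ε / 2, ENNReal.half_pos hε.ne', (ENNReal.add_halves ε).le⟩
    have h3 : Tendsto (fun n => edist (f n x) (F x)) atTop (𝓝 0) := by
      have := tendsto_iff_edist_tendsto_0.1 hx
      exact this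
    obtain ⟨N, hN⟩ := (ENNReal.tendsto_atTop_zero.1 h3) δ hδ
    refine ⟨N, fun n hn => ?_⟩
    unfold W
    apply iSup_le
    intro k
    unfold tail
    rcases le_total k n with hk | hk
    · rw [min_eq_left hk, sub_self, enorm_zero]; exact zero_le
    · rw [min_eq_right hk, ← edist_eq_enorm_sub]
      refine (edist_triangle_right _ _ (F x)).trans ?_
      exact (add_le_add (hN k (hn.trans hk)) (hN n hn)).trans hδε
  have := tendsto_lintegral_of_dominated_convergence (μ := μ) (fun x => 2 * ⨆ n, ‖f n x‖ₑ)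
    (fun n => measurable_W hf n) h1 hbound h2
  simpa using this

/-- the case `p = 1`, no modulus condition -/
theorem one_main {f : ℕ → G → ℂ} (hf : Martingale f Fil μ) (h : HpNorm 1 f < ⊤) :
    ∃ F : G → ℂ, Measurable F ∧ (∀ᵐ x ∂μ, Tendsto (fun n => f n x) atTop (𝓝 (F x))) ∧
      Tendsto (fun k => weakNorm 1 (fun x => L k f x - F x)) atTop (𝓝 0) := by
  obtain ⟨F, hFm, hF⟩ := ae_limit_of_H1 hf h
  have hm := mart_of_martingale hf
  exact ⟨F, hFm, hF, final_one hm (omega_one_tendsto hm h hF) hFm hF⟩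

end Pool.Agent.Lib.P332aa0
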