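import Pool.Agent.Lib.P332aa0.Basic

set_option autoImplicit false

open MeasureTheory Filter Topology
open scoped ENNReal NNReal

namespace Pool.Agent.Lib.P332aa0

lemma l_zero : l 0 = 0 := by simp [l]

lemma l_succ (n : ℕ) : l (n + 1) = l n + 1 / ((n : ℝ) + 1) := by
  unfold l
  rw [Finset.sum_Icc_succ_top (by omega)]
  push_cast; rfl

lemma l_one : l 1 = 1 := by
  have := l_succ 0
  rw [l_zero] at this
  rw [this]; norm_num

lemma l_nonneg (n : ℕ) : 0 ≤ l n := by
  unfold l; positivity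

lemma l_mono {m n : ℕ} (h : m ≤ n) : l m ≤ l n := by
  unfold l
  apply Finset.sum_le_sum_of_subset_of_nonneg (Finset.Icc_subset_Icc_right h)
  intros; positivity

lemma l_one_le {n : ℕ} (h : 1 ≤ n) : 1 ≤ l n := by
  have := l_mono h
  rw [l_one] at this
  exact this

lemma l_add_le (a b : ℕ) (ha : 1 ≤ a) : l (a + b) - l a ≤ b / a := by
  induction b with
  | zero => simp
  | succ b ih =>
    rw [← add_assoc, l_succ]
    have ha' : (0:ℝ) < a := by exact_mod_cast ha
    have h1 : 1 / (((a + b : ℕ) : ℝ) + 1) ≤ 1 / a := by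
      apply one_div_le_one_div_of_le ha'
      push_cast
      have : (0:ℝ) ≤ b := Nat.cast_nonneg b
      linarith
    have h2 : ((b + 1 : ℕ) : ℝ) / a = b / a + 1 / a := by push_cast; ring
    rw [h2]; linarith

lemma l_add_ge (a b : ℕ) (ha : 1 ≤ a) : (b : ℝ) / (a + b) ≤ l (a + b) - l a := by
  have key : ∀ c ≤ b, (c : ℝ) / (a + b) ≤ l (a + c) - l a := by
    intro c hc
    induction c with
    | zero => simp
    | succ c ih =>
      rw [← add_assoc, l_succ]
      have ih' := ih (by omega)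
      have ha' : (0:ℝ) < a := by exact_mod_cast ha
      have hcb : ((c : ℝ)) + 1 ≤ b := by exact_mod_cast hc
      have h1 : 1 / ((a : ℝ) + b) ≤ 1 / (((a + c : ℕ) : ℝ) + 1) := by
        apply one_div_le_one_div_of_le
        · positivity
        · push_cast; linarith
      have h2 : ((c + 1 : ℕ) : ℝ) / (a + b) = c / (a + b) + 1 / (a + b) := by push_cast; ring
      rw [h2]; linarith
  exact key b le_rfl

lemma l_two_mul_le (a : ℕ) (ha : 1 ≤ a) : l (2 * a) ≤ l a + 1 := by
  have h := l_add_le a a ha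
  have ha' : (0:ℝ) < a := by exact_mod_cast ha
  rw [div_self ha'.ne', ← two_mul] at h
  linarith

lemma l_two_pow_le (m : ℕ) : l (2 ^ m) ≤ m + 1 := by
  induction m with
  | zero => rw [pow_zero, l_one]; norm_num
  | succ m ih =>
    have := l_two_mul_le (2 ^ m) Nat.one_le_two_pow
    rw [pow_succ', ]
    push_cast
    linarith

lemma l_two_pow_add_le {k m : ℕ} (h : k ≤ m) : l (2 ^ m) ≤ l (2 ^ k) + (m - k) := by
  obtain ⟨d, rfl⟩ := Nat.exists_eq_add_of_le h
  clear h
  induction d with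
  | zero => simp
  | succ d ih =>
    have := l_two_mul_le (2 ^ (k + d)) Nat.one_le_two_pow
    rw [← add_assoc, pow_succ']
    push_cast at ih ⊢
    linarith

lemma l_two_pow_ge (m : ℕ) : 1 + (m : ℝ) / 2 ≤ l (2 ^ m) := by
  induction m with
  | zero => rw [pow_zero, l_one]; norm_num
  | succ m ih =>
    have h := l_add_ge (2 ^ m) (2 ^ m) Nat.one_le_two_pow
    have e : 2 ^ m + 2 ^ m = 2 ^ (m + 1) := by ring
    rw [e] at h
    have h2 : ((2 ^ m : ℕ) : ℝ) / (((2 ^ m : ℕ) : ℝ) + ((2 ^ m : ℕ) : ℝ)) = 1 / 2 := by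
      have : ((2 ^ m : ℕ) : ℝ) ≠ 0 := by positivity
      field_simp; norm_num
    rw [h2] at h
    push_cast
    linarith

lemma sum_reflect (n : ℕ) : ∑ j ∈ Finset.range n, 1 / ((n : ℝ) - j) = l n := by
  unfold l
  rw [← Finset.sum_range_reflect]
  rw [Finset.sum_bij' (i := fun k _ => k + 1) (j := fun k _ => k - 1)]
  · intro k hk; rw [Finset.mem_range] at hk; rw [Finset.mem_Icc]; omega
  · intro k hk; rw [Finset.mem_Icc] at hk; rw [Finset.mem_range]; omega
  · intro k hk; simp
  · intro k hk; rw [Finset.mem_Icc] at hk; omega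
  · intro k hk
    rw [Finset.mem_range] at hk
    have : ((n - 1 - k : ℕ) : ℝ) = n - 1 - k := by
      rw [Nat.cast_sub (by omega), Nat.cast_sub (by omega)]; simp
    rw [this]; push_cast; congr 1; ring

/-- sum of inverse squares -/
lemma sum_inv_sq_le (n : ℕ) : ∑ i ∈ Finset.range n, (1 / ((i : ℝ) + 1)) ^ 2 ≤ 2 := by
  have key : ∀ n : ℕ, 1 ≤ n → ∑ i ∈ Finset.range n, (1 / ((i : ℝ) + 1)) ^ 2 ≤
      (2 : ℝ) - 1 / (n : ℝ) := by
    intro n hn
    induction n, hn using Nat.le_induction with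
    | base => norm_num
    | succ n hn ih =>
      rw [Finset.sum_range_succ]
      have hn' : (0:ℝ) < n := by exact_mod_cast hn
      have h1 : (1 / ((n : ℝ) + 1)) ^ 2 ≤ 1 / n - 1 / ((n + 1 : ℕ) : ℝ) := by
        push_cast
        rw [div_pow, one_pow, div_sub_div _ _ hn'.ne' (by positivity), div_le_div_iff₀ (by positivity)
          (by positivity)]
        nlinarith
      linarith
  rcases Nat.eq_zero_or_pos n with h | h
  · subst h; simp
  · have := key n h
    have h2 : (0:ℝ) ≤ 1 / n := by positivity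
    linarith

end Pool.Agent.Lib.P332aa0
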