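import Pool.Agent.Lib.P332aa0.Final

set_option autoImplicit false

open MeasureTheory Filter Topology
open scoped ENNReal NNReal

namespace Pool.Agent.Lib.P332aa0

/-- `ω_{H_p}(1/2^n, f) = o(n / 2^{n(1/p-1)})` -/
def SmallO (p : ℝ) (f : ℕ → G → ℂ) : Prop :=
  ∀ ε > 0, ∀ᶠ n : ℕ in atTop, omega p n f ≤ ENNReal.ofReal (ε * n / 2 ^ ((n : ℝ) * (1 / p - 1)))

lemma pow_identity {p : ℝ} (hp : 0 < p) {ε : ℝ} (hε : 0 ≤ ε) (n : ℕ) :
    (ε * n / (2:ℝ) ^ ((n : ℝ) * (1 / p - 1))) ^ p = ε ^ p * (n : ℝ) ^ p * ((2:ℝ) ^ n) ^ (p - 1) := by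
  rw [Real.div_rpow (by positivity) (by positivity), Real.mul_rpow hε (Nat.cast_nonneg n),
    ← Real.rpow_mul (by norm_num), div_eq_mul_inv, ← Real.rpow_neg (by norm_num),
    ← Real.rpow_natCast 2 n, ← Real.rpow_mul (by norm_num)]
  congr 2
  field_simp
  ring

lemma SmallO.bb {p : ℝ} (hp : 0 < p) (hp1 : p < 1) {f : ℕ → G → ℂ} (hf : Mart f)
    (h : SmallO p f) : Tendsto (bb p f) atTop (𝓝 0) := by
  rw [← tendsto_add_atTop_iff_nat 1, Metric.tendsto_atTop]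
  intro δ hδ
  -- choose ε with 2 ε^p < δ
  obtain ⟨ε, hε⟩ : ∃ ε : ℝ, ε = (δ / 4) ^ (1 / p) := ⟨_, rfl⟩
  have hε0 : 0 < ε := by rw [hε]; positivity
  have hεp : ε ^ p = δ / 4 := by
    rw [hε, ← Real.rpow_mul (by positivity), one_div_mul_cancel hp.ne', Real.rpow_one]
  obtain ⟨N, hN⟩ := eventually_atTop.1 (h ε hε0)
  refine ⟨N, fun n hn => ?_⟩
  have h1 := hN n hn
  have h2 := Np_diff_omega hp hf n
  have h3 : Np p (diff f (n + 1)) ≤ ε ^ p * (n : ℝ) ^ p * ((2:ℝ) ^ n) ^ (p - 1) := by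
    rw [← pow_identity hp hε0.le]
    have h4 : ENNReal.ofReal (Np p (diff f (n + 1))) ≤
        ENNReal.ofReal ((ε * n / (2:ℝ) ^ ((n : ℝ) * (1 / p - 1))) ^ p) := by
      rw [← ENNReal.ofReal_rpow_of_nonneg (by positivity) hp.le]
      exact h2.trans (ENNReal.rpow_le_rpow h1 hp.le)
    rwa [ENNReal.ofReal_le_ofReal_iff (by positivity)] at h4
  rw [Real.dist_eq, sub_zero, abs_of_nonneg (bb_nonneg p f _)]
  unfold Pool.Agent.Lib.P332aa0.bb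
  have hmax : max (n + 1) 1 = n + 1 := by omega
  rw [hmax]
  have h5 : (0:ℝ) < ((n + 1 : ℕ) : ℝ) ^ p := by positivity
  rw [div_lt_iff₀ h5]
  have h6 : ((2:ℝ) ^ (n + 1)) ^ (1 - p) ≤ 2 * ((2:ℝ) ^ n) ^ (1 - p) := by
    rw [pow_succ', Real.mul_rpow (by norm_num) (by positivity)]
    gcongr
    exact rpow_le_self_of_one_le (by linarith) (by norm_num)
  have h7 : (n : ℝ) ^ p ≤ ((n + 1 : ℕ) : ℝ) ^ p := by
    apply Real.rpow_le_rpow (Nat.cast_nonneg n) _ hp.le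
    push_cast; linarith
  have h8 : ((2:ℝ) ^ n) ^ (p - 1) * ((2:ℝ) ^ n) ^ (1 - p) = 1 := by
    rw [← Real.rpow_add (by positivity)]; simp
  calc Np p (diff f (n + 1)) * ((2:ℝ) ^ (n + 1)) ^ (1 - p)
      ≤ (ε ^ p * (n : ℝ) ^ p * ((2:ℝ) ^ n) ^ (p - 1)) * (2 * ((2:ℝ) ^ n) ^ (1 - p)) :=
        mul_le_mul h3 h6 (by positivity) (by positivity)
    _ = 2 * ε ^ p * (n : ℝ) ^ p * (((2:ℝ) ^ n) ^ (p - 1) * ((2:ℝ) ^ n) ^ (1 - p)) := by ring
    _ = 2 * ε ^ p * (n : ℝ) ^ p := by rw [h8, mul_one]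
    _ ≤ 2 * ε ^ p * ((n + 1 : ℕ) : ℝ) ^ p := by gcongr
    _ < δ * ((n + 1 : ℕ) : ℝ) ^ p := by
        rw [hεp]
        have : 2 * (δ / 4) < δ := by linarith
        exact mul_lt_mul_of_pos_right this h5

lemma SmallO.omega {p : ℝ} (hp : 0 < p) (hp1 : p < 1) {f : ℕ → G → ℂ}
    (h : SmallO p f) : Tendsto (fun n => omega p n f) atTop (𝓝 0) := by
  have hc : 0 < 1 / p - 1 := by
    rw [sub_pos, lt_div_iff₀ hp, one_mul]; exact hp1
  have h1 : Tendsto (fun n : ℕ => ENNReal.ofReal (1 * n / 2 ^ ((n : ℝ) * (1 / p - 1)))) atTop (𝓝 0) := by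
    have h2 : Tendsto (fun n : ℕ => (n : ℝ) * ((2:ℝ) ^ (-(1 / p - 1))) ^ n) atTop (𝓝 0) :=
      tendsto_self_mul_const_pow_of_lt_one (by positivity)
        (Real.rpow_lt_one_of_one_lt_of_neg (by norm_num) (by linarith))
    have h3 : Tendsto (fun n : ℕ => 1 * (n : ℝ) / 2 ^ ((n : ℝ) * (1 / p - 1))) atTop (𝓝 0) := by
      refine h2.congr fun n => ?_
      have e1 : -(1 / p - 1) * (n : ℝ) = -((n : ℝ) * (1 / p - 1)) := by ring
      rw [← Real.rpow_natCast, ← Real.rpow_mul (by norm_num), one_mul, e1,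
        Real.rpow_neg (by norm_num)]
      exact (div_eq_mul_inv _ _).symm
    have := ENNReal.tendsto_ofReal h3
    rwa [ENNReal.ofReal_zero] at this
  exact tendsto_of_tendsto_of_tendsto_of_le_of_le' tendsto_const_nhds h1
    (Filter.Eventually.of_forall fun _ => zero_le) (h 1 one_pos)

/-- the case `p < 1` in `L_p` norm -/
theorem less_main {p : ℝ} (hp : 0 < p) (hp1 : p < 1) {f : ℕ → G → ℂ} (hf : Martingale f Fil μ)
    (h : SmallO p f) :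
    ∃ F : G → ℂ, Measurable F ∧ (∀ᵐ x ∂μ, Tendsto (fun n => f n x) atTop (𝓝 (F x))) ∧
      Tendsto (fun k => ∫⁻ x, ‖L k f x - F x‖ₑ ^ p ∂μ) atTop (𝓝 0) := by
  have hm := mart_of_martingale hf
  have hω := h.omega hp hp1
  obtain ⟨F, hFm, hF⟩ := exists_limit hp hm hω
  exact ⟨F, hFm, hF, final_less hp hp1 hm (h.bb hp hp1 hm) hω hF⟩

lemma L_measurable {f : ℕ → G → ℂ} (hf : Mart f) (k : ℕ) : Measurable (L k f) :=
  (L_dep hf (Nat.lt_two_pow_self (n := k)).le).continuous.measurable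

lemma weak_of_Lp {p : ℝ} (hp : 0 < p) {f : ℕ → G → ℂ} (hf : Mart f) {F : G → ℂ}
    (hFm : Measurable F) (h : Tendsto (fun k => ∫⁻ x, ‖L k f x - F x‖ₑ ^ p ∂μ) atTop (𝓝 0)) :
    Tendsto (fun k => weakNorm p (fun x => L k f x - F x)) atTop (𝓝 0) := by
  have h1 := h.ennrpow_const (1 / p)
  rw [ENNReal.zero_rpow_of_pos (by positivity)] at h1
  exact tendsto_of_tendsto_of_tendsto_of_le_of_le tendsto_const_nhds h1 (fun _ => zero_le)
    (fun k => weak_le hp ((L_measurable hf k).sub hFm))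

end Pool.Agent.Lib.P332aa0
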