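import Pool.Agent.Lib.P332aa0.Harm

set_option autoImplicit false

open MeasureTheory Filter Topology
open scoped ENNReal NNReal

namespace Pool.Agent.Lib.P332aa0

/-- Nörlund logarithmic kernel (not normalised) -/
noncomputable def K (n : ℕ) (x : G) : ℝ := ∑ j ∈ Finset.range n, D j x / ((n : ℝ) - j)

lemma K_dep {n N : ℕ} (h : n ≤ 2 ^ N) : Dep N (K n) := by
  intro x y hxy
  unfold K
  refine Finset.sum_congr rfl fun j hj => ?_
  rw [D_dep ((Finset.mem_range.1 hj).le.trans h) x y hxy]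

lemma sum_range_mul_add {β : Type*} [AddCommMonoid β] (g : ℕ → β) (Q L r : ℕ) :
    ∑ j ∈ Finset.range (Q * L + r), g j =
      (∑ q ∈ Finset.range Q, ∑ a ∈ Finset.range L, g (q * L + a)) +
      ∑ a ∈ Finset.range r, g (Q * L + a) := by
  rw [Finset.sum_range_add]
  congr 1
  induction Q with
  | zero => simp
  | succ Q ih => rw [Nat.add_mul, one_mul, Finset.sum_range_add, ih, Finset.sum_range_succ]

lemma tent_nonneg {m a : ℕ} (ha : a ≤ 2 ^ (m + 1)) : 0 ≤ tent m a := by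
  unfold tent
  apply le_min (Nat.cast_nonneg a)
  have : (a : ℝ) ≤ 2 ^ (m + 1) := by exact_mod_cast ha
  linarith

lemma tent_le (m a : ℕ) : tent m a ≤ 2 ^ m := by
  unfold tent
  rcases le_total (a : ℝ) (2 ^ m) with h | h
  · exact (min_le_left _ _).trans h
  · refine (min_le_right _ _).trans ?_
    rw [pow_succ]; linarith

lemma tent_lip (m a b : ℕ) : |tent m a - tent m b| ≤ |(a : ℝ) - b| := by
  unfold tent
  refine (abs_min_sub_min_le_max _ _ _ _).trans ?_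
  apply max_le le_rfl
  rw [abs_sub_comm]
  apply le_of_eq
  congr 1
  ring

/-- block coefficients -/
noncomputable def A (m n q : ℕ) : ℝ :=
  ∑ a ∈ Finset.range (2 ^ (m + 1)), tent m a / ((n : ℝ) - ((q * 2 ^ (m + 1) + a : ℕ) : ℝ))

/-- last block coefficient -/
noncomputable def B (m n : ℕ) : ℝ :=
  ∑ a ∈ Finset.range (n % 2 ^ (m + 1)), tent m a / (((n % 2 ^ (m + 1) : ℕ) : ℝ) - a)

lemma K_of_J {m n : ℕ} {x : G} (hx : x ∈ J m) :
    K n x = (∑ q ∈ Finset.range (n / 2 ^ (m + 1)), w (q * 2 ^ (m + 1)) x * A m n q) +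
      w (n / 2 ^ (m + 1) * 2 ^ (m + 1)) x * B m n := by
  have hn : n = n / 2 ^ (m + 1) * 2 ^ (m + 1) + n % 2 ^ (m + 1) := (Nat.div_add_mod' _ _).symm
  have hmod : n % 2 ^ (m + 1) < 2 ^ (m + 1) := Nat.mod_lt _ (Nat.two_pow_pos _)
  have h1 : K n x = ∑ j ∈ Finset.range (n / 2 ^ (m + 1) * 2 ^ (m + 1) + n % 2 ^ (m + 1)),
      D j x / ((n : ℝ) - j) := by
    unfold K
    rw [← hn]
  rw [h1, sum_range_mul_add]
  congr 1
  · refine Finset.sum_congr rfl fun q _ => ?_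
    unfold A
    rw [Finset.mul_sum]
    refine Finset.sum_congr rfl fun a ha => ?_
    rw [D_of_J (Finset.mem_range.1 ha).le hx]
    ring
  · unfold B
    rw [Finset.mul_sum]
    refine Finset.sum_congr rfl fun a ha => ?_
    rw [D_of_J ((Finset.mem_range.1 ha).le.trans hmod.le) hx]
    have h2 : (n : ℝ) - ((n / 2 ^ (m + 1) * 2 ^ (m + 1) + a : ℕ) : ℝ) =
        ((n % 2 ^ (m + 1) : ℕ) : ℝ) - a := by
      have : (n : ℝ) = ((n / 2 ^ (m + 1) * 2 ^ (m + 1) + n % 2 ^ (m + 1) : ℕ) : ℝ) := by rw [← hn]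
      rw [this]; push_cast; ring
    rw [h2]
    ring

/-- far part of the kernel -/
noncomputable def far (m n : ℕ) (x : G) : ℝ :=
  ∑ q ∈ Finset.range (n / 2 ^ (m + 1) - 1), w (q * 2 ^ (m + 1)) x * A m n q

lemma A_denom {m n q a : ℕ} (hq : q < n / 2 ^ (m + 1)) (ha : a < 2 ^ (m + 1)) :
    ((n / 2 ^ (m + 1) - q - 1 : ℕ) : ℝ) * 2 ^ (m + 1) + (2 ^ (m + 1) - a) ≤
      (n : ℝ) - ((q * 2 ^ (m + 1) + a : ℕ) : ℝ) := by
  have hn : n = n / 2 ^ (m + 1) * 2 ^ (m + 1) + n % 2 ^ (m + 1) := (Nat.div_add_mod' _ _).symm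
  have h1 : (n : ℝ) = ((n / 2 ^ (m + 1) : ℕ) : ℝ) * 2 ^ (m + 1) + ((n % 2 ^ (m + 1) : ℕ) : ℝ) := by
    have : (n : ℝ) = ((n / 2 ^ (m + 1) * 2 ^ (m + 1) + n % 2 ^ (m + 1) : ℕ) : ℝ) := by rw [← hn]
    rw [this]; push_cast; ring
  have h2 : ((n / 2 ^ (m + 1) - q - 1 : ℕ) : ℝ) = ((n / 2 ^ (m + 1) : ℕ) : ℝ) - q - 1 := by
    rw [Nat.cast_sub (by omega), Nat.cast_sub (by omega)]; simp
  rw [h2, h1]
  have : (0:ℝ) ≤ ((n % 2 ^ (m + 1) : ℕ) : ℝ) := Nat.cast_nonneg _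
  push_cast
  nlinarith

lemma A_nonneg {m n q : ℕ} (hq : q < n / 2 ^ (m + 1)) : 0 ≤ A m n q := by
  unfold A
  apply Finset.sum_nonneg
  intro a ha
  have ha' := Finset.mem_range.1 ha
  apply div_nonneg (tent_nonneg ha'.le)
  refine le_trans ?_ (A_denom hq ha')
  have : (a : ℝ) ≤ 2 ^ (m + 1) := by exact_mod_cast ha'.le
  have h2 : (0:ℝ) ≤ ((n / 2 ^ (m + 1) - q - 1 : ℕ) : ℝ) * 2 ^ (m + 1) := by positivity
  linarith

lemma A_le_far {m n q : ℕ} (hq : q + 1 < n / 2 ^ (m + 1)) :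
    A m n q ≤ 2 ^ m * (1 / ((n / 2 ^ (m + 1) - q - 1 : ℕ) : ℝ)) := by
  have hpos : (0 : ℝ) < ((n / 2 ^ (m + 1) - q - 1 : ℕ) : ℝ) := by
    have : 0 < n / 2 ^ (m + 1) - q - 1 := by omega
    exact_mod_cast this
  unfold A
  calc ∑ a ∈ Finset.range (2 ^ (m + 1)), tent m a / ((n : ℝ) - ((q * 2 ^ (m + 1) + a : ℕ) : ℝ))
      ≤ ∑ a ∈ Finset.range (2 ^ (m + 1)),
        2 ^ m / (((n / 2 ^ (m + 1) - q - 1 : ℕ) : ℝ) * 2 ^ (m + 1)) := by
        apply Finset.sum_le_sum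
        intro a ha
        have ha' := Finset.mem_range.1 ha
        have h1 := A_denom (m := m) (n := n) (q := q) (by omega) ha'
        have h2 : (a : ℝ) ≤ 2 ^ (m + 1) := by exact_mod_cast ha'.le
        apply div_le_div₀ (by positivity) (tent_le m a) (by positivity)
        linarith
    _ = 2 ^ m * (1 / ((n / 2 ^ (m + 1) - q - 1 : ℕ) : ℝ)) := by
        rw [Finset.sum_const, Finset.card_range, nsmul_eq_mul]
        push_cast
        field_simp

lemma A_le_near {m n q : ℕ} (hq : q < n / 2 ^ (m + 1)) : A m n q ≤ 2 ^ (m + 1) := by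
  unfold A
  calc ∑ a ∈ Finset.range (2 ^ (m + 1)), tent m a / ((n : ℝ) - ((q * 2 ^ (m + 1) + a : ℕ) : ℝ))
      ≤ ∑ a ∈ Finset.range (2 ^ (m + 1)), (1 : ℝ) := by
        apply Finset.sum_le_sum
        intro a ha
        have ha' := Finset.mem_range.1 ha
        have h1 := A_denom hq ha'
        have h2 : (a : ℝ) < 2 ^ (m + 1) := by exact_mod_cast ha'
        have h3 : (0:ℝ) ≤ ((n / 2 ^ (m + 1) - q - 1 : ℕ) : ℝ) * 2 ^ (m + 1) := by positivity
        rw [div_le_one (by linarith)]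
        have : tent m a ≤ 2 ^ (m + 1) - a := min_le_right _ _
        linarith
    _ = 2 ^ (m + 1) := by
        rw [Finset.sum_const, Finset.card_range, nsmul_eq_mul]; push_cast; ring

lemma B_sub_le (m n : ℕ) :
    |B m n - tent m (n % 2 ^ (m + 1)) * l (n % 2 ^ (m + 1))| ≤ 2 ^ (m + 1) := by
  obtain ⟨r, hr⟩ : ∃ r, r = n % 2 ^ (m + 1) := ⟨_, rfl⟩
  have hmod : n % 2 ^ (m + 1) < 2 ^ (m + 1) := Nat.mod_lt _ (Nat.two_pow_pos _)
  unfold B
  rw [← hr] at hmod ⊢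
  rw [← sum_reflect, Finset.mul_sum, ← Finset.sum_sub_distrib]
  refine (Finset.abs_sum_le_sum_abs _ _).trans ?_
  calc ∑ a ∈ Finset.range r, |tent m a / ((r : ℝ) - a) - tent m r * (1 / ((r : ℝ) - a))|
      ≤ ∑ a ∈ Finset.range r, (1 : ℝ) := by
        apply Finset.sum_le_sum
        intro a ha
        have ha' : (a : ℝ) < r := by exact_mod_cast Finset.mem_range.1 ha
        have h1 : tent m a / ((r : ℝ) - a) - tent m r * (1 / ((r : ℝ) - a)) =
            (tent m a - tent m r) / ((r : ℝ) - a) := by ring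
        have hpos : 0 < (r : ℝ) - a := by linarith
        rw [h1, abs_div, abs_of_pos hpos, div_le_one hpos]
        refine (tent_lip m a r).trans ?_
        rw [abs_sub_comm, abs_of_pos hpos]
    _ = r := by simp
    _ ≤ 2 ^ (m + 1) := by exact_mod_cast hmod.le

lemma K_sub_far {m n : ℕ} {x : G} (hx : x ∈ J m) :
    |K n x - far m n x - D n x * l (n % 2 ^ (m + 1))| ≤ 2 ^ (m + 2) := by
  have hn : n = n / 2 ^ (m + 1) * 2 ^ (m + 1) + n % 2 ^ (m + 1) := (Nat.div_add_mod' _ _).symm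
  have hmod : n % 2 ^ (m + 1) < 2 ^ (m + 1) := Nat.mod_lt _ (Nat.two_pow_pos _)
  have hD : D n x = w (n / 2 ^ (m + 1) * 2 ^ (m + 1)) x * tent m (n % 2 ^ (m + 1)) := by
    conv_lhs => rw [hn]
    exact D_of_J hmod.le hx
  have h2 : (2:ℝ) ^ (m + 2) = 2 ^ (m + 1) + 2 ^ (m + 1) := by ring
  rw [K_of_J hx, hD, h2]
  unfold far
  rcases Nat.eq_zero_or_pos (n / 2 ^ (m + 1)) with h0 | h0
  · rw [h0]
    simp only [Finset.range_zero, Finset.sum_empty, zero_tsub, zero_mul, zero_add, sub_zero]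
    rw [w_zero]
    have h3 := B_sub_le m n
    have h4 : (1 : ℝ) * B m n - 1 * tent m (n % 2 ^ (m + 1)) * l (n % 2 ^ (m + 1)) =
        B m n - tent m (n % 2 ^ (m + 1)) * l (n % 2 ^ (m + 1)) := by ring
    rw [h4]
    have : (0:ℝ) < 2 ^ (m + 1) := by positivity
    linarith
  · obtain ⟨Q, hQ⟩ : ∃ Q, n / 2 ^ (m + 1) = Q + 1 := ⟨n / 2 ^ (m + 1) - 1, by omega⟩
    have hA := A_le_near (m := m) (n := n) (q := Q) (by omega)
    have hA0 := A_nonneg (m := m) (n := n) (q := Q) (by omega)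
    rw [hQ, Nat.add_sub_cancel, Finset.sum_range_succ]
    have h5 : (∑ x_1 ∈ Finset.range Q, w (x_1 * 2 ^ (m + 1)) x * A m n x_1) +
        w (Q * 2 ^ (m + 1)) x * A m n Q + w ((Q + 1) * 2 ^ (m + 1)) x * B m n -
        (∑ q ∈ Finset.range Q, w (q * 2 ^ (m + 1)) x * A m n q) -
        w ((Q + 1) * 2 ^ (m + 1)) x * tent m (n % 2 ^ (m + 1)) * l (n % 2 ^ (m + 1)) =
        w (Q * 2 ^ (m + 1)) x * A m n Q + w ((Q + 1) * 2 ^ (m + 1)) x *
        (B m n - tent m (n % 2 ^ (m + 1)) * l (n % 2 ^ (m + 1))) := by ring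
    rw [h5]
    refine (abs_add_le _ _).trans ?_
    rw [abs_mul, abs_mul, w_abs, w_abs, one_mul, one_mul, abs_of_nonneg hA0]
    exact add_le_add hA (B_sub_le m n)

lemma abs_D_le {m n : ℕ} {x : G} (hx : x ∈ J m) : |D n x| ≤ 2 ^ m := by
  have hn : n = n / 2 ^ (m + 1) * 2 ^ (m + 1) + n % 2 ^ (m + 1) := (Nat.div_add_mod' _ _).symm
  have hmod : n % 2 ^ (m + 1) < 2 ^ (m + 1) := Nat.mod_lt _ (Nat.two_pow_pos _)
  have hD : D n x = w (n / 2 ^ (m + 1) * 2 ^ (m + 1)) x * tent m (n % 2 ^ (m + 1)) := by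
    conv_lhs => rw [hn]
    exact D_of_J hmod.le hx
  rw [hD, abs_mul, w_abs, one_mul, abs_of_nonneg (tent_nonneg hmod.le)]
  exact tent_le _ _

lemma l_mod_le (m n : ℕ) : l (n % 2 ^ (m + 1)) ≤ m + 2 := by
  have hmod : n % 2 ^ (m + 1) < 2 ^ (m + 1) := Nat.mod_lt _ (Nat.two_pow_pos _)
  refine (l_mono hmod.le).trans ((l_two_pow_le _).trans ?_)
  push_cast; linarith

lemma K_near_bound {m n : ℕ} {x : G} (hx : x ∈ J m) :
    |K n x - far m n x| ≤ 2 ^ m * (m + 6) := by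
  have h1 := K_sub_far (n := n) hx
  have h2 : |D n x * l (n % 2 ^ (m + 1))| ≤ 2 ^ m * (m + 2) := by
    rw [abs_mul, abs_of_nonneg (l_nonneg _)]
    exact mul_le_mul (abs_D_le hx) (l_mod_le m n) (l_nonneg _) (by positivity)
  have h3 : K n x - far m n x = (K n x - far m n x - D n x * l (n % 2 ^ (m + 1))) +
      D n x * l (n % 2 ^ (m + 1)) := by ring
  rw [h3]
  refine (abs_add_le _ _).trans ?_
  have h4 : (2:ℝ) ^ (m + 2) = 2 ^ m * 4 := by ring
  rw [h4] at h1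
  nlinarith

lemma abs_K_le_of_mem {n M : ℕ} (hn : n ≤ 2 ^ M) {x : G} (hx : ∀ j < M, x j = 0) :
    |K n x| ≤ n * l n := by
  unfold K
  refine (Finset.abs_sum_le_sum_abs _ _).trans ?_
  rw [← sum_reflect, Finset.mul_sum]
  apply Finset.sum_le_sum
  intro j hj
  have hj' := Finset.mem_range.1 hj
  have h1 : (j : ℝ) < n := by exact_mod_cast hj'
  rw [D_of_mem (hj'.le.trans hn) hx, abs_of_nonneg (by apply div_nonneg (Nat.cast_nonneg _); linarith),
    div_eq_mul_one_div]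
  have : 0 ≤ 1 / ((n : ℝ) - j) := by apply div_nonneg zero_le_one; linarith
  gcongr

end Pool.Agent.Lib.P332aa0
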