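import Pool.Agent.Lib.P332aa0.L2

set_option autoImplicit false

open MeasureTheory Filter Topology
open scoped ENNReal NNReal

namespace Pool.Agent.Lib.P332aa0

lemma rpow_split {p c y : ℝ} (hp : 0 < p) (hp1 : p < 1) (hc : 0 < c) (hy : 0 ≤ y) :
    y ^ p ≤ c ^ p + c ^ (p - 2) * y ^ 2 := by
  rcases le_or_gt y c with h | h
  · have h1 : y ^ p ≤ c ^ p := Real.rpow_le_rpow hy h hp.le
    have h2 : 0 ≤ c ^ (p - 2) * y ^ 2 := by positivity
    linarith
  · have hy0 : 0 < y := hc.trans h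
    have h1 : y ^ p = y ^ (p - 2) * y ^ 2 := by
      rw [← Real.rpow_natCast y 2, ← Real.rpow_add hy0]
      congr 1; push_cast; ring
    have h2 : y ^ (p - 2) ≤ c ^ (p - 2) :=
      Real.rpow_le_rpow_of_nonpos hc h.le (by linarith)
    have h3 : 0 ≤ c ^ p := by positivity
    have h4 : y ^ (p - 2) * y ^ 2 ≤ c ^ (p - 2) * y ^ 2 := by gcongr
    linarith

/-- summable majorant -/
noncomputable def maj (p : ℝ) (m : ℕ) : ℝ := (2 ^ (p - 1) : ℝ) ^ m * (m + 8)

lemma summable_maj {p : ℝ} (hp1 : p < 1) : Summable (maj p) := by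
  have h0 : (0:ℝ) < 2 ^ (p - 1) := by positivity
  have h1 : (2:ℝ) ^ (p - 1) < 1 := Real.rpow_lt_one_of_one_lt_of_neg (by norm_num) (by linarith)
  have hn : ‖(2:ℝ) ^ (p - 1)‖ < 1 := by rwa [Real.norm_eq_abs, abs_of_pos h0]
  have s1 := summable_pow_mul_geometric_of_norm_lt_one 1 hn
  have s2 := (summable_geometric_of_norm_lt_one hn).mul_left 8
  refine (s1.add s2).congr fun m => ?_
  unfold maj
  rw [pow_one]; ring

lemma maj_nonneg (p : ℝ) (m : ℕ) : 0 ≤ maj p m := by unfold maj; positivity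

lemma two_pow_rpow (p : ℝ) (m : ℕ) : ((2:ℝ) ^ m) ^ (p - 1) = (2 ^ (p - 1) : ℝ) ^ m := by
  rw [← Real.rpow_natCast 2 m, ← Real.rpow_mul (by norm_num), mul_comm, Real.rpow_mul (by norm_num),
    Real.rpow_natCast]

lemma rpow_factor (p : ℝ) (m : ℕ) :
    ((2:ℝ) ^ m)⁻¹ * ((2:ℝ) ^ m) ^ p = (2 ^ (p - 1) : ℝ) ^ m := by
  have h0 : (0:ℝ) < 2 ^ m := by positivity
  rw [← two_pow_rpow, ← Real.rpow_neg_one, ← Real.rpow_add h0]
  congr 1; ring

lemma rpow_le_self_of_one_le {p y : ℝ} (hp : p ≤ 1) (hy : 1 ≤ y) : y ^ p ≤ y := by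
  calc y ^ p ≤ y ^ (1:ℝ) := Real.rpow_le_rpow_of_exponent_le hy hp
    _ = y := Real.rpow_one y

lemma K_integrable_rpow (n : ℕ) {p : ℝ} : Integrable (fun x => |K n x| ^ p) μ :=
  ((K_dep (Nat.lt_two_pow_self (n := n)).le).comp (fun y => |y| ^ p)).integrable

lemma K_J_rpow {p : ℝ} (hp : 0 < p) (hp1 : p < 1) (m n : ℕ) :
    ∫ x in J m, |K n x| ^ p ∂μ ≤ maj p m := by
  have hpt : ∀ x ∈ J m, |K n x| ^ p ≤
      ((2 ^ m) ^ p + (2 ^ m) ^ p * (m + 6)) + (2 ^ m : ℝ) ^ (p - 2) * far m n x ^ 2 := by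
    intro x hx
    have h1 := K_near_bound (n := n) hx
    have h2 : |K n x| ≤ |far m n x| + 2 ^ m * (m + 6) := by
      have : K n x = far m n x + (K n x - far m n x) := by ring
      rw [this]
      exact (abs_add_le _ _).trans (by linarith)
    have h3 : |K n x| ^ p ≤ |far m n x| ^ p + (2 ^ m * ((m : ℝ) + 6)) ^ p := by
      refine (Real.rpow_le_rpow (abs_nonneg _) h2 hp.le).trans ?_
      exact Real.rpow_add_le_add_rpow (abs_nonneg _) (by positivity) hp.le hp1.le
    have h4 := rpow_split hp hp1 (c := 2 ^ m) (by positivity) (abs_nonneg (far m n x))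
    rw [sq_abs] at h4
    have h5 : (2 ^ m * ((m : ℝ) + 6)) ^ p ≤ (2 ^ m) ^ p * (m + 6) := by
      rw [Real.mul_rpow (by positivity) (by positivity)]
      gcongr
      apply rpow_le_self_of_one_le hp1.le
      have : (0:ℝ) ≤ m := Nat.cast_nonneg m
      linarith
    linarith
  have hfar : Integrable (fun x => (2 ^ m : ℝ) ^ (p - 2) * far m n x ^ 2) μ :=
    ((far_dep m n).comp (fun y => (2 ^ m : ℝ) ^ (p - 2) * y ^ 2)).integrable
  calc ∫ x in J m, |K n x| ^ p ∂μ
      ≤ ∫ x in J m, ((((2 ^ m : ℝ) ^ p + (2 ^ m) ^ p * (m + 6))) +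
          (2 ^ m : ℝ) ^ (p - 2) * far m n x ^ 2) ∂μ := by
        apply setIntegral_mono_on (K_integrable_rpow n).integrableOn _ (measurable_J m) hpt
        exact ((integrable_const _).add hfar).integrableOn
    _ = (2 ^ (m + 1))⁻¹ * ((2 ^ m) ^ p + (2 ^ m) ^ p * (m + 6)) +
        (2 ^ m : ℝ) ^ (p - 2) * ∫ x in J m, far m n x ^ 2 ∂μ := by
        rw [integral_add (integrable_const _) hfar.integrableOn, setIntegral_const, measureReal_J,
          smul_eq_mul, integral_const_mul]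
    _ ≤ (2 ^ (m + 1))⁻¹ * ((2 ^ m) ^ p + (2 ^ m) ^ p * (m + 6)) +
        (2 ^ m : ℝ) ^ (p - 2) * 2 ^ m := by
        gcongr
        exact far_L2 m n
    _ ≤ maj p m := by
        have h6 : (2 ^ m : ℝ) ^ (p - 2) * 2 ^ m = (2 ^ (p - 1) : ℝ) ^ m := by
          rw [← two_pow_rpow]
          nth_rewrite 2 [← Real.rpow_one ((2:ℝ) ^ m)]
          rw [← Real.rpow_add (by positivity)]
          congr 1; ring
        have h7 : ((2:ℝ) ^ (m + 1))⁻¹ = 2⁻¹ * (2 ^ m)⁻¹ := by rw [pow_succ, mul_inv, mul_comm]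
        have h8 := rpow_factor p m
        rw [h6, h7]
        unfold maj
        have h9 : 2⁻¹ * ((2:ℝ) ^ m)⁻¹ * ((2 ^ m) ^ p + (2 ^ m) ^ p * (m + 6)) =
            2⁻¹ * (((2:ℝ) ^ m)⁻¹ * (2 ^ m) ^ p) * (m + 7) := by ring
        rw [h9, h8]
        have h10 : (0:ℝ) < (2 ^ (p - 1) : ℝ) ^ m := by positivity
        have h11 : (0:ℝ) ≤ m := Nat.cast_nonneg m
        nlinarith

/-- kernel bound in `L_p`, `p < 1` -/
theorem K_rpow_le {p : ℝ} (hp : 0 < p) (hp1 : p < 1) (n : ℕ) :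
    ∫ x, |K n x| ^ p ∂μ ≤ ∑' m, maj p m := by
  have hn : n ≤ 2 ^ n := Nat.lt_two_pow_self.le
  rw [integral_decomp (K_integrable_rpow n) n]
  have h1 : ∫ x in I n 0, |K n x| ^ p ∂μ ≤ maj p n := by
    have hpt : ∀ x ∈ I n 0, |K n x| ^ p ≤ (2 ^ n) ^ p * (n + 1) := by
      intro x hx
      have h2 := abs_K_le_of_mem hn (x := x) hx
      have h3 : l n ≤ n + 1 := (l_mono hn).trans (l_two_pow_le n)
      have h4 : |K n x| ≤ 2 ^ n * (n + 1) := by
        refine h2.trans (mul_le_mul ?_ h3 (l_nonneg n) (by positivity))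
        exact_mod_cast hn
      refine (Real.rpow_le_rpow (abs_nonneg _) h4 hp.le).trans ?_
      rw [Real.mul_rpow (by positivity) (by positivity)]
      gcongr
      apply rpow_le_self_of_one_le hp1.le
      have : (0:ℝ) ≤ n := Nat.cast_nonneg n
      linarith
    calc ∫ x in I n 0, |K n x| ^ p ∂μ ≤ ∫ x in I n 0, ((2:ℝ) ^ n) ^ p * (n + 1) ∂μ := by
          apply setIntegral_mono_on (K_integrable_rpow n).integrableOn _ (measurable_I n 0) hpt
          exact (integrable_const _).integrableOn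
      _ = (2 ^ (p - 1) : ℝ) ^ n * (n + 1) := by
          rw [setIntegral_const, measureReal_I, smul_eq_mul, ← mul_assoc, rpow_factor]
      _ ≤ maj p n := by
          unfold maj
          gcongr
          norm_num
  calc _ ≤ ∑ m ∈ Finset.range n, maj p m + maj p n := by
        gcongr with m _
        exact K_J_rpow hp hp1 m n
    _ = ∑ m ∈ Finset.range (n + 1), maj p m := by rw [Finset.sum_range_succ]
    _ ≤ ∑' m, maj p m := (summable_maj hp1).sum_le_tsum _ fun m _ => maj_nonneg p m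

/-- residual kernel -/
noncomputable def R (M k : ℕ) (x : G) : ℝ :=
  ∑ j ∈ Finset.range (2 ^ M), (D (2 ^ M) x - D j x) / ((k : ℝ) - j)

lemma R_dep (M k : ℕ) : Dep M (R M k) := by
  intro x y hxy
  unfold R
  refine Finset.sum_congr rfl fun j hj => ?_
  rw [D_dep ((Finset.mem_range.1 hj).le) x y hxy, D_dep (le_refl _) x y hxy]

lemma abs_R_le {M k : ℕ} (hk : 2 ^ (M + 1) ≤ k) {x : G} {c : ℝ}
    (hD : ∀ j ≤ 2 ^ M, |D j x| ≤ c) : |R M k x| ≤ 4 * (2 ^ M / k) * c := by
  have hc : 0 ≤ c := (abs_nonneg _).trans (hD 0 (Nat.zero_le _))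
  have hk' : (2:ℝ) ^ (M + 1) ≤ k := by exact_mod_cast hk
  have hk0 : (0:ℝ) < k := lt_of_lt_of_le (by positivity) hk'
  unfold R
  refine (Finset.abs_sum_le_sum_abs _ _).trans ?_
  calc ∑ j ∈ Finset.range (2 ^ M), |(D (2 ^ M) x - D j x) / ((k : ℝ) - j)|
      ≤ ∑ j ∈ Finset.range (2 ^ M), (2 * c) / (k / 2) := by
        apply Finset.sum_le_sum
        intro j hj
        have hj' := Finset.mem_range.1 hj
        have h1 : (j : ℝ) < 2 ^ M := by exact_mod_cast hj'
        have h2 : (k : ℝ) / 2 ≤ k - j := by rw [pow_succ] at hk'; linarith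
        have h3 : (0:ℝ) < k - j := by linarith
        rw [abs_div, abs_of_pos h3]
        apply div_le_div₀ (by positivity) _ (by positivity) h2
        have h4 := hD _ (le_refl (2 ^ M))
        have h5 := hD j hj'.le
        refine (abs_sub _ _).trans ?_
        linarith
    _ = 4 * (2 ^ M / k) * c := by
        rw [Finset.sum_const, Finset.card_range, nsmul_eq_mul]
        push_cast
        field_simp
        ring

lemma R_rpow_le {p : ℝ} (hp : 0 < p) (hp1 : p < 1) {M k : ℕ} (hk : 2 ^ (M + 1) ≤ k) :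
    ∫ x, |R M k x| ^ p ∂μ ≤ (4 * (2 ^ M / k)) ^ p * ∑' m, maj p m := by
  have hi : Integrable (fun x => |R M k x| ^ p) μ := ((R_dep M k).comp (fun y => |y| ^ p)).integrable
  obtain ⟨c, hc⟩ : ∃ c : ℝ, c = 4 * (2 ^ M / k) := ⟨_, rfl⟩
  have hc0 : 0 ≤ c := by rw [hc]; positivity
  rw [← hc, integral_decomp hi M]
  have hJ : ∀ m ∈ Finset.range M, ∫ x in J m, |R M k x| ^ p ∂μ ≤ c ^ p * maj p m := by
    intro m _
    calc ∫ x in J m, |R M k x| ^ p ∂μ ≤ ∫ x in J m, c ^ p * ((2:ℝ) ^ m) ^ p ∂μ := by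
          apply setIntegral_mono_on hi.integrableOn (integrable_const _).integrableOn
            (measurable_J m)
          intro x hx
          rw [← Real.mul_rpow hc0 (by positivity)]
          apply Real.rpow_le_rpow (abs_nonneg _) _ hp.le
          rw [hc]
          exact abs_R_le hk fun j _ => abs_D_le hx
      _ = c ^ p * (2⁻¹ * (2 ^ (p - 1) : ℝ) ^ m) := by
          rw [setIntegral_const, measureReal_J, smul_eq_mul, ← rpow_factor, pow_succ, mul_inv]
          ring
      _ ≤ c ^ p * maj p m := by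
          gcongr
          unfold maj
          have h10 : (0:ℝ) < (2 ^ (p - 1) : ℝ) ^ m := by positivity
          have h11 : (0:ℝ) ≤ m := Nat.cast_nonneg m
          nlinarith
  have hI : ∫ x in I M 0, |R M k x| ^ p ∂μ ≤ c ^ p * maj p M := by
    calc ∫ x in I M 0, |R M k x| ^ p ∂μ ≤ ∫ x in I M 0, c ^ p * ((2:ℝ) ^ M) ^ p ∂μ := by
          apply setIntegral_mono_on hi.integrableOn (integrable_const _).integrableOn
            (measurable_I M 0)
          intro x hx
          rw [← Real.mul_rpow hc0 (by positivity)]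
          apply Real.rpow_le_rpow (abs_nonneg _) _ hp.le
          rw [hc]
          refine abs_R_le hk fun j hj => ?_
          rw [D_of_mem hj hx, abs_of_nonneg (Nat.cast_nonneg _)]
          exact_mod_cast hj
      _ = c ^ p * ((2 ^ (p - 1) : ℝ) ^ M) := by
          rw [setIntegral_const, measureReal_I, smul_eq_mul, ← rpow_factor]
          ring
      _ ≤ c ^ p * maj p M := by
          gcongr
          unfold maj
          have h10 : (0:ℝ) < (2 ^ (p - 1) : ℝ) ^ M := by positivity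
          have h11 : (0:ℝ) ≤ M := Nat.cast_nonneg M
          nlinarith
  calc _ ≤ ∑ m ∈ Finset.range M, c ^ p * maj p m + c ^ p * maj p M :=
        add_le_add (Finset.sum_le_sum hJ) hI
    _ = c ^ p * ∑ m ∈ Finset.range (M + 1), maj p m := by
        rw [Finset.sum_range_succ, mul_add, Finset.mul_sum]
    _ ≤ c ^ p * ∑' m, maj p m := by
        gcongr
        exact (summable_maj hp1).sum_le_tsum _ fun m _ => maj_nonneg p m

end Pool.Agent.Lib.P332aa0
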