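import Pool.Agent.Lib.P332aa0.Kernel

set_option autoImplicit false

open MeasureTheory Filter Topology
open scoped ENNReal NNReal

namespace Pool.Agent.Lib.P332aa0

lemma J_eq (m : ℕ) : J m = I (m + 1) (e m) := by
  ext x
  constructor
  · rintro ⟨h1, h2⟩ j hj
    rcases Nat.lt_succ_iff_lt_or_eq.1 hj with h | h
    · rw [h1 j h, e_ne h.ne]
    · rw [h, h2, e_self]
  · intro h
    refine ⟨fun j hj => ?_, ?_⟩
    · rw [h j (by omega), e_ne hj.ne]
    · rw [h m (by omega), e_self]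

lemma measurable_J (m : ℕ) : MeasurableSet (J m) := by rw [J_eq]; exact measurable_I _ _

lemma measureReal_J (m : ℕ) : μ.real (J m) = (2 ^ (m + 1))⁻¹ := by rw [J_eq, measureReal_I]

lemma I_zero_succ (m : ℕ) : I m 0 = I (m + 1) 0 ∪ J m := by
  rw [I_succ, J_eq, zero_add]; rfl

lemma disj_J (m : ℕ) : Disjoint (I (m + 1) 0) (J m) := by
  rw [Set.disjoint_left]
  intro x hx hx'
  have h1 : x m = 0 := hx m (by omega)
  rw [hx'.2] at h1
  exact absurd h1 (by decide)

lemma integral_decomp {h : G → ℝ} (hi : Integrable h μ) (M : ℕ) :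
    ∫ x, h x ∂μ = (∑ m ∈ Finset.range M, ∫ x in J m, h x ∂μ) + ∫ x in I M 0, h x ∂μ := by
  induction M with
  | zero =>
    have : I 0 0 = (Set.univ : Set G) := by ext y; simp [I]
    rw [this]; simp
  | succ M ih =>
    rw [ih, Finset.sum_range_succ, I_zero_succ, setIntegral_union (disj_J M) (measurable_J M)
      hi.integrableOn hi.integrableOn]
    ring

lemma w_e (n j : ℕ) : w n (e j) = if n.testBit j = true then -1 else 1 := by
  obtain ⟨N, hN⟩ : ∃ N, n + j < N := ⟨n + j + 1, by omega⟩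
  have hnN : n < 2 ^ N := lt_of_lt_of_le (by omega : n < N) (Nat.lt_two_pow_self).le
  rw [w_eq_prod hnN, Finset.prod_eq_single j]
  · unfold sg; rw [e_self]; simp
  · intro k _ hk
    unfold sg
    rw [e_ne hk]
    simp
  · intro h
    exact absurd (Finset.mem_range.2 (by omega)) h

lemma J_flip {m j : ℕ} (h : m < j) (x : G) : x + e j ∈ J m ↔ x ∈ J m := by
  unfold J
  simp only [Set.mem_ofPred_eq, Pi.add_apply]
  have h1 : ∀ i, i ≤ m → e j i = 0 := fun i hi => e_ne (by omega)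
  constructor
  · rintro ⟨h2, h3⟩
    refine ⟨fun i hi => ?_, ?_⟩
    · have := h2 i hi; rwa [h1 i hi.le, add_zero] at this
    · rwa [h1 m le_rfl, add_zero] at h3
  · rintro ⟨h2, h3⟩
    refine ⟨fun i hi => ?_, ?_⟩
    · rw [h1 i hi.le, add_zero]; exact h2 i hi
    · rw [h1 m le_rfl, add_zero]; exact h3

lemma testBit_mul_two_pow (q m k : ℕ) : (q * 2 ^ m).testBit (m + k) = q.testBit k := by
  have := Nat.testBit_two_pow_mul_add q (Nat.two_pow_pos m) (m + k)
  rw [add_zero, mul_comm] at this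
  rw [this, if_neg (by omega), Nat.add_sub_cancel_left]

lemma w_integrable (n : ℕ) : Integrable (w n) μ := (w_dep (Nat.lt_two_pow_self)).integrable

lemma w_mul_dep (a b : ℕ) : Dep (a + b) (fun x => w a x * w b x) := by
  apply Dep.comp₂ (F := fun s t => s * t)
  · exact w_dep (lt_of_lt_of_le Nat.lt_two_pow_self (Nat.pow_le_pow_right (by norm_num) (by omega)))
  · exact w_dep (lt_of_lt_of_le Nat.lt_two_pow_self (Nat.pow_le_pow_right (by norm_num) (by omega)))

lemma orth_J {m q q' : ℕ} (h : q ≠ q') :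
    ∫ x in J m, w (q * 2 ^ (m + 1)) x * w (q' * 2 ^ (m + 1)) x ∂μ = 0 := by
  obtain ⟨k, hk⟩ : ∃ k, q.testBit k ≠ q'.testBit k := by
    by_contra hcon
    push Not at hcon
    exact h (Nat.eq_of_testBit_eq hcon)
  rw [← integral_indicator (measurable_J m)]
  obtain ⟨H, hH⟩ : ∃ H : G → ℝ, H = (J m).indicator (fun x => w (q * 2 ^ (m + 1)) x *
    w (q' * 2 ^ (m + 1)) x) := ⟨_, rfl⟩
  rw [← hH]
  have h1 : ∀ x, H (x + e (m + 1 + k)) = -H x := by
    intro x
    rw [hH]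
    by_cases hx : x ∈ J m
    · rw [Set.indicator_of_mem hx, Set.indicator_of_mem ((J_flip (by omega) x).2 hx),
        w_add, w_add, w_e, w_e, testBit_mul_two_pow, testBit_mul_two_pow]
      rcases hb : q.testBit k with _ | _ <;> rcases hb' : q'.testBit k with _ | _ <;>
        simp_all
    · rw [Set.indicator_of_notMem hx, Set.indicator_of_notMem
        (fun h => hx ((J_flip (by omega) x).1 h)), neg_zero]
  have h2 := integral_shift H (e (m + 1 + k))
  simp_rw [h1] at h2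
  rw [integral_neg] at h2
  linarith

lemma far_dep (m n : ℕ) : Dep ((n / 2 ^ (m + 1)) * 2 ^ (m + 1)) (far m n) := by
  intro x y hxy
  unfold far
  refine Finset.sum_congr rfl fun q hq => ?_
  have hq' := Finset.mem_range.1 hq
  rw [w_dep (N := (n / 2 ^ (m + 1)) * 2 ^ (m + 1)) _ x y hxy]
  have h1 : q * 2 ^ (m + 1) < (n / 2 ^ (m + 1)) * 2 ^ (m + 1) :=
    Nat.mul_lt_mul_of_pos_right (by omega) (Nat.two_pow_pos _)
  exact h1.trans Nat.lt_two_pow_self

lemma sq_sum_le {m n : ℕ} :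
    ∑ q ∈ Finset.range (n / 2 ^ (m + 1) - 1), A m n q ^ 2 ≤ 2 * (2 ^ m) ^ 2 := by
  obtain ⟨Q, hQ⟩ : ∃ Q, Q = n / 2 ^ (m + 1) - 1 := ⟨_, rfl⟩
  have h1 : ∀ q ∈ Finset.range (n / 2 ^ (m + 1) - 1), A m n q ^ 2 ≤
      (2 ^ m) ^ 2 * (1 / (((n / 2 ^ (m + 1) - 1 - 1 - q : ℕ) : ℝ) + 1)) ^ 2 := by
    intro q hq
    have hq' := Finset.mem_range.1 hq
    have h2 := A_le_far (m := m) (n := n) (q := q) (by omega)
    have h3 := A_nonneg (m := m) (n := n) (q := q) (by omega)
    rw [← mul_pow]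
    have h4 : ((n / 2 ^ (m + 1) - 1 - 1 - q : ℕ) : ℝ) + 1 =
        ((n / 2 ^ (m + 1) - q - 1 : ℕ) : ℝ) := by
      have : n / 2 ^ (m + 1) - q - 1 = n / 2 ^ (m + 1) - 1 - 1 - q + 1 := by omega
      rw [this]; push_cast; rfl
    rw [h4]
    exact pow_le_pow_left₀ h3 h2 2
  refine (Finset.sum_le_sum h1).trans ?_
  rw [← Finset.mul_sum, Finset.sum_range_reflect (fun i => (1 / ((i : ℝ) + 1)) ^ 2)]
  have := sum_inv_sq_le (n / 2 ^ (m + 1) - 1)
  have h5 : (0:ℝ) ≤ (2 ^ m) ^ 2 := by positivity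
  nlinarith

lemma far_L2 (m n : ℕ) : ∫ x in J m, far m n x ^ 2 ∂μ ≤ 2 ^ m := by
  have h1 : ∀ x, far m n x ^ 2 = ∑ q ∈ Finset.range (n / 2 ^ (m + 1) - 1),
      ∑ q' ∈ Finset.range (n / 2 ^ (m + 1) - 1), (A m n q * A m n q') *
        (w (q * 2 ^ (m + 1)) x * w (q' * 2 ^ (m + 1)) x) := by
    intro x
    unfold far
    rw [sq, Finset.sum_mul_sum]
    refine Finset.sum_congr rfl fun q _ => Finset.sum_congr rfl fun q' _ => ?_
    ring
  simp_rw [h1]
  have hint : ∀ q q' : ℕ, Integrable (fun x => (A m n q * A m n q') *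
        (w (q * 2 ^ (m + 1)) x * w (q' * 2 ^ (m + 1)) x)) (μ.restrict (J m)) := by
    intro q q'
    exact ((w_mul_dep _ _).integrable.const_mul _).restrict
  rw [integral_finsetSum _ (fun q _ => integrable_finsetSum _ fun q' _ => hint q q')]
  have h2 : ∀ q ∈ Finset.range (n / 2 ^ (m + 1) - 1),
      ∫ x in J m, ∑ q' ∈ Finset.range (n / 2 ^ (m + 1) - 1), (A m n q * A m n q') *
        (w (q * 2 ^ (m + 1)) x * w (q' * 2 ^ (m + 1)) x) ∂μ = A m n q ^ 2 * (2 ^ (m + 1))⁻¹ := by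
    intro q hq
    rw [integral_finsetSum _ (fun q' _ => hint q q'), Finset.sum_eq_single q]
    · rw [integral_const_mul]
      simp_rw [w_sq]
      rw [setIntegral_const, measureReal_J, smul_eq_mul, mul_one, sq]
    · intro q' _ hqq'
      rw [integral_const_mul, orth_J (Ne.symm hqq'), mul_zero]
    · intro h; exact absurd hq h
  rw [Finset.sum_congr rfl h2, ← Finset.sum_mul]
  have h3 := sq_sum_le (m := m) (n := n)
  calc (∑ q ∈ Finset.range (n / 2 ^ (m + 1) - 1), A m n q ^ 2) * (2 ^ (m + 1))⁻¹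
      ≤ 2 * (2 ^ m) ^ 2 * (2 ^ (m + 1))⁻¹ := by gcongr
    _ = 2 ^ m := by field_simp; ring

end Pool.Agent.Lib.P332aa0
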