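import Pool.Agent.Lib.P332aa0.POne

set_option autoImplicit false

open MeasureTheory Filter Topology
open scoped ENNReal NNReal

namespace Pool.Agent.Lib.P332aa0

/-- convolution of a null sequence with a geometric kernel -/
lemma tendsto_geom_conv {b : ℕ → ℝ} (hb0 : ∀ i, 0 ≤ b i) (hb : Tendsto b atTop (𝓝 0)) {θ : ℝ}
    (hθ0 : 0 ≤ θ) (hθ1 : θ < 1) :
    Tendsto (fun N => ∑ i ∈ Finset.range N, b i * θ ^ (N - 1 - i)) atTop (𝓝 0) := by
  obtain ⟨B, hB⟩ : ∃ B, ∀ i, b i ≤ B := by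
    obtain ⟨B, hB⟩ := hb.bddAbove_range
    exact ⟨B, fun i => hB ⟨i, rfl⟩⟩
  have h1 : ∀ N, ∑ i ∈ Finset.range N, b i * θ ^ (N - 1 - i) =
      ∑' j, (if j < N then b (N - 1 - j) * θ ^ j else 0) := by
    intro N
    rw [tsum_eq_sum (s := Finset.range N)]
    · rw [← Finset.sum_range_reflect]
      refine Finset.sum_congr rfl fun j hj => ?_
      have hj' := Finset.mem_range.1 hj
      rw [if_pos hj']
      congr 2
      omega
    · intro j hj
      rw [if_neg (fun h => hj (Finset.mem_range.2 h))]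
  simp_rw [h1]
  have h2 : Tendsto (fun N => ∑' j, (if j < N then b (N - 1 - j) * θ ^ j else 0)) atTop
      (𝓝 (∑' _ : ℕ, (0:ℝ))) := by
    apply tendsto_tsum_of_dominated_convergence (bound := fun j => B * θ ^ j)
    · exact (summable_geometric_of_lt_one hθ0 hθ1).mul_left B
    · intro j
      have h3 : Tendsto (fun N => b (N - 1 - j) * θ ^ j) atTop (𝓝 (0 * θ ^ j)) := by
        apply Tendsto.mul_const
        apply hb.comp
        apply tendsto_atTop_atTop.2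
        intro n
        exact ⟨n + 1 + j, fun a ha => by omega⟩
      rw [zero_mul] at h3
      refine h3.congr' ?_
      filter_upwards [eventually_gt_atTop j] with N hN
      rw [if_pos hN]
    · refine Filter.Eventually.of_forall fun N j => ?_
      split_ifs with h
      · rw [Real.norm_eq_abs, abs_of_nonneg (mul_nonneg (hb0 _) (by positivity))]
        exact mul_le_mul_of_nonneg_right (hB _) (by positivity)
      · rw [norm_zero]
        exact mul_nonneg ((hb0 0).trans (hB 0)) (by positivity)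
  rwa [tsum_zero] at h2

/-- normalised size of the differences -/
noncomputable def bb (p : ℝ) (f : ℕ → G → ℂ) (i : ℕ) : ℝ :=
  Np p (diff f i) * ((2:ℝ) ^ i) ^ (1 - p) / ((max i 1 : ℕ) : ℝ) ^ p

lemma bb_nonneg (p : ℝ) (f : ℕ → G → ℂ) (i : ℕ) : 0 ≤ bb p f i := by
  unfold bb
  have := Np_nonneg p (diff f i)
  positivity

lemma maj_le_tsum {p : ℝ} (hp1 : p < 1) (i : ℕ) : maj p i ≤ ∑' m, maj p m :=
  (summable_maj hp1).le_tsum i fun m _ => maj_nonneg p m

lemma Np_diff_le {p : ℝ} (hp : 0 < p) (hp1 : p < 1) (f : ℕ → G → ℂ) (i : ℕ) :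
    Np p (diff f i) ≤ bb p f i * ∑' m, maj p m := by
  have h1 : Np p (diff f i) = bb p f i * (((max i 1 : ℕ) : ℝ) ^ p * ((2:ℝ) ^ i) ^ (p - 1)) := by
    unfold bb
    have h2 : (0:ℝ) < ((max i 1 : ℕ) : ℝ) ^ p := by
      apply Real.rpow_pos_of_pos
      exact_mod_cast lt_of_lt_of_le one_pos (le_max_right i 1)
    have h3 : ((2:ℝ) ^ i) ^ (1 - p) * ((2:ℝ) ^ i) ^ (p - 1) = 1 := by
      rw [← Real.rpow_add (by positivity)]; simp
    calc Np p (diff f i) = Np p (diff f i) * (((2:ℝ) ^ i) ^ (1 - p) * ((2:ℝ) ^ i) ^ (p - 1)) := by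
          rw [h3, mul_one]
      _ = _ := by field_simp
  rw [h1]
  apply mul_le_mul_of_nonneg_left _ (bb_nonneg p f i)
  refine le_trans ?_ (maj_le_tsum hp1 i)
  rw [two_pow_rpow, mul_comm]
  unfold maj
  gcongr
  have h4 : ((max i 1 : ℕ) : ℝ) ≤ i + 1 := by
    have : max i 1 ≤ i + 1 := by omega
    exact_mod_cast this
  have h5 : (1:ℝ) ≤ ((max i 1 : ℕ) : ℝ) := by exact_mod_cast le_max_right i 1
  refine (rpow_le_self_of_one_le hp1.le h5).trans ?_
  linarith

lemma tendsto_log_two : Tendsto (fun k => Nat.log 2 k) atTop atTop :=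
  tendsto_atTop_atTop.2 fun b => ⟨2 ^ b, fun a ha => Nat.le_log_of_pow_le (by norm_num) ha⟩

lemma half_pow_rpow (p : ℝ) (m : ℕ) : ((1 / 2 : ℝ) ^ p) ^ m = ((1 / 2) ^ m) ^ p := by
  rw [← Real.rpow_natCast, ← Real.rpow_mul (by norm_num), mul_comm, Real.rpow_mul (by norm_num),
    Real.rpow_natCast]

theorem tendsto_less {p : ℝ} (hp : 0 < p) (hp1 : p < 1) {f : ℕ → G → ℂ} (hf : Mart f)
    (hb : Tendsto (bb p f) atTop (𝓝 0)) :
    Tendsto (fun k => Np p (fun x => L k f x - f (Nat.log 2 k + 1) x)) atTop (𝓝 0) := by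
  obtain ⟨C, hC⟩ : ∃ C, C = ∑' m, maj p m := ⟨_, rfl⟩
  have hC0 : 0 ≤ C := by rw [hC]; exact tsum_nonneg (maj_nonneg p)
  obtain ⟨θ, hθ⟩ : ∃ θ : ℝ, θ = (1 / 2) ^ p := ⟨_, rfl⟩
  have hθ0 : 0 < θ := by rw [hθ]; positivity
  have hθ1 : θ < 1 := by
    rw [hθ]; exact Real.rpow_lt_one (by norm_num) (by norm_num) hp
  obtain ⟨Z, hZ⟩ : ∃ Z : ℕ → ℝ, Z = fun N => 8 ^ p * C *
      (∑ i ∈ Finset.range N, bb p f i * θ ^ (N - 1 - i)) + 3 * C * bb p f N +
      3 * C * bb p f (N + 1) := ⟨_, rfl⟩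
  have hZlim : Tendsto Z atTop (𝓝 0) := by
    have h1 := (tendsto_geom_conv (bb_nonneg p f) hb hθ0.le hθ1).const_mul (8 ^ p * C)
    have h2 := hb.const_mul (3 * C)
    have h3 := (hb.comp (tendsto_add_atTop_nat 1)).const_mul (3 * C)
    have h4 := (h1.add h2).add h3
    rw [hZ]
    simpa using h4
  have hlog : Tendsto (fun k => Nat.log 2 k) atTop atTop := tendsto_log_two
  refine squeeze_zero' (Filter.Eventually.of_forall fun k => Np_nonneg _ _) ?_ (hZlim.comp hlog)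
  filter_upwards [eventually_ge_atTop 1] with k hk
  obtain ⟨N, hN⟩ : ∃ N, N = Nat.log 2 k := ⟨_, rfl⟩
  have h1 : 2 ^ N ≤ k := by rw [hN]; exact Nat.pow_log_le_self 2 (by omega)
  have h2 : k ≤ 2 ^ (N + 1) := by rw [hN]; exact (Nat.lt_pow_succ_log_self (by norm_num) k).le
  simp only [Function.comp_apply]
  rw [← hN]
  refine (main_split hp hp1 hf h1 h2).trans ?_
  rw [← hC, hZ]
  have hl1 : ((N : ℝ) + 1) / 2 ≤ l k := by
    have h3 := l_mono h1
    have h4 := l_two_pow_ge N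
    linarith
  have hN0 : (0:ℝ) ≤ N := Nat.cast_nonneg N
  have hl0 : 0 < l k := by linarith
  have hli : (1 / l k) ^ p ≤ 2 ^ p / ((N : ℝ) + 1) ^ p := by
    rw [← Real.div_rpow (by norm_num) (by positivity)]
    apply Real.rpow_le_rpow (by positivity) _ hp.le
    rw [div_le_div_iff₀ hl0 (by positivity)]
    linarith
  have hli0 : 0 ≤ (1 / l k) ^ p := by positivity
  have hN1 : (0:ℝ) < ((N : ℝ) + 1) ^ p := by positivity
  have hk0 : (0:ℝ) < k := by exact_mod_cast hk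
  -- key: (2^i)^{1-p} Np ≤ bb i (N+1)^p
  have hkey : ∀ i ≤ N + 1, ((2:ℝ) ^ i) ^ (1 - p) * Np p (diff f i) ≤ bb p f i * ((N : ℝ) + 1) ^ p := by
    intro i hi
    have h5 : (0:ℝ) < ((max i 1 : ℕ) : ℝ) := by
      exact_mod_cast lt_of_lt_of_le one_pos (le_max_right i 1)
    have h6 : ((2:ℝ) ^ i) ^ (1 - p) * Np p (diff f i) = bb p f i * ((max i 1 : ℕ) : ℝ) ^ p := by
      unfold bb
      have := Real.rpow_pos_of_pos h5 p
      field_simp
    rw [h6]
    apply mul_le_mul_of_nonneg_left _ (bb_nonneg p f i)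
    apply Real.rpow_le_rpow h5.le _ hp.le
    have : max i 1 ≤ N + 1 := by omega
    exact_mod_cast this
  have hcoef : ∀ i ≤ N + 1, (1 / l k) ^ p * (((2:ℝ) ^ i) ^ (1 - p) * Np p (diff f i)) ≤
      2 ^ p * bb p f i := by
    intro i hi
    have h7 : 0 ≤ bb p f i * ((N : ℝ) + 1) ^ p := mul_nonneg (bb_nonneg p f i) hN1.le
    calc (1 / l k) ^ p * (((2:ℝ) ^ i) ^ (1 - p) * Np p (diff f i))
        ≤ (2 ^ p / ((N : ℝ) + 1) ^ p) * (bb p f i * ((N : ℝ) + 1) ^ p) :=
          mul_le_mul hli (hkey i hi) (mul_nonneg (by positivity) (Np_nonneg _ _)) (by positivity)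
      _ = 2 ^ p * bb p f i := by field_simp
  have hlow : ∀ i ∈ Finset.range N, (1 / l k) ^ p * (((2:ℝ) ^ i) ^ (1 - p) * Np p (diff f i)) *
        ((4 * (2 ^ i / k)) ^ p * C) ≤ 8 ^ p * C * (bb p f i * θ ^ (N - 1 - i)) := by
    intro i hi
    have hi' := Finset.mem_range.1 hi
    have h8 : (4 * ((2:ℝ) ^ i / k)) ^ p ≤ 4 ^ p * θ ^ (N - 1 - i) := by
      rw [hθ, half_pow_rpow, ← Real.mul_rpow (by norm_num) (by positivity)]
      apply Real.rpow_le_rpow (by positivity) _ hp.le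
      gcongr
      rw [div_le_iff₀ hk0]
      have h9 : (2:ℝ) ^ N ≤ k := by exact_mod_cast h1
      have h10 : (2:ℝ) ^ N = 2 ^ (N - 1 - i) * (2 * 2 ^ i) := by
        rw [← pow_succ', ← pow_add]; congr 1; omega
      have h11 : (1 / 2 : ℝ) ^ (N - 1 - i) * 2 ^ (N - 1 - i) = 1 := by
        rw [← mul_pow]; norm_num
      calc (2:ℝ) ^ i ≤ 2 * 2 ^ i := by linarith [pow_pos (by norm_num : (0:ℝ) < 2) i]
        _ = (1 / 2) ^ (N - 1 - i) * (2 ^ (N - 1 - i) * (2 * 2 ^ i)) := by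
            rw [← mul_assoc, h11, one_mul]
        _ ≤ (1 / 2) ^ (N - 1 - i) * k := by
            rw [← h10]; gcongr
    have h12 := hcoef i (by omega)
    have h13 : 0 ≤ (1 / l k) ^ p * (((2:ℝ) ^ i) ^ (1 - p) * Np p (diff f i)) :=
      mul_nonneg hli0 (mul_nonneg (by positivity) (Np_nonneg _ _))
    have h14 := bb_nonneg p f i
    calc (1 / l k) ^ p * (((2:ℝ) ^ i) ^ (1 - p) * Np p (diff f i)) * ((4 * (2 ^ i / k)) ^ p * C)
        ≤ (2 ^ p * bb p f i) * ((4 ^ p * θ ^ (N - 1 - i)) * C) := by gcongr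
      _ = (2 ^ p * 4 ^ p) * C * (bb p f i * θ ^ (N - 1 - i)) := by ring
      _ = 8 ^ p * C * (bb p f i * θ ^ (N - 1 - i)) := by
          rw [← Real.mul_rpow (by norm_num) (by norm_num)]; norm_num
  have hhigh : ∀ i, N ≤ i → i ≤ N + 1 →
      (1 / l k) ^ p * (((2:ℝ) ^ (N + 1)) ^ (1 - p) * Np p (diff f i)) * C + Np p (diff f i) ≤
      3 * C * bb p f i := by
    intro i hi1 hi2
    have h15 : ((2:ℝ) ^ (N + 1)) ^ (1 - p) ≤ 2 ^ (1 - p) * ((2:ℝ) ^ i) ^ (1 - p) := by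
      rw [← Real.mul_rpow (by norm_num) (by positivity), ← pow_succ']
      apply Real.rpow_le_rpow (by positivity) _ (by linarith)
      exact pow_le_pow_right₀ (by norm_num) (by omega)
    have h16 := hcoef i hi2
    have h17 := Np_diff_le hp hp1 f i
    rw [← hC] at h17
    have h18 := bb_nonneg p f i
    have h19 := Np_nonneg p (diff f i)
    calc (1 / l k) ^ p * (((2:ℝ) ^ (N + 1)) ^ (1 - p) * Np p (diff f i)) * C + Np p (diff f i)
        ≤ (1 / l k) ^ p * ((2 ^ (1 - p) * ((2:ℝ) ^ i) ^ (1 - p)) * Np p (diff f i)) * C +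
          bb p f i * C := by gcongr
      _ = 2 ^ (1 - p) * ((1 / l k) ^ p * (((2:ℝ) ^ i) ^ (1 - p) * Np p (diff f i))) * C +
          bb p f i * C := by ring
      _ ≤ 2 ^ (1 - p) * (2 ^ p * bb p f i) * C + bb p f i * C := by gcongr
      _ = (2 ^ (1 - p) * 2 ^ p) * bb p f i * C + bb p f i * C := by ring
      _ = 3 * C * bb p f i := by
          rw [← Real.rpow_add (by norm_num)]
          norm_num; ring
  simp only
  rw [Finset.mul_sum]
  exact add_le_add (add_le_add (Finset.sum_le_sum hlow) (hhigh N le_rfl (by omega)))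
    (hhigh (N + 1) (by omega) le_rfl)

end Pool.Agent.Lib.P332aa0
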