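import Pool.Agent.Lib.P332aa0.Hyp

set_option autoImplicit false

open MeasureTheory Filter Topology
open scoped ENNReal NNReal

namespace Pool.Agent.Lib.P332aa0.NegativeAnswerVariant

open Pool.Agent.Lib.P332aa0

lemma smallO_of_log {p : ℝ} {f : ℕ → G → ℂ} {C : ℝ}
    (h : ∀ᶠ n : ℕ in atTop, omega p n f ≤
      ENNReal.ofReal (C * (Real.log n / (2:ℝ) ^ ((n : ℝ) * (1 / p - 1))))) : SmallO p f := by
  intro ε hε
  have h1 : Tendsto (fun n : ℕ => Real.log n / n) atTop (𝓝 0) := by
    have := (Real.isLittleO_log_id_atTop.tendsto_div_nhds_zero).comp tendsto_natCast_atTop_atTop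
    exact this
  have h2 : Tendsto (fun n : ℕ => C * (Real.log n / n)) atTop (𝓝 0) := by
    simpa using h1.const_mul C
  filter_upwards [h, h2.eventually (gt_mem_nhds hε), eventually_gt_atTop 0] with n hn hn2 hn3
  refine hn.trans (ENNReal.ofReal_le_ofReal ?_)
  have hn' : (0:ℝ) < n := by exact_mod_cast hn3
  rw [← mul_div_assoc]
  apply div_le_div_of_nonneg_right _ (by positivity)
  rw [← mul_div_assoc, div_lt_iff₀ hn'] at hn2
  exact hn2.le

/-- For `0 < p ≤ 1`, every martingale `f ∈ H_p` with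
`ω_{H_p}(1/2^n, f) = O(log n / (2^{n(1/p-1)} log^{2[p]} n))` converges almost everywhere to some
function `F`, and `‖L_k f - F‖_{weak-L_p} → 0`. -/
theorem result : ∀ p : ℝ, 0 < p → p ≤ 1 → ∀ f : ℕ → G → ℂ, Martingale f Fil μ →
    HpNorm p f < ⊤ →
    (∃ C : ℝ, ∀ᶠ n : ℕ in atTop, omega p n f ≤ ENNReal.ofReal (C *
      (Real.log n / ((2:ℝ) ^ ((n : ℝ) * (1 / p - 1)) * Real.log n ^ (2 * ⌊p⌋₊))))) →
    ∃ F : G → ℂ, Measurable F ∧ (∀ᵐ x ∂μ, Tendsto (fun n => f n x) atTop (𝓝 (F x))) ∧
      Tendsto (fun k => weakNorm p (fun x => L k f x - F x)) atTop (𝓝 0) := by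
  intro p hp hp1 f hf _ hω
  obtain ⟨C, hC⟩ := hω
  have hm := mart_of_martingale hf
  rcases hp1.lt_or_eq with h1 | h1
  · have hfl : ⌊p⌋₊ = 0 := Nat.floor_eq_zero.2 h1
    have hs : SmallO p f := by
      apply smallO_of_log (C := C)
      filter_upwards [hC] with n hn
      rw [hfl, mul_zero, pow_zero, mul_one] at hn
      exact hn
    obtain ⟨F, hFm, hF, hconv⟩ := less_main hp h1 hf hs
    exact ⟨F, hFm, hF, weak_of_Lp hp hm hFm hconv⟩
  · subst h1
    have hω0 : Tendsto (fun n => omega 1 n f) atTop (𝓝 0) := by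
      have h2 : Tendsto (fun n : ℕ => ENNReal.ofReal (C *
          (Real.log n / ((2:ℝ) ^ ((n : ℝ) * (1 / 1 - 1)) * Real.log n ^ (2 * ⌊(1:ℝ)⌋₊))))) atTop
          (𝓝 0) := by
        have h3 : Tendsto (fun n : ℕ => (Real.log n)⁻¹) atTop (𝓝 0) :=
          (Real.tendsto_log_atTop.comp tendsto_natCast_atTop_atTop).inv_tendsto_atTop
        have h4 : Tendsto (fun n : ℕ => C * (Real.log n / ((2:ℝ) ^ ((n : ℝ) * (1 / 1 - 1)) *
            Real.log n ^ (2 * ⌊(1:ℝ)⌋₊)))) atTop (𝓝 0) := by
          have h5 := h3.const_mul C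
          rw [mul_zero] at h5
          refine h5.congr' ?_
          filter_upwards [eventually_gt_atTop 1] with n hn
          have h6 : Real.log n ≠ 0 := by
            apply Real.log_ne_zero_of_pos_of_ne_one
            · have : 0 < n := by omega
              exact_mod_cast this
            · have : n ≠ 1 := by omega
              exact_mod_cast this
          have h7 : Real.log n / ((2:ℝ) ^ ((n : ℝ) * (1 / 1 - 1)) *
              Real.log n ^ (2 * ⌊(1:ℝ)⌋₊)) = (Real.log n)⁻¹ := by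
            rw [Nat.floor_one, div_one, sub_self, mul_zero, Real.rpow_zero, one_mul, mul_one]
            field_simp
          show C * (Real.log n)⁻¹ = _
          rw [h7]
        have := ENNReal.tendsto_ofReal h4
        rwa [ENNReal.ofReal_zero] at this
      exact tendsto_of_tendsto_of_tendsto_of_le_of_le' tendsto_const_nhds h2
        (Filter.Eventually.of_forall fun _ => zero_le) hC
    obtain ⟨F, hFm, hF⟩ := exists_limit one_pos hm hω0
    exact ⟨F, hFm, hF, final_one hm hω0 hFm hF⟩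

end Pool.Agent.Lib.P332aa0.NegativeAnswerVariant
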