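import Pool.Agent.Lib.P332aa0.Conv

set_option autoImplicit false

open MeasureTheory Filter Topology
open scoped ENNReal NNReal

namespace Pool.Agent.Lib.P332aa0

lemma int_w_zero {g : G → ℂ} {M i : ℕ} (hg : Dep M g) (hi : 2 ^ M ≤ i) :
    ∫ t, g t * (w i t : ℂ) ∂μ = 0 := by
  obtain ⟨k, hk, hb⟩ := Nat.exists_ge_and_testBit_of_ge_two_pow hi
  obtain ⟨H, hH⟩ : ∃ H : G → ℂ, H = fun t => g t * (w i t : ℂ) := ⟨_, rfl⟩
  rw [← hH]
  have h1 : ∀ x, H (x + e k) = -H x := by
    intro x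
    rw [hH]
    simp only
    have h2 : g (x + e k) = g x := by
      apply hg
      intro j hj
      rw [Pi.add_apply, e_ne (by omega), add_zero]
    rw [h2, w_add, w_e, if_pos hb]
    push_cast; ring
  have h2 := integral_shift H (e k)
  simp_rw [h1] at h2
  rw [integral_neg] at h2
  have h3 : (2:ℂ) * ∫ x, H x ∂μ = 0 := by linear_combination -h2
  exact (mul_eq_zero.1 h3).resolve_left two_ne_zero

lemma D_two_pow_apply {M : ℕ} (x : G) : D (2 ^ M) x = (I M 0).indicator (fun _ => (2:ℝ) ^ M) x := by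
  by_cases h : ∀ j < M, x j = 0
  · rw [D_of_mem (le_refl _) h, Set.indicator_of_mem (show x ∈ I M 0 from h)]; push_cast; rfl
  · rw [D_two_pow_of_not_mem h, Set.indicator_of_notMem (show x ∉ I M 0 from h)]

lemma add_mem_I_zero {M : ℕ} (x t : G) : x + t ∈ I M 0 ↔ t ∈ I M x := by
  have key : ∀ a b : ZMod 2, a + b = 0 ↔ b = a := by decide
  constructor
  · intro h j hj
    exact (key _ _).1 (h j hj)
  · intro h j hj
    exact (key _ _).2 (h j hj)

lemma conv_D_self {g : G → ℂ} {M : ℕ} (hg : Dep M g) (x : G) : conv g (D (2 ^ M)) x = g x := by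
  unfold conv
  have h1 : ∀ t, g t * (D (2 ^ M) (x + t) : ℂ) = (I M x).indicator (fun t => (2:ℂ) ^ M * g t) t := by
    intro t
    rw [D_two_pow_apply]
    by_cases h : t ∈ I M x
    · rw [Set.indicator_of_mem h, Set.indicator_of_mem ((add_mem_I_zero x t).2 h)]
      push_cast; ring
    · rw [Set.indicator_of_notMem h, Set.indicator_of_notMem (fun h' => h ((add_mem_I_zero x t).1 h'))]
      simp
  simp_rw [h1]
  rw [integral_indicator (measurable_I M x), integral_const_mul, setIntegral_I hg]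
  have : (2:ℂ) ^ M ≠ 0 := pow_ne_zero _ two_ne_zero
  field_simp

lemma conv_D_ge {g : G → ℂ} {M j : ℕ} (hg : Dep M g) (hj : 2 ^ M ≤ j) (x : G) :
    conv g (D j) x = g x := by
  induction j, hj using Nat.le_induction with
  | base => exact conv_D_self hg x
  | succ j hj ih =>
    rw [conv_D hg, Finset.sum_range_succ, ← conv_D hg, ih, int_w_zero hg hj]
    ring

lemma conv_R {g : G → ℂ} {M k : ℕ} (hg : Dep M g) (x : G) :
    conv g (R M k) x = ∑ j ∈ Finset.range (2 ^ M),
      (conv g (D (2 ^ M)) x - conv g (D j) x) / ((k : ℂ) - j) := by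
  have h1 : ∀ t, g t * (R M k (x + t) : ℂ) = ∑ j ∈ Finset.range (2 ^ M),
      (g t * (D (2 ^ M) (x + t) : ℂ) - g t * (D j (x + t) : ℂ)) / ((k : ℂ) - j) := by
    intro t
    unfold R
    push_cast
    rw [Finset.mul_sum]
    refine Finset.sum_congr rfl fun i _ => ?_
    ring
  unfold conv
  simp_rw [h1]
  have hi : ∀ j ≤ 2 ^ M, Integrable (fun t => g t * (D j (x + t) : ℂ)) μ := fun j hj =>
    conv_integrand hg (D_dep hj) x
  rw [integral_finsetSum]
  · refine Finset.sum_congr rfl fun j hj => ?_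
    rw [integral_div, integral_sub (hi _ le_rfl) (hi j (Finset.mem_range.1 hj).le)]
  · intro j hj
    exact ((hi _ le_rfl).sub (hi j (Finset.mem_range.1 hj).le)).div_const _

lemma sum_reflect_C (k : ℕ) : ∑ j ∈ Finset.range k, 1 / ((k : ℂ) - j) = (l k : ℂ) := by
  rw [← sum_reflect]; push_cast; rfl

lemma low_identity {g : G → ℂ} {M k : ℕ} (hg : Dep M g) (hk : 2 ^ (M + 1) ≤ k) (x : G) :
    1 / (l k : ℂ) * conv g (K k) x - g x = -(1 / (l k : ℂ)) * conv g (R M k) x := by
  have hk1 : 1 ≤ k := Nat.one_le_two_pow.trans hk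
  have hl : (l k : ℂ) ≠ 0 := by
    have := l_one_le hk1
    exact_mod_cast (by linarith : (0:ℝ) < l k).ne'
  have h1 : conv g (K k) x - (l k : ℂ) * g x = -conv g (R M k) x := by
    rw [conv_K hg, ← sum_reflect_C, Finset.sum_mul, ← Finset.sum_sub_distrib, conv_R hg,
      ← Finset.sum_neg_distrib]
    have hM : 2 ^ M ≤ k := (Nat.pow_le_pow_right (by norm_num) (by omega)).trans hk
    symm
    apply Finset.sum_subset_zero_on_sdiff (Finset.range_subset_range.2 hM)
    · intro j hj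
      rw [Finset.mem_sdiff, Finset.mem_range, Finset.mem_range, not_lt] at hj
      rw [conv_D_ge hg hj.2]; ring
    · intro j hj
      rw [conv_D_self hg]; ring
  have h2 : conv g (K k) x = (l k : ℂ) * g x - conv g (R M k) x := by linear_combination h1
  rw [h2]
  field_simp
  ring

/-- `p`-th power of the `L_p` quasi-norm -/
noncomputable def Np (p : ℝ) (g : G → ℂ) : ℝ := ∫ x, ‖g x‖ ^ p ∂μ

lemma Np_nonneg (p : ℝ) (g : G → ℂ) : 0 ≤ Np p g :=
  integral_nonneg fun x => Real.rpow_nonneg (norm_nonneg _) p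

lemma Np_const_mul {p : ℝ} (c : ℂ) (g : G → ℂ) : Np p (fun x => c * g x) = ‖c‖ ^ p * Np p g := by
  unfold Np
  rw [← integral_const_mul]
  congr 1
  ext x
  rw [norm_mul, Real.mul_rpow (norm_nonneg _) (norm_nonneg _)]

lemma norm_one_div_l (k : ℕ) : ‖(1 / (l k : ℂ))‖ = 1 / l k := by
  rw [norm_div, norm_one, Complex.norm_real, Real.norm_eq_abs, abs_of_nonneg (l_nonneg k)]

lemma low_bound {p : ℝ} (hp : 0 < p) (hp1 : p < 1) {g : G → ℂ} {M k : ℕ} (hg : Dep M g)
    (hk : 2 ^ (M + 1) ≤ k) :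
    Np p (fun x => 1 / (l k : ℂ) * conv g (K k) x - g x) ≤
      (1 / l k) ^ p * ((2 ^ M : ℝ) ^ (1 - p) * Np p g) * ((4 * (2 ^ M / k)) ^ p * ∑' m, maj p m) := by
  have h1 : (fun x => 1 / (l k : ℂ) * conv g (K k) x - g x) =
      fun x => -(1 / (l k : ℂ)) * conv g (R M k) x := by
    ext x; exact low_identity hg hk x
  rw [h1, Np_const_mul, norm_neg, norm_one_div_l, mul_assoc]
  have h2 := conv_rpow_le hp hp1.le hg (R_dep M k)
  have h3 := R_rpow_le hp hp1 hk
  have h4 : (0:ℝ) ≤ (2 ^ M : ℝ) ^ (1 - p) := by positivity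
  have h5 := Np_nonneg p g
  have h6 : 0 ≤ (1 / l k) ^ p := Real.rpow_nonneg (div_nonneg zero_le_one (l_nonneg k)) p
  gcongr
  refine h2.trans ?_
  rw [mul_assoc]
  unfold Np at h5 ⊢
  gcongr

lemma high_bound {p : ℝ} (hp : 0 < p) (hp1 : p < 1) {g : G → ℂ} {M k : ℕ} (hg : Dep M g)
    (hk : k ≤ 2 ^ M) :
    Np p (fun x => 1 / (l k : ℂ) * conv g (K k) x) ≤
      (1 / l k) ^ p * ((2 ^ M : ℝ) ^ (1 - p) * Np p g) * ∑' m, maj p m := by
  rw [Np_const_mul, norm_one_div_l, mul_assoc]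
  have h2 := conv_rpow_le hp hp1.le hg (K_dep hk)
  have h3 := K_rpow_le hp hp1 k
  have h5 := Np_nonneg p g
  have h6 : 0 ≤ (1 / l k) ^ p := Real.rpow_nonneg (div_nonneg zero_le_one (l_nonneg k)) p
  gcongr
  refine h2.trans ?_
  rw [mul_assoc]
  unfold Np at h5 ⊢
  gcongr

lemma Np_add_le {p : ℝ} (hp : 0 < p) (hp1 : p ≤ 1) {g h : G → ℂ}
    (hg : Integrable (fun x => ‖g x‖ ^ p) μ) (hh : Integrable (fun x => ‖h x‖ ^ p) μ)
    (hgh : Integrable (fun x => ‖g x + h x‖ ^ p) μ) :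
    Np p (fun x => g x + h x) ≤ Np p g + Np p h := by
  unfold Np
  rw [← integral_add hg hh]
  apply integral_mono hgh (hg.add hh)
  intro x
  refine (Real.rpow_le_rpow (norm_nonneg _) (norm_add_le _ _) hp.le).trans ?_
  exact Real.rpow_add_le_add_rpow (norm_nonneg _) (norm_nonneg _) hp.le hp1

lemma Np_sum_le {p : ℝ} (hp : 0 < p) (hp1 : p ≤ 1) {g : ℕ → G → ℂ} {M : ℕ} (hg : ∀ i, i ≤ M → Dep M (g i))
    (n : ℕ) (hn : n ≤ M + 1) :
    Np p (fun x => ∑ i ∈ Finset.range n, g i x) ≤ ∑ i ∈ Finset.range n, Np p (g i) := by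
  induction n with
  | zero => simp [Np, Real.zero_rpow hp.ne']
  | succ n ih =>
    rw [Finset.sum_range_succ]
    have hd : Dep M (fun x => ∑ i ∈ Finset.range n, g i x) := by
      intro x y hxy
      exact Finset.sum_congr rfl fun i hi => hg i (by have := Finset.mem_range.1 hi; omega) x y hxy
    have e1 : (fun x => ∑ i ∈ Finset.range (n + 1), g i x) =
        fun x => (∑ i ∈ Finset.range n, g i x) + g n x := by
      ext x; rw [Finset.sum_range_succ]
    rw [e1]
    refine (Np_add_le hp hp1 (hd.comp (fun a => ‖a‖ ^ p)).integrable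
      ((hg n (by omega)).comp (fun a => ‖a‖ ^ p)).integrable
      (hd.comp₂ (hg n (by omega)) (fun a b => ‖a + b‖ ^ p)).integrable).trans ?_
    have := ih (by omega)
    linarith

/-- martingale differences, with `diff f 0 = f 0` -/
noncomputable def diff (f : ℕ → G → ℂ) : ℕ → G → ℂ
  | 0 => f 0
  | i + 1 => fun x => f (i + 1) x - f i x

lemma sum_diff (f : ℕ → G → ℂ) (n : ℕ) (x : G) :
    ∑ i ∈ Finset.range (n + 1), diff f i x = f n x := by
  induction n with
  | zero => simp [diff]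
  | succ n ih => rw [Finset.sum_range_succ, ih]; simp [diff]

lemma diff_dep {f : ℕ → G → ℂ} (hf : Mart f) (i : ℕ) : Dep i (diff f i) := by
  cases i with
  | zero => exact hf.1 0
  | succ i => exact (hf.1 (i + 1)).comp₂ ((hf.1 i).mono (by omega)) (fun a b => a - b)

lemma conv_sum {g : ℕ → G → ℂ} {k : G → ℝ} {M : ℕ} (hg : ∀ i ≤ M, Dep M (g i)) (hk : Dep M k)
    (x : G) : conv (fun t => ∑ i ∈ Finset.range (M + 1), g i t) k x =
      ∑ i ∈ Finset.range (M + 1), conv (g i) k x := by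
  unfold conv
  simp_rw [Finset.sum_mul]
  rw [integral_finsetSum]
  intro i hi
  exact conv_integrand (hg i (by have := Finset.mem_range.1 hi; omega)) hk x

/-- the main decomposition bound -/
lemma main_split {p : ℝ} (hp : 0 < p) (hp1 : p < 1) {f : ℕ → G → ℂ} (hf : Mart f) {N k : ℕ}
    (h1 : 2 ^ N ≤ k) (h2 : k ≤ 2 ^ (N + 1)) :
    Np p (fun x => L k f x - f (N + 1) x) ≤
      (∑ i ∈ Finset.range N, (1 / l k) ^ p * ((2 ^ i : ℝ) ^ (1 - p) * Np p (diff f i)) *
        ((4 * (2 ^ i / k)) ^ p * ∑' m, maj p m)) +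
      ((1 / l k) ^ p * ((2 ^ (N + 1) : ℝ) ^ (1 - p) * Np p (diff f N)) * (∑' m, maj p m) +
        Np p (diff f N)) +
      ((1 / l k) ^ p * ((2 ^ (N + 1) : ℝ) ^ (1 - p) * Np p (diff f (N + 1))) * (∑' m, maj p m) +
        Np p (diff f (N + 1))) := by
  have hd : ∀ i ≤ N + 1, Dep (N + 1) (diff f i) := fun i hi => (diff_dep hf i).mono hi
  have e1 : (fun x => L k f x - f (N + 1) x) = fun x => ∑ i ∈ Finset.range (N + 2),
      (1 / (l k : ℂ) * conv (diff f i) (K k) x - diff f i x) := by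
    ext x
    rw [Finset.sum_sub_distrib, sum_diff f (N + 1), hf.L_eq h2, ← Finset.mul_sum]
    congr 2
    rw [← conv_sum hd (K_dep h2)]
    congr 1
    ext t
    exact (sum_diff f (N + 1) t).symm
  have hdd : ∀ i ≤ N + 1, Dep (N + 1)
      (fun x => 1 / (l k : ℂ) * conv (diff f i) (K k) x - diff f i x) := by
    intro i hi
    exact (conv_dep (g := diff f i) (K_dep h2)).comp₂ (hd i hi) (fun a b => 1 / (l k : ℂ) * a - b)
  rw [e1]
  refine (Np_sum_le hp hp1.le hdd (N + 2) le_rfl).trans ?_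
  rw [Finset.sum_range_succ, Finset.sum_range_succ]
  have hhigh : ∀ i ≤ N + 1, Np p (fun x => 1 / (l k : ℂ) * conv (diff f i) (K k) x - diff f i x) ≤
      (1 / l k) ^ p * ((2 ^ (N + 1) : ℝ) ^ (1 - p) * Np p (diff f i)) * (∑' m, maj p m) +
        Np p (diff f i) := by
    intro i hi
    have h3 := high_bound hp hp1 (hd i hi) h2
    have h4 := Np_add_le hp hp1.le (g := fun x => 1 / (l k : ℂ) * conv (diff f i) (K k) x)
      (h := fun x => -diff f i x)
      ((conv_dep (g := diff f i) (K_dep h2)).comp (fun a => ‖1 / (l k : ℂ) * a‖ ^ p)).integrable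
      ((hd i hi).comp (fun a => ‖-a‖ ^ p)).integrable
      ((conv_dep (g := diff f i) (K_dep h2)).comp₂ (hd i hi)
        (fun a b => ‖1 / (l k : ℂ) * a + -b‖ ^ p)).integrable
    have h5 : Np p (fun x => -diff f i x) = Np p (diff f i) := by
      unfold Np; simp_rw [norm_neg]
    rw [h5] at h4
    simp_rw [← sub_eq_add_neg] at h4
    linarith
  refine add_le_add (add_le_add (Finset.sum_le_sum fun i hi => ?_) (hhigh N (by omega)))
    (hhigh (N + 1) le_rfl)
  have hi' := Finset.mem_range.1 hi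
  exact low_bound hp hp1 (diff_dep hf i) ((Nat.pow_le_pow_right (by norm_num) (by omega)).trans h1)

end Pool.Agent.Lib.P332aa0
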