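import Pool.Agent.Lib.P332aa0.Bellman

set_option autoImplicit false

open MeasureTheory Filter Topology
open scoped ENNReal NNReal

namespace Pool.Agent.Lib.P332aa0

/-- binary digit as a real number -/
noncomputable def bit (n k : ℕ) : ℝ := if n.testBit k = true then 1 else 0

lemma bit_nonneg (n k : ℕ) : 0 ≤ bit n k := by unfold bit; split_ifs <;> norm_num
lemma bit_le (n k : ℕ) : bit n k ≤ 1 := by unfold bit; split_ifs <;> norm_num

/-- multipliers -/
noncomputable def cf (n k : ℕ) : ℝ := bit n k * l (n % 2 ^ (k + 1))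

lemma cf_nonneg (n k : ℕ) : 0 ≤ cf n k := mul_nonneg (bit_nonneg n k) (l_nonneg _)

lemma cf_le (n k : ℕ) : cf n k ≤ l n := by
  unfold cf
  have h1 := l_mono (Nat.mod_le n (2 ^ (k + 1)))
  have h2 := l_nonneg (n % 2 ^ (k + 1))
  have h3 := bit_nonneg n k
  have h4 := bit_le n k
  nlinarith

/-- kernel of the martingale transform -/
noncomputable def Tk (n M : ℕ) (x : G) : ℝ :=
  ∑ k ∈ Finset.range M, cf n k * (D (2 ^ (k + 1)) x - D (2 ^ k) x)

lemma mod_two_pow_succ' (n m : ℕ) : n % 2 ^ (m + 1) = n % 2 ^ m + 2 ^ m * (n.testBit m).toNat := by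
  rw [Nat.mod_pow_succ, Nat.toNat_testBit]

lemma mod_succ (n m : ℕ) : ((n % 2 ^ (m + 1) : ℕ) : ℝ) = (n % 2 ^ m : ℕ) + bit n m * 2 ^ m := by
  rw [mod_two_pow_succ']
  unfold bit
  rcases n.testBit m with _ | _ <;> simp

lemma sum_bit (n m : ℕ) : ∑ k ∈ Finset.range m, bit n k * 2 ^ k = ((n % 2 ^ m : ℕ) : ℝ) := by
  induction m with
  | zero => simp [Nat.mod_one]
  | succ m ih => rw [Finset.sum_range_succ, ih, mod_succ]

lemma Tk_of_J {n m M : ℕ} (hm : m < M) {x : G} (hx : x ∈ J m) :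
    Tk n M x = (∑ k ∈ Finset.range m, cf n k * 2 ^ k) - cf n m * 2 ^ m := by
  have hD : ∀ k ≤ m, D (2 ^ k) x = 2 ^ k := by
    intro k hk
    rw [D_of_mem (le_refl _) (fun j hj => hx.1 j (by omega))]; push_cast; rfl
  have hD0 : ∀ k, m < k → D (2 ^ k) x = 0 := by
    intro k hk
    apply D_two_pow_of_not_mem
    intro h
    have := h m hk
    rw [hx.2] at this
    exact absurd this (by decide)
  unfold Tk
  obtain ⟨d, rfl⟩ : ∃ d, M = (m + 1) + d := ⟨M - (m + 1), by omega⟩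
  rw [Finset.sum_range_add, Finset.sum_range_succ]
  have h1 : ∑ k ∈ Finset.range d, cf n (m + 1 + k) *
      (D (2 ^ (m + 1 + k + 1)) x - D (2 ^ (m + 1 + k)) x) = 0 := by
    apply Finset.sum_eq_zero
    intro k _
    rw [hD0 _ (by omega), hD0 _ (by omega)]; ring
  rw [h1, add_zero, hD0 (m + 1) (by omega), hD m le_rfl]
  have h2 : ∑ k ∈ Finset.range m, cf n k * (D (2 ^ (k + 1)) x - D (2 ^ k) x) =
      ∑ k ∈ Finset.range m, cf n k * 2 ^ k := by
    refine Finset.sum_congr rfl fun k hk => ?_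
    have hk' := Finset.mem_range.1 hk
    rw [hD (k + 1) (by omega), hD k (by omega), pow_succ]; ring
  rw [h2]; ring

lemma D_formula {n m : ℕ} {x : G} (hx : x ∈ J m) :
    D n x = w n x * (((n % 2 ^ m : ℕ) : ℝ) - bit n m * 2 ^ m) := by
  have hn : n = n / 2 ^ (m + 1) * 2 ^ (m + 1) + n % 2 ^ (m + 1) := (Nat.div_add_mod' _ _).symm
  have hmod : n % 2 ^ (m + 1) < 2 ^ (m + 1) := Nat.mod_lt _ (Nat.two_pow_pos _)
  have hmod' : n % 2 ^ m < 2 ^ m := Nat.mod_lt _ (Nat.two_pow_pos _)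
  have hD : D n x = w (n / 2 ^ (m + 1) * 2 ^ (m + 1)) x * tent m (n % 2 ^ (m + 1)) := by
    conv_lhs => rw [hn]
    exact D_of_J hmod.le hx
  have hW : w n x = w (n / 2 ^ (m + 1) * 2 ^ (m + 1)) x * w (n % 2 ^ (m + 1)) x := by
    conv_lhs => rw [hn]
    exact w_mul_add hmod x
  have hms := mod_two_pow_succ' n m
  have hmr := mod_succ n m
  have hr : ((n % 2 ^ m : ℕ) : ℝ) < 2 ^ m := by exact_mod_cast hmod'
  rw [hD, hW]
  unfold tent
  unfold bit at hmr ⊢
  rcases hb : n.testBit m with _ | _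
  · rw [hb] at hms hmr
    simp only [Bool.toNat_false, mul_zero, add_zero] at hms
    simp only [Bool.false_eq_true, if_false, zero_mul, add_zero, sub_zero] at hmr ⊢
    have hw1 : w (n % 2 ^ (m + 1)) x = 1 := w_of_mem (by rw [hms]; exact hmod') hx.1
    rw [hmr, min_eq_left (by rw [pow_succ]; linarith), hw1]
    ring
  · rw [hb] at hms hmr
    simp only [Bool.toNat_true, mul_one] at hms
    simp only [if_true, one_mul] at hmr ⊢
    rw [hmr, min_eq_right (by rw [pow_succ]; have : (0:ℝ) ≤ (n % 2 ^ m : ℕ) := Nat.cast_nonneg _; linarith),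
      w_of_J (by rw [hms]; omega) hmod hx.1 hx.2, pow_succ]
    ring

lemma sum_three (m : ℕ) : ∑ k ∈ Finset.range m, (2:ℝ) ^ k * (m + 1 - k) ≤ 3 * 2 ^ m := by
  induction m with
  | zero => simp
  | succ m ih =>
    have h1 : ∑ k ∈ Finset.range (m + 1), (2:ℝ) ^ k * (((m + 1 : ℕ) : ℝ) + 1 - k) =
        (∑ k ∈ Finset.range m, (2:ℝ) ^ k * (m + 1 - k)) + (∑ k ∈ Finset.range m, (2:ℝ) ^ k) +
        2 ^ m * 2 := by
      rw [Finset.sum_range_succ, ← Finset.sum_add_distrib]
      congr 1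
      · refine Finset.sum_congr rfl fun k _ => ?_
        push_cast; ring
      · push_cast; ring
    have h2 : ∑ k ∈ Finset.range m, (2:ℝ) ^ k ≤ 2 ^ m := by
      have := geom_sum_eq (by norm_num : (2:ℝ) ≠ 1) m
      rw [this]
      norm_num
    rw [h1, pow_succ]
    have : (0:ℝ) < 2 ^ m := by positivity
    linarith

lemma main_diff {n m : ℕ} {x : G} (hx : x ∈ J m) {M : ℕ} (hm : m < M) :
    |D n x * l (n % 2 ^ (m + 1)) - w n x * Tk n M x| ≤ 3 * 2 ^ m := by
  have h1 : D n x * l (n % 2 ^ (m + 1)) - w n x * Tk n M x =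
      w n x * ∑ k ∈ Finset.range m, bit n k * 2 ^ k * (l (n % 2 ^ (m + 1)) - l (n % 2 ^ (k + 1))) := by
    rw [D_formula hx, Tk_of_J hm hx, ← sum_bit]
    simp_rw [mul_sub]
    rw [Finset.sum_sub_distrib, ← Finset.sum_mul]
    have h2 : ∑ k ∈ Finset.range m, bit n k * 2 ^ k * l (n % 2 ^ (k + 1)) =
        ∑ k ∈ Finset.range m, cf n k * 2 ^ k := by
      refine Finset.sum_congr rfl fun k _ => ?_
      unfold cf; ring
    rw [h2]
    unfold cf
    ring
  rw [h1, abs_mul, w_abs, one_mul]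
  refine (Finset.abs_sum_le_sum_abs _ _).trans ((Finset.sum_le_sum fun k hk => ?_).trans (sum_three m))
  have hk' := Finset.mem_range.1 hk
  unfold bit
  split_ifs with hb
  · have h3 : n % 2 ^ (k + 1) ≤ n % 2 ^ (m + 1) := by
      have : n % 2 ^ (m + 1) % 2 ^ (k + 1) = n % 2 ^ (k + 1) :=
        Nat.mod_mod_of_dvd _ (Nat.pow_dvd_pow 2 (by omega))
      rw [← this]
      exact Nat.mod_le _ _
    have h4 : 2 ^ k ≤ n % 2 ^ (k + 1) := by
      rw [mod_two_pow_succ', hb]
      simp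
    have h5 : n % 2 ^ (m + 1) ≤ 2 ^ (m + 1) := (Nat.mod_lt _ (Nat.two_pow_pos _)).le
    have h6 := l_mono h3
    have h7 := l_mono h4
    have h8 := l_mono h5
    have h9 := l_two_pow_add_le (k := k) (m := m + 1) (by omega)
    push_cast at h9
    rw [one_mul, abs_mul, abs_of_nonneg (by positivity : (0:ℝ) ≤ 2 ^ k), abs_of_nonneg (by linarith)]
    exact mul_le_mul_of_nonneg_left (by linarith) (by positivity)
  · simp only [zero_mul, abs_zero]
    have : (k : ℝ) < m := by exact_mod_cast hk'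
    have : (0:ℝ) ≤ m + 1 - k := by linarith
    positivity

/-- error kernel -/
noncomputable def Er (n M : ℕ) (x : G) : ℝ := K n x - w n x * Tk n M x

lemma Tk_dep (n M : ℕ) : Dep M (Tk n M) := by
  intro x y hxy
  unfold Tk
  refine Finset.sum_congr rfl fun k hk => ?_
  have hk' := Finset.mem_range.1 hk
  rw [D_dep (Nat.pow_le_pow_right (by norm_num) (by omega : k + 1 ≤ M)) x y hxy,
    D_dep (Nat.pow_le_pow_right (by norm_num) (by omega : k ≤ M)) x y hxy]

lemma Er_dep {n M : ℕ} (hn : n < 2 ^ M) : Dep M (Er n M) := by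
  have h1 := (K_dep hn.le).comp₂ ((w_dep hn).comp₂ (Tk_dep n M) (fun a b => a * b)) (fun a b => a - b)
  exact h1

lemma Er_bound_J {n m M : ℕ} (hm : m < M) {x : G} (hx : x ∈ J m) :
    |Er n M x| ≤ 7 * 2 ^ m + |far m n x| := by
  have h1 := K_sub_far (n := n) hx
  have h2 := main_diff (n := n) hx hm
  have h3 : Er n M x = (K n x - far m n x - D n x * l (n % 2 ^ (m + 1))) +
      (D n x * l (n % 2 ^ (m + 1)) - w n x * Tk n M x) + far m n x := by unfold Er; ring
  have h4 : (2:ℝ) ^ (m + 2) = 4 * 2 ^ m := by ring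
  rw [h4] at h1
  rw [h3]
  refine (abs_add_le _ _).trans (add_le_add ((abs_add_le _ _).trans ?_) le_rfl)
  linarith

lemma Er_bound_I {n M : ℕ} (hn : n < 2 ^ M) {x : G} (hx : x ∈ I M 0) : |Er n M x| ≤ 2 * (n * l n) := by
  have h1 := abs_K_le_of_mem hn.le (x := x) hx
  have h2 : Tk n M x = ∑ k ∈ Finset.range M, cf n k * 2 ^ k := by
    unfold Tk
    refine Finset.sum_congr rfl fun k hk => ?_
    have hk' := Finset.mem_range.1 hk
    rw [D_of_mem (le_refl _) (fun j hj => hx j (by omega)),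
      D_of_mem (le_refl _) (fun j hj => hx j (by omega)), pow_succ]
    push_cast; ring
  have h3 : 0 ≤ Tk n M x := by
    rw [h2]; exact Finset.sum_nonneg fun k _ => mul_nonneg (cf_nonneg n k) (by positivity)
  have h4 : Tk n M x ≤ n * l n := by
    rw [h2]
    calc ∑ k ∈ Finset.range M, cf n k * 2 ^ k ≤ ∑ k ∈ Finset.range M, bit n k * 2 ^ k * l n := by
          refine Finset.sum_le_sum fun k _ => ?_
          unfold cf
          have h5 := l_mono (Nat.mod_le n (2 ^ (k + 1)))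
          have h6 : 0 ≤ bit n k * 2 ^ k := mul_nonneg (bit_nonneg n k) (by positivity)
          nlinarith
      _ = n * l n := by rw [← Finset.sum_mul, sum_bit, Nat.mod_eq_of_lt hn]
  unfold Er
  refine (abs_sub _ _).trans ?_
  rw [abs_mul, w_abs, one_mul, abs_of_nonneg h3]
  linarith

lemma Er_L1 {n M : ℕ} (hn : n < 2 ^ M) : ∫ x, |Er n M x| ∂μ ≤ 5 * M + 2 * l n := by
  have hi : Integrable (fun x => |Er n M x|) μ := ((Er_dep hn).comp (fun a => |a|)).integrable
  rw [integral_decomp hi M]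
  have hJ : ∀ m ∈ Finset.range M, ∫ x in J m, |Er n M x| ∂μ ≤ 5 := by
    intro m hm
    have hm' := Finset.mem_range.1 hm
    have hfar : Integrable (fun x => (2 ^ m)⁻¹ * far m n x ^ 2) μ :=
      ((far_dep m n).comp (fun y => ((2:ℝ) ^ m)⁻¹ * y ^ 2)).integrable
    calc ∫ x in J m, |Er n M x| ∂μ ≤ ∫ x in J m, ((8 * 2 ^ m) + (2 ^ m)⁻¹ * far m n x ^ 2) ∂μ := by
          apply setIntegral_mono_on hi.integrableOn _ (measurable_J m)
          · intro x hx
            have h1 := Er_bound_J (n := n) hm' hx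
            have h2 : |far m n x| ≤ 2 ^ m + (2 ^ m)⁻¹ * far m n x ^ 2 := by
              have h3 : (0:ℝ) < 2 ^ m := by positivity
              rcases le_or_gt |far m n x| (2 ^ m) with h | h
              · have : 0 ≤ ((2:ℝ) ^ m)⁻¹ * far m n x ^ 2 := by positivity
                linarith
              · have h5 : |far m n x| * 2 ^ m ≤ |far m n x| * |far m n x| :=
                  mul_le_mul_of_nonneg_left h.le (abs_nonneg _)
                have h6 : |far m n x| ≤ (2 ^ m)⁻¹ * far m n x ^ 2 := by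
                  rw [← sq_abs, inv_mul_eq_div, le_div_iff₀ h3, sq]
                  exact h5
                linarith
            linarith
          · exact ((integrable_const _).add hfar).integrableOn
      _ = (2 ^ (m + 1))⁻¹ * (8 * 2 ^ m) + (2 ^ m)⁻¹ * ∫ x in J m, far m n x ^ 2 ∂μ := by
          rw [integral_add (integrable_const _) hfar.integrableOn, setIntegral_const, measureReal_J,
            smul_eq_mul, integral_const_mul]
      _ ≤ (2 ^ (m + 1))⁻¹ * (8 * 2 ^ m) + (2 ^ m)⁻¹ * 2 ^ m := by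
          gcongr
          exact far_L2 m n
      _ = 5 := by rw [pow_succ]; field_simp; norm_num
  have hI : ∫ x in I M 0, |Er n M x| ∂μ ≤ 2 * l n := by
    have hn' : (n : ℝ) ≤ 2 ^ M := by exact_mod_cast hn.le
    calc ∫ x in I M 0, |Er n M x| ∂μ ≤ ∫ x in I M 0, 2 * (2 ^ M * l n) ∂μ := by
          apply setIntegral_mono_on hi.integrableOn (integrable_const _).integrableOn
            (measurable_I M 0)
          intro x hx
          refine (Er_bound_I hn hx).trans ?_
          have := l_nonneg n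
          gcongr
      _ = 2 * l n := by
          rw [setIntegral_const, measureReal_I, smul_eq_mul]
          field_simp
  calc _ ≤ ∑ m ∈ Finset.range M, (5:ℝ) + 2 * l n := add_le_add (Finset.sum_le_sum hJ) hI
    _ = 5 * M + 2 * l n := by rw [Finset.sum_const, Finset.card_range, nsmul_eq_mul]; ring

lemma Er_L1' {n M : ℕ} (hM : 1 ≤ M) (h1 : 2 ^ (M - 1) ≤ n) (hn : n < 2 ^ M) :
    ∫ x, |Er n M x| ∂μ ≤ 12 * l n := by
  have h2 := Er_L1 hn
  have h3 := l_mono h1
  have h4 := l_two_pow_ge (M - 1)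
  have h5 : ((M - 1 : ℕ) : ℝ) = M - 1 := by rw [Nat.cast_sub hM]; simp
  rw [h5] at h4
  linarith

/-- conditional expectations of a step function as a martingale -/
lemma mart_conv {g : G → ℂ} {M : ℕ} (hg : Dep M g) : Mart (fun k => conv g (D (2 ^ k))) := by
  refine ⟨fun k => conv_dep (D_dep le_rfl), fun k x => ?_⟩
  have hg' : Dep (M + (k + 1)) g := hg.mono (by omega)
  have hD1 : Dep (M + (k + 1)) (D (2 ^ (k + 1))) := (D_dep le_rfl).mono (by omega)
  have hi1 := conv_integrand hg' hD1 x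
  have hi2 := conv_integrand hg' hD1 (x + e k)
  simp only
  unfold conv
  rw [← integral_add hi1 hi2, ← integral_div]
  congr 1
  ext t
  have h1 : D (2 ^ k) (x + e k + t) = D (2 ^ k) (x + t) := by
    have : x + e k + t = (x + t) + e k := by abel
    rw [this]
    exact dep_flip (D_dep le_rfl) _
  have h2 : w (2 ^ k) (x + e k + t) = -w (2 ^ k) (x + t) := by
    have : x + e k + t = (x + t) + e k := by abel
    rw [this, w_add, w_e, Nat.testBit_two_pow_self]
    simp
  rw [D_two_pow_succ, D_two_pow_succ, h1, h2]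
  push_cast
  ring

lemma conv_twist {g : G → ℂ} {M n : ℕ} (hg : Dep M g) (hn : n < 2 ^ M) (x : G) :
    conv g (fun z => w n z * Tk n M z) x =
      (w n x : ℂ) * ∑ k ∈ Finset.range M, (cf n k : ℂ) *
        (conv (fun t => g t * (w n t : ℂ)) (D (2 ^ (k + 1))) x -
          conv (fun t => g t * (w n t : ℂ)) (D (2 ^ k)) x) := by
  have hgw : Dep M (fun t => g t * (w n t : ℂ)) := hg.comp₂ (w_dep hn) (fun a b => a * (b : ℂ))
  unfold conv
  have h1 : ∀ t, g t * ((w n (x + t) * Tk n M (x + t) : ℝ) : ℂ) = (w n x : ℂ) *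
      ∑ k ∈ Finset.range M, (cf n k : ℂ) * (g t * (w n t : ℂ) * (D (2 ^ (k + 1)) (x + t) : ℂ) -
        g t * (w n t : ℂ) * (D (2 ^ k) (x + t) : ℂ)) := by
    intro t
    unfold Tk
    rw [w_add]
    push_cast
    rw [Finset.mul_sum, Finset.mul_sum, Finset.mul_sum]
    refine Finset.sum_congr rfl fun k _ => ?_
    ring
  simp_rw [h1]
  rw [integral_const_mul]
  congr 1
  have hi : ∀ k ≤ M, Integrable (fun t => g t * (w n t : ℂ) * (D (2 ^ k) (x + t) : ℂ)) μ := fun k hk =>
    conv_integrand hgw (D_dep (Nat.pow_le_pow_right (by norm_num) hk)) x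
  rw [integral_finsetSum]
  · refine Finset.sum_congr rfl fun k hk => ?_
    have hk' := Finset.mem_range.1 hk
    rw [integral_const_mul, integral_sub (hi _ (by omega)) (hi _ (by omega))]
  · intro k hk
    have hk' := Finset.mem_range.1 hk
    exact ((hi _ (by omega)).sub (hi _ (by omega))).const_mul _

lemma markov {g : G → ℂ} {M : ℕ} (hg : Dep M g) {t : ℝ} :
    t * μ.real {x | t ≤ ‖g x‖} ≤ ∫ x, ‖g x‖ ∂μ :=
  mul_meas_ge_le_integral_of_nonneg (Filter.Eventually.of_forall fun x => norm_nonneg _)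
    (hg.comp (fun a => ‖a‖)).integrable t

/-- uniform weak type (1,1) for step functions -/
theorem weak_L {g : G → ℂ} {M n : ℕ} (hg : Dep M g) (hM : 1 ≤ M) (h1 : 2 ^ (M - 1) ≤ n)
    (hn : n < 2 ^ M) {t : ℝ} (ht : 0 < t) :
    t * μ.real {x | t ≤ ‖1 / (l n : ℂ) * conv g (K n) x‖} ≤ 28 * ∫ x, ‖g x‖ ∂μ := by
  have hn1 : 1 ≤ n := Nat.one_le_two_pow.trans h1
  have hl : 0 < l n := by linarith [l_one_le hn1]
  have hlC : (l n : ℂ) ≠ 0 := by exact_mod_cast hl.ne'
  have hgw : Dep M (fun t => g t * (w n t : ℂ)) := hg.comp₂ (w_dep hn) (fun a b => a * (b : ℂ))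
  obtain ⟨F, hF⟩ : ∃ F : ℕ → G → ℂ, F = fun k => conv (fun t => g t * (w n t : ℂ)) (D (2 ^ k)) :=
    ⟨_, rfl⟩
  have hFm : Mart F := by rw [hF]; exact mart_conv hgw
  obtain ⟨θ, hθ⟩ : ∃ θ : ℕ → ℝ, θ = fun k => cf n k / l n := ⟨_, rfl⟩
  have hθ1 : ∀ k, |θ k| ≤ 1 := by
    intro k
    rw [hθ]
    simp only
    rw [abs_of_nonneg (div_nonneg (cf_nonneg n k) hl.le), div_le_one hl]
    exact cf_le n k
  -- decomposition
  obtain ⟨a, ha⟩ : ∃ a : G → ℂ, a = fun x => 1 / (l n : ℂ) * conv g (Er n M) x := ⟨_, rfl⟩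
  obtain ⟨b, hb⟩ : ∃ b : G → ℂ, b = Y F θ M := ⟨_, rfl⟩
  have hdec : ∀ x, 1 / (l n : ℂ) * conv g (K n) x = a x + (w n x : ℂ) * b x := by
    intro x
    have e1 : conv g (K n) x = conv g (Er n M) x + conv g (fun z => w n z * Tk n M z) x := by
      unfold conv
      rw [← integral_add (conv_integrand hg (Er_dep hn) x)
        (conv_integrand hg ((w_dep hn).comp₂ (Tk_dep n M) (fun a b => a * b)) x)]
      congr 1
      ext t
      unfold Er
      push_cast
      ring
    rw [e1, conv_twist hg hn, ha, hb, hF, hθ]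
    unfold Y
    rw [mul_add]
    congr 1
    rw [Finset.mul_sum, Finset.mul_sum, Finset.mul_sum]
    refine Finset.sum_congr rfl fun k _ => ?_
    push_cast
    field_simp
  have had : Dep M a := by
    rw [ha]; exact (conv_dep (g := g) (Er_dep hn)).comp (fun z => 1 / (l n : ℂ) * z)
  have hsub : {x | t ≤ ‖1 / (l n : ℂ) * conv g (K n) x‖} ⊆
      {x | t / 2 ≤ ‖a x‖} ∪ {x | t / 2 ≤ ‖b x‖} := by
    intro x hx
    by_contra hcon
    rw [Set.mem_union, not_or] at hcon
    obtain ⟨h2, h3⟩ := hcon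
    have h2' : ‖a x‖ < t / 2 := lt_of_not_ge h2
    have h3' : ‖b x‖ < t / 2 := lt_of_not_ge h3
    have h4 : t ≤ ‖a x + (w n x : ℂ) * b x‖ := by rw [← hdec]; exact hx
    have h5 : ‖(w n x : ℂ) * b x‖ = ‖b x‖ := by
      rw [norm_mul, Complex.norm_real, Real.norm_eq_abs, w_abs, one_mul]
    have := norm_add_le (a x) ((w n x : ℂ) * b x)
    linarith
  have hA : t / 2 * μ.real {x | t / 2 ≤ ‖a x‖} ≤ 12 * ∫ x, ‖g x‖ ∂μ := by
    refine (markov had).trans ?_
    have h2 : ∫ x, ‖a x‖ ∂μ = 1 / l n * ∫ x, ‖conv g (Er n M) x‖ ∂μ := by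
      rw [ha, ← integral_const_mul]
      congr 1
      ext x
      rw [norm_mul, norm_one_div_l]
    have h3 := conv_rpow_le (p := 1) one_pos le_rfl hg (Er_dep hn)
    simp only [Real.rpow_one, sub_self, Real.rpow_zero, one_mul] at h3
    have h4 := Er_L1' hM h1 hn
    have h5 : 0 ≤ ∫ x, ‖g x‖ ∂μ := integral_nonneg fun x => norm_nonneg _
    rw [h2]
    calc 1 / l n * ∫ x, ‖conv g (Er n M) x‖ ∂μ ≤ 1 / l n * ((∫ x, ‖g x‖ ∂μ) * (12 * l n)) := by
          gcongr
          exact h3.trans (by gcongr)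
      _ = 12 * ∫ x, ‖g x‖ ∂μ := by field_simp
  have hB : t / 2 * μ.real {x | t / 2 ≤ ‖b x‖} ≤ 2 * ∫ x, ‖g x‖ ∂μ := by
    rw [hb]
    refine (weak_transform hFm hθ1 M (by positivity)).trans (le_of_eq ?_)
    congr 2
    ext x
    rw [hF]
    simp only
    rw [conv_D_self hgw, norm_mul, Complex.norm_real, Real.norm_eq_abs, w_abs, mul_one]
  have hC := (measureReal_mono hsub).trans (measureReal_union_le (μ := μ) {x | t / 2 ≤ ‖a x‖} {x | t / 2 ≤ ‖b x‖})
  nlinarith

end Pool.Agent.Lib.P332aa0
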